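import Pool.Agent.T6.H53.CP.Defs

/-!
Module BLK: if the radius is much larger than the correlation length at distance `1 / N` then
there are many blocks.
-/

set_option autoImplicit false

namespace Pool.Agent.T6.H53.CP

open Pool.Agent.TH795.EP Pool.Agent.TH795.EP2 Pool.Agent.TH795.SE2 Pool.Agent.TH262.SawL
  Pool.Agent.Y981.L2 H981 Finset Filter Topology Pool.Agent.T6.H53.WL Pool.Agent.T6.H53.AL

namespace Blk

/-- the number of bridges -/
theorem br'_eq (n : ℕ) : br' n = (fs IsB n).card := by
  unfold br'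
  have h := bn_ne_top n
  rw [bn_eq] at h ⊢
  rw [tsum_ind_eq_card _ h]
  congr 1
  rw [← Nat.card_eq_finsetCard]
  apply Nat.card_congr
  apply Equiv.subtypeEquivRight
  intro w
  exact mem_fs.symm

theorem path_len (w : List St) : path w w.length = (dx w, dy w) := by
  simp [path]

theorem path_ng_fst (w : List St) (k : ℕ) : (path (ng w) k).1 = (path w k).1 := by
  unfold path ng
  simp only
  rw [← List.map_take]
  exact dx_ng _

/-- the box condition -/
def Box (r : ℕ) (w : List St) : Prop :=
  IsB w ∧ ∀ k, |(path w k).1| ≤ r ∧ |(path w k).2| ≤ r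

theorem Box.ng {r : ℕ} {w : List St} (h : Box r w) : Box r (ng w) := by
  refine ⟨isB_ng.mpr h.1, fun k => ?_⟩
  rw [path_ng_snd, path_ng_fst, abs_neg]
  exact h.2 k

/-- half of the bridges in the box do not end below the start -/
theorem card_box_le (N r : ℕ) : (fs (Box r) N).card ≤ 2 * bk N r := by
  classical
  have h1 : fs (Box r) N ⊆ fs (Blk r) N ∪ (fs (Blk r) N).image ng := by
    intro w hw
    have h := mem_fs.1 hw
    rw [Finset.mem_union, Finset.mem_image]
    rcases le_or_gt 0 (dy w) with h0 | h0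
    · left
      exact mem_fs.2 ⟨⟨h.1.1, h.1.2, h0⟩, h.2⟩
    · right
      refine ⟨ng w, mem_fs.2 ⟨⟨h.1.ng.1, h.1.ng.2, by rw [dy_ng]; omega⟩, by
        rw [length_ng, h.2]⟩, ng_ng w⟩
  calc (fs (Box r) N).card ≤ _ := Finset.card_le_card h1
    _ ≤ (fs (Blk r) N).card + ((fs (Blk r) N).image ng).card := Finset.card_union_le _ _
    _ ≤ (fs (Blk r) N).card + (fs (Blk r) N).card :=
        Nat.add_le_add_left Finset.card_image_le _
    _ = 2 * bk N r := by unfold bk; ring

/-- a bridge that leaves the box is wide -/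
theorem card_isB_le (N r : ℕ) :
    (fs IsB N).card ≤ (fs (Box r) N).card + (fs (fun w => Saw w ∧ Wide r w) N).card := by
  classical
  have h1 : fs IsB N ⊆ fs (Box r) N ∪ fs (fun w => Saw w ∧ Wide r w) N := by
    intro w hw
    have h := mem_fs.1 hw
    rw [Finset.mem_union]
    by_cases hW : Wide r w
    · right
      exact mem_fs.2 ⟨⟨h.1.br.saw, hW⟩, h.2⟩
    · left
      refine mem_fs.2 ⟨⟨h.1, ?_⟩, h.2⟩
      have key : ∀ k, k ≤ w.length → |(path w k).1| ≤ r ∧ |(path w k).2| ≤ r := by
        intro k hk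
        unfold Wide at hW
        push Not at hW
        have h2 := hW 0 k (Nat.zero_le _) hk
        have h0 : path w 0 = (0, 0) := by simp [path]
        rw [h0] at h2
        simp only [sub_zero] at h2
        unfold ln2 at h2
        have h3 := Real.sqrt_nonneg (((path w k).1 : ℝ) ^ 2 + ((path w k).2 : ℝ) ^ 2)
        have h4 := Real.sq_sqrt
          (show (0 : ℝ) ≤ ((path w k).1 : ℝ) ^ 2 + ((path w k).2 : ℝ) ^ 2 by positivity)
        have h5 : ((path w k).1 : ℝ) ^ 2 + ((path w k).2 : ℝ) ^ 2 < (r : ℝ) ^ 2 := by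
          rw [← h4]
          exact pow_lt_pow_left₀ h2 h3 (by norm_num)
        have h6 : (path w k).1 ^ 2 + (path w k).2 ^ 2 < (r : ℤ) ^ 2 := by exact_mod_cast h5
        have hr0 : (0 : ℤ) ≤ r := by positivity
        constructor
        · exact abs_le_of_sq_le_sq (by nlinarith [sq_nonneg (path w k).2]) hr0
        · exact abs_le_of_sq_le_sq (by nlinarith [sq_nonneg (path w k).1]) hr0
      intro k
      rcases le_or_gt k w.length with hk | hk
      · exact key k hk
      · rw [path_ge hk.le]
        exact key _ le_rfl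
  exact (Finset.card_le_card h1).trans (Finset.card_union_le _ _)

end Blk

open Blk in
theorem blk : StmBlk := by
  obtain ⟨K1, hK1, H1⟩ := Pool.Agent.TH508.LT.sq_lower2
  obtain ⟨K2, hK2, H2⟩ := dfar_le
  obtain ⟨K3, hK3, H3⟩ := far_le
  obtain ⟨K4, hK4, H4, -⟩ := exists_K
  refine ⟨4 * (K1 + K2 + K3 + K4 + 8), by linarith, fun N hN r hr => ?_⟩
  set L : ℝ := Real.log N ^ 2 with hL
  have hlog : Real.log 2 ≤ Real.log N := Real.log_le_log (by norm_num) (by exact_mod_cast hN)
  have hlog2 := Real.log_two_gt_d9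
  have hlog3 := Real.log_two_lt_d9
  have hL0 : 0.48 ≤ L := by
    rw [hL]
    nlinarith
  have hNpos : (0 : ℝ) < N := by positivity
  have hmu : 0 < mu ^ N := pow_pos mu_pos N
  set m : ℝ := Pool.Agent.Y981.L2.mass (1 / (N : ℝ)) with hm
  have hmpos : 0 < m := mass_pos (by positivity)
  -- wide words
  have hW : ((fs (fun w => Saw w ∧ Wide r w) N).card : ℝ) ≤
      mu ^ N * Real.exp ((K2 + K3 + K4) * L + 3 - m * r / 4) := by
    have hc : (0 : ℝ) < c N := by
      have := c_pos N
      exact_mod_cast this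
    have h1 : ((fs (fun w => Saw w ∧ Wide r w) N).card : ℝ) = c N * dfar N r := by
      unfold dfar
      field_simp
    have h2 : dfar N r ≤ q N K2 * far N r := H2 N hN r
    have h3 := H3 N hN r (m / 2) (by positivity)
    have h4 : psi (m / 2) ≤ 1 / (N : ℝ) :=
      psi_le_of_lt (by positivity) (by positivity) (by linarith)
    have h5 : (N : ℝ) * psi (m / 2) ≤ 1 := by
      calc (N : ℝ) * psi (m / 2) ≤ N * (1 / N) := by gcongr
        _ = 1 := by field_simp
    have h6 := H4 N hN N le_rfl
    have hq2 : 0 ≤ q N K2 := by unfold q; positivity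
    have hq4 : 0 ≤ q N K4 := by unfold q; positivity
    calc ((fs (fun w => Saw w ∧ Wide r w) N).card : ℝ) = c N * dfar N r := h1
      _ ≤ (mu ^ N * q N K4) * (q N K2 * Real.exp (-(m / 2 * r / 2) + N * psi (m / 2) +
            K3 * Real.log N ^ 2 + 2)) := by
          refine mul_le_mul h6 (h2.trans (mul_le_mul_of_nonneg_left h3 hq2)) ?_ (by positivity)
          unfold dfar
          positivity
      _ = mu ^ N * Real.exp (K4 * L + K2 * L + (-(m / 2 * r / 2) + N * psi (m / 2) +
            K3 * L + 2)) := by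
          rw [Real.exp_add (K4 * L + K2 * L), Real.exp_add (K4 * L)]
          unfold q
          rw [← hL]
          ring
      _ ≤ _ := by
          refine mul_le_mul_of_nonneg_left (Real.exp_le_exp.2 ?_) hmu.le
          linarith
  have hW2 : ((fs (fun w => Saw w ∧ Wide r w) N).card : ℝ) ≤
      1 / 2 * (mu ^ N * Real.exp (-(K1 * L))) := by
    refine hW.trans ?_
    have h1 : Real.exp ((K2 + K3 + K4) * L + 3 - m * r / 4) ≤
        1 / 2 * Real.exp (-(K1 * L)) := by
      have h2 : (1 / 2 : ℝ) = Real.exp (-Real.log 2) := by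
        rw [Real.exp_neg, Real.exp_log (by norm_num)]
        norm_num
      rw [h2, ← Real.exp_add]
      apply Real.exp_le_exp.2
      have h3 : (K1 + K2 + K3 + K4 + 8) * L ≤ m * r / 4 := by
        have : 4 * (K1 + K2 + K3 + K4 + 8) * L ≤ r * m := hr
        linarith
      nlinarith
    calc mu ^ N * Real.exp ((K2 + K3 + K4) * L + 3 - m * r / 4)
        ≤ mu ^ N * (1 / 2 * Real.exp (-(K1 * L))) := by gcongr
      _ = _ := by ring
  have hB := H1 N hN
  rw [Blk.br'_eq] at hB
  have h1 : ((fs IsB N).card : ℝ) ≤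
      (fs (Box r) N).card + (fs (fun w => Saw w ∧ Wide r w) N).card := by
    exact_mod_cast card_isB_le N r
  have h2 : ((fs (Box r) N).card : ℝ) ≤ 2 * bk N r := by exact_mod_cast card_box_le N r
  have h3 : 1 / 4 * (mu ^ N * Real.exp (-(K1 * L))) ≤ bk N r := by linarith
  refine le_trans ?_ h3
  have h4 : q N (-(4 * (K1 + K2 + K3 + K4 + 8))) ≤ 1 / 4 * Real.exp (-(K1 * L)) := by
    have h5 : (1 / 4 : ℝ) = Real.exp (-(2 * Real.log 2)) := by
      rw [Real.exp_neg, two_mul, Real.exp_add, Real.exp_log (by norm_num)]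
      norm_num
    rw [h5, ← Real.exp_add]
    unfold q
    apply Real.exp_le_exp.2
    rw [← hL]
    have h6 : 0 ≤ (K1 + K2 + K3 + K4) * L := by positivity
    have h7 : 0 ≤ K1 * L := by positivity
    have h8 : 0 ≤ K2 * L := by positivity
    have h9 : 0 ≤ K3 * L := by positivity
    have h10 : 0 ≤ K4 * L := by positivity
    nlinarith
  calc mu ^ N * q N (-(4 * (K1 + K2 + K3 + K4 + 8)))
      ≤ mu ^ N * (1 / 4 * Real.exp (-(K1 * L))) := by gcongr
    _ = _ := by ring

end Pool.Agent.T6.H53.CP
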