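import Pool.Agent.T6.H53.CP.Defs

/-!
Module CHN: blocks can be joined to a chain that stays near the first axis.
-/

set_option autoImplicit false

namespace Pool.Agent.T6.H53.CP

open Pool.Agent.TH795.EP Pool.Agent.TH795.EP2 Pool.Agent.TH795.SE2 Pool.Agent.TH262.SawL
  Pool.Agent.Y981.L2 H981 Finset Filter Topology Pool.Agent.T6.H53.WL Pool.Agent.T6.H53.AL

namespace Chn

theorem path_len (w : List St) : path w w.length = (dx w, dy w) := by
  simp [path]

/-- the reflected block -/
theorem blk_or {r : ℕ} {w : List St} (h : Blk r w) (v : List St) (hv : v = w ∨ v = ng w) :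
    IsB v ∧ (∀ k, |(path v k).2| ≤ r) ∧ dx v ≤ r := by
  obtain ⟨h1, h2, h3⟩ := h
  have hdx : dx w ≤ r := by
    have := (h2 w.length).1
    rw [path_len] at this
    exact (le_abs_self _).trans this
  rcases hv with rfl | rfl
  · exact ⟨h1, fun k => (h2 k).2, hdx⟩
  · refine ⟨isB_ng.mpr h1, fun k => ?_, by rw [dx_ng]; exact hdx⟩
    rw [path_ng_snd, abs_neg]
    exact (h2 k).2

theorem step {r M : ℕ} {u w : List St} (hu : Chn r M u) (hw : Blk r w) :
    Chn r (M + 1) (u ++ (if dy u < 0 then w else ng w)) := by
  obtain ⟨u1, u2, u3, u4⟩ := hu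
  set v := (if dy u < 0 then w else ng w) with hv
  have hvor : v = w ∨ v = ng w := by
    by_cases h : dy u < 0
    · left; rw [hv, if_pos h]
    · right; rw [hv, if_neg h]
  obtain ⟨v1, v2, v3⟩ := blk_or hw v hvor
  have hdyw : dy w ≤ r := by
    have := (hw.2.1 w.length).2
    rw [path_len] at this
    exact (le_abs_self _).trans this
  have hdyw0 : 0 ≤ dy w := hw.2.2
  have u3' := abs_le.mp u3
  refine ⟨u1.append v1, fun k => ?_, ?_, ?_⟩
  · rcases le_or_gt k u.length with hk | hk
    · rw [path_append_left hk]
      exact u2 k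
    · obtain ⟨j, rfl⟩ : ∃ j, k = u.length + j := ⟨k - u.length, by omega⟩
      rw [path_append_right]
      have := abs_le.mp (v2 j)
      rw [abs_le]
      constructor <;> simp only <;> linarith [this.1, this.2, u3'.1, u3'.2]
  · rw [dy_append, abs_le]
    by_cases h : dy u < 0
    · have hv' : v = w := by rw [hv, if_pos h]
      rw [hv']
      constructor <;> linarith [u3'.1, u3'.2]
    · have hv' : v = ng w := by rw [hv, if_neg h]
      rw [hv', dy_ng]
      push Not at h
      constructor <;> linarith [u3'.1, u3'.2]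
  · rw [dx_append]
    push_cast
    nlinarith

end Chn

theorem chn : StmChn := by
  intro N r M hN
  induction M with
  | zero =>
    rw [pow_zero]
    unfold ch
    rw [Nat.one_le_iff_ne_zero, ← Nat.pos_iff_ne_zero, Finset.card_pos]
    refine ⟨[], mem_fs.2 ⟨⟨isB_nil, fun k => ?_, ?_, ?_⟩, by simp⟩⟩
    · simp [path]
    · simp
    · simp
  | succ M ih =>
    classical
    rw [pow_succ]
    refine (Nat.mul_le_mul_right _ ih).trans ?_
    unfold ch bk
    rw [← Finset.card_product]
    refine Finset.card_le_card_of_injOn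
      (fun p => p.1 ++ (if dy p.1 < 0 then p.2 else ng p.2)) ?_ ?_
    · rintro ⟨u, w⟩ hp
      have hp' := Finset.mem_product.1 (Finset.mem_coe.1 hp)
      have h1 := mem_fs.1 hp'.1
      have h2 := mem_fs.1 hp'.2
      refine Finset.mem_coe.2 (mem_fs.2 ⟨Chn.step h1.1 h2.1, ?_⟩)
      simp only at h1 h2 ⊢
      rw [List.length_append]
      have : (if dy u < 0 then w else ng w).length = w.length := by
        split_ifs
        · rfl
        · exact length_ng w
      rw [this, h1.2, h2.2]
      ring
    · rintro ⟨u, w⟩ hp ⟨u', w'⟩ hp' heq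
      have hp1 := Finset.mem_product.1 (Finset.mem_coe.1 hp)
      have hp2 := Finset.mem_product.1 (Finset.mem_coe.1 hp')
      have h1 := mem_fs.1 hp1.1
      have h2 := mem_fs.1 hp2.1
      simp only at heq h1 h2
      obtain ⟨rfl, h4⟩ := List.append_inj heq (by rw [h1.2, h2.2])
      have : w = w' := by
        by_cases h : dy u < 0
        · simpa [h] using h4
        · simp only [h, if_false] at h4
          exact ng_injective h4
      rw [this]

end Pool.Agent.T6.H53.CP
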