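import Pool.Agent.T6.H53.CP.Xi

/-!
Module EXPL: the explicit choice of the length of the blocks.
-/

set_option autoImplicit false

namespace Pool.Agent.T6.H53.CP

open Pool.Agent.TH795.EP Pool.Agent.TH795.EP2 Pool.Agent.TH795.SE2 Pool.Agent.TH262.SawL
  Pool.Agent.Y981.L2 H981 Finset Filter Topology Pool.Agent.T6.H53.WL Pool.Agent.T6.H53.AL

theorem expl : StmExpl := by
  intro K hK
  obtain ⟨c0, hc0, hm⟩ := mass_ge
  obtain ⟨N0, hN0⟩ := eventually_atTop.1 hm
  obtain ⟨c, hcd⟩ : ∃ c, c = min c0 1 / 8 := ⟨_, rfl⟩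
  have hc : 0 < c := by rw [hcd]; positivity
  have hc8 : 8 * c ≤ c0 := by rw [hcd]; linarith [min_le_left c0 1]
  have hc1 : 8 * c ≤ 1 := by rw [hcd]; linarith [min_le_right c0 1]
  refine ⟨c, hc, ?_⟩
  have hll : Tendsto (fun k : ℕ => Real.log (Real.log (k : ℝ))) atTop atTop :=
    Real.tendsto_log_atTop.comp tendsto_logN
  filter_upwards [eventually_ge_atTop (max N0 20),
    tendsto_logN.eventually (ev_exp_div (80 * K) hc), hll.eventually_ge_atTop 1,
    tendsto_logN.eventually_ge_atTop 1] with k hk hE hl hL1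
  have hkN : N0 ≤ k := (le_max_left _ _).trans hk
  have hk20 : 20 ≤ k := (le_max_right _ _).trans hk
  have hkR : (20 : ℝ) ≤ k := by exact_mod_cast hk20
  have hk0 : (0 : ℝ) < k := by linarith
  set L := Real.log (k : ℝ) with hL
  set l := Real.log L with hlL
  have hL0 : 0 < L := by linarith
  have hl0 : 0 < l := by linarith
  have hkL : (k : ℝ) = Real.exp L := by rw [hL, Real.exp_log hk0]
  set D := c * L / l with hD
  have hD0 : 0 ≤ D := by rw [hD]; positivity
  have hD8 : 8 * D ≤ L := by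
    have h1 : 8 * D = (8 * c) * L / l := by rw [hD]; ring
    rw [h1, div_le_iff₀ hl0]
    nlinarith
  obtain ⟨X, hX⟩ : ∃ X, X = Real.exp (L + 2 * D) := ⟨_, rfl⟩
  have hXk : (k : ℝ) ≤ X := by
    rw [hX, hkL]
    exact Real.exp_le_exp.2 (by linarith)
  obtain ⟨N, hN⟩ : ∃ N, N = ⌊X⌋₊ := ⟨_, rfl⟩
  have hNk : k ≤ N := by rw [hN]; exact Nat.le_floor hXk
  have hNX : (N : ℝ) ≤ X := by rw [hN]; exact Nat.floor_le (by linarith)
  have hNX2 : X / 2 ≤ N := by rw [hN]; exact half_le_floor (by linarith)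
  have hNkR : (k : ℝ) ≤ N := by exact_mod_cast hNk
  have hNp : (0 : ℝ) < N := by linarith
  have hlN : L ≤ Real.log N := Real.log_le_log hk0 hNkR
  have hlN2 : Real.log N ≤ L + 2 * D := by
    have := Real.log_le_log hNp hNX
    rwa [hX, Real.log_exp] at this
  have hlN3 : Real.log N ≤ 2 * L := by linarith
  have hllN : Real.log (Real.log N) ≤ 2 * l := by
    have h1 : Real.log (Real.log N) ≤ Real.log (2 * L) := Real.log_le_log (by linarith) hlN3
    rw [Real.log_mul (by norm_num) hL0.ne', ← hlL] at h1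
    have h2 : Real.log 2 ≤ 1 := by
      have := Real.log_two_lt_d9
      linarith
    linarith
  have hllN0 : 0 < Real.log (Real.log N) := by
    have : l ≤ Real.log (Real.log N) := Real.log_le_log hL0 hlN
    linarith
  have hmN : Real.exp (-L + 2 * D) ≤ mass (1 / (N : ℝ)) := by
    refine le_trans (Real.exp_le_exp.2 ?_) (hN0 N (hkN.trans hNk))
    have h1 : 4 * D ≤ c0 * Real.log N / Real.log (Real.log N) := by
      calc 4 * D = (8 * c) * L / (2 * l) := by rw [hD]; field_simp; ring
        _ ≤ c0 * Real.log N / Real.log (Real.log N) := by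
            apply div_le_div₀ (by positivity) _ hllN0 hllN
            exact mul_le_mul hc8 hlN hL0.le hc0.le
    linarith
  have hmp : 0 < mass (1 / (N : ℝ)) := mass_pos (by positivity)
  have hrk : (k : ℝ) / 20 ≤ ((k / 10 : ℕ) : ℝ) := by
    have h1 : k < 10 * (k / 10) + 10 := by omega
    have h2 : (k : ℝ) < 10 * ((k / 10 : ℕ) : ℝ) + 10 := by exact_mod_cast h1
    linarith
  have hlNsq : Real.log N ^ 2 ≤ 4 * L ^ 2 := by
    have := pow_le_pow_left₀ (by linarith : (0 : ℝ) ≤ Real.log N) hlN3 2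
    linarith [this, mul_pow 2 L 2]
  have hK0 : 0 < K := by linarith
  refine ⟨N, k / 10, by omega, by omega, ?_, ?_, ?_⟩
  · have h1 : ((k / 10 : ℕ) : ℝ) ≤ k := by exact_mod_cast Nat.div_le_self k 10
    nlinarith
  · calc K * Real.log N ^ 2 ≤ K * (4 * L ^ 2) := mul_le_mul_of_nonneg_left hlNsq hK0.le
      _ ≤ Real.exp D / 20 := by linarith
      _ ≤ Real.exp (2 * D) / 20 := by
          have := Real.exp_le_exp.2 (show D ≤ 2 * D by linarith)
          linarith
      _ = (k / 20) * Real.exp (-L + 2 * D) := by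
          rw [hkL, Real.exp_add, Real.exp_neg]
          field_simp
      _ ≤ ((k / 10 : ℕ) : ℝ) * mass (1 / (N : ℝ)) :=
          mul_le_mul hrk hmN (Real.exp_pos _).le (by positivity)
  · rw [rpow_loglog hk0, ← hL, ← hlL]
    have hX0 : 0 < X := by rw [hX]; exact Real.exp_pos _
    calc K / N * Real.log N ^ 2 ≤ K / (X / 2) * (4 * L ^ 2) := by
          apply mul_le_mul _ hlNsq (by positivity) (by positivity)
          exact div_le_div_of_nonneg_left hK0.le (by positivity) hNX2
      _ = 8 * K * L ^ 2 / X := by field_simp; ring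
      _ ≤ Real.exp D / X := by
          apply div_le_div_of_nonneg_right _ hX0.le
          have : 0 ≤ K * L ^ 2 := by positivity
          linarith
      _ = Real.exp (-L - D) := by
          rw [hX, ← Real.exp_sub]
          congr 1
          ring

end Pool.Agent.T6.H53.CP
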