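import Pool.Agent.T6.H53.CP.Xi

/-!
Module EXPO: the choice of the length of the blocks if the correlation length has an exponent.
-/

set_option autoImplicit false

namespace Pool.Agent.T6.H53.CP

open Pool.Agent.TH795.EP Pool.Agent.TH795.EP2 Pool.Agent.TH795.SE2 Pool.Agent.TH262.SawL
  Pool.Agent.Y981.L2 H981 Finset Filter Topology Pool.Agent.T6.H53.WL Pool.Agent.T6.H53.AL

theorem expo : StmExpo := by
  intro K θ hK hθ hθ1 hM ε hε
  have hK0 : 0 < K := by linarith
  obtain ⟨φ, hφ0, hφ1, hφ2⟩ : ∃ φ : ℝ, θ < φ ∧ φ < 1 ∧ 1 / θ - ε / 2 < 1 / φ := by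
    have h1 : Tendsto (fun x : ℝ => 1 / x) (𝓝[>] θ) (𝓝 (1 / θ)) := by
      simp only [one_div]
      exact (tendsto_inv₀ hθ.ne').mono_left nhdsWithin_le_nhds
    have h2 := h1.eventually (lt_mem_nhds (show 1 / θ - ε / 2 < 1 / θ by linarith))
    obtain ⟨φ, hφ, hφ'⟩ := (h2.and (Ioo_mem_nhdsGT hθ1)).exists
    exact ⟨φ, hφ'.1, hφ'.2, hφ⟩
  have hφp : 0 < φ := hθ.trans hφ0
  obtain ⟨η, hη⟩ : ∃ η, η = (φ - θ) / 2 := ⟨_, rfl⟩
  have hη0 : 0 < η := by rw [hη]; linarith
  have hηφ : θ + η = φ - η := by rw [hη]; ring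
  obtain ⟨N0, hN0⟩ := eventually_atTop.1 (ev_inv (hM η hη0))
  have hφinv : 1 ≤ 1 / φ := by rw [le_div_iff₀ hφp]; linarith
  filter_upwards [eventually_ge_atTop (max N0 20),
    tendsto_logN.eventually (ev_exp_lin (20 * K * (1 / φ) ^ 2) (show 0 < η / φ by positivity)),
    tendsto_logN.eventually (ev_exp_lin (2 * K * (1 / φ) ^ 2) (show 0 < ε / 2 by positivity)),
    tendsto_logN.eventually_ge_atTop 1] with k hk hE hE2 hL1
  have hkN : N0 ≤ k := (le_max_left _ _).trans hk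
  have hk20 : 20 ≤ k := (le_max_right _ _).trans hk
  have hkR : (20 : ℝ) ≤ k := by exact_mod_cast hk20
  have hk0 : (0 : ℝ) < k := by linarith
  set L := Real.log (k : ℝ) with hL
  have hL0 : 0 < L := by linarith
  have hkL : (k : ℝ) = Real.exp L := by rw [hL, Real.exp_log hk0]
  obtain ⟨X, hX⟩ : ∃ X, X = Real.exp (1 / φ * L) := ⟨_, rfl⟩
  have hXk : (k : ℝ) ≤ X := by
    rw [hX, hkL]
    exact Real.exp_le_exp.2 (by nlinarith)
  obtain ⟨N, hN⟩ : ∃ N, N = ⌊X⌋₊ := ⟨_, rfl⟩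
  have hNk : k ≤ N := by rw [hN]; exact Nat.le_floor hXk
  have hNX : (N : ℝ) ≤ X := by rw [hN]; exact Nat.floor_le (by linarith)
  have hNX2 : X / 2 ≤ N := by rw [hN]; exact half_le_floor (by linarith)
  have hNkR : (k : ℝ) ≤ N := by exact_mod_cast hNk
  have hNp : (0 : ℝ) < N := by linarith
  have hlN : L ≤ Real.log N := Real.log_le_log hk0 hNkR
  have hlN2 : Real.log N ≤ 1 / φ * L := by
    have := Real.log_le_log hNp hNX
    rwa [hX, Real.log_exp] at this
  have hmN : Real.exp (-((φ - η) * (1 / φ * L))) ≤ mass (1 / (N : ℝ)) := by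
    refine le_trans ?_ (hN0 N (hkN.trans hNk))
    have e1 : Real.log (1 / (N : ℝ)) = -Real.log N := by rw [one_div, Real.log_inv]
    rw [Real.rpow_def_of_pos (by positivity), e1, hηφ]
    apply Real.exp_le_exp.2
    have h1 : 0 ≤ φ - η := by rw [← hηφ]; positivity
    have h2 := mul_le_mul_of_nonneg_left hlN2 h1
    linarith
  have hmp : 0 < mass (1 / (N : ℝ)) := mass_pos (by positivity)
  have hrk : (k : ℝ) / 20 ≤ ((k / 10 : ℕ) : ℝ) := by
    have h1 : k < 10 * (k / 10) + 10 := by omega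
    have h2 : (k : ℝ) < 10 * ((k / 10 : ℕ) : ℝ) + 10 := by exact_mod_cast h1
    linarith
  have hlNsq : Real.log N ^ 2 ≤ (1 / φ) ^ 2 * L ^ 2 := by
    have := pow_le_pow_left₀ (by linarith : (0 : ℝ) ≤ Real.log N) hlN2 2
    linarith [this, mul_pow (1 / φ) L 2]
  refine ⟨N, k / 10, by omega, by omega, ?_, ?_, ?_⟩
  · have h1 : ((k / 10 : ℕ) : ℝ) ≤ k := by exact_mod_cast Nat.div_le_self k 10
    nlinarith
  · calc K * Real.log N ^ 2 ≤ K * ((1 / φ) ^ 2 * L ^ 2) :=
          mul_le_mul_of_nonneg_left hlNsq hK0.le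
      _ ≤ Real.exp (η / φ * L) / 20 := by linarith
      _ = (k / 20) * Real.exp (-((φ - η) * (1 / φ * L))) := by
          have e2 : η / φ * L = L + -((φ - η) * (1 / φ * L)) := by
            field_simp
            ring
          rw [e2, Real.exp_add, hkL]
          ring
      _ ≤ ((k / 10 : ℕ) : ℝ) * mass (1 / (N : ℝ)) :=
          mul_le_mul hrk hmN (Real.exp_pos _).le (by positivity)
  · have hX0 : 0 < X := by rw [hX]; exact Real.exp_pos _
    calc K / N * Real.log N ^ 2 ≤ K / (X / 2) * ((1 / φ) ^ 2 * L ^ 2) := by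
          apply mul_le_mul _ hlNsq (by positivity) (by positivity)
          exact div_le_div_of_nonneg_left hK0.le (by positivity) hNX2
      _ = 2 * K * (1 / φ) ^ 2 * L ^ 2 / X := by field_simp
      _ ≤ Real.exp (ε / 2 * L) / X := div_le_div_of_nonneg_right hE2 hX0.le
      _ = Real.exp (ε / 2 * L - 1 / φ * L) := by rw [hX, ← Real.exp_sub]
      _ ≤ (k : ℝ) ^ (-(1 / θ - ε)) := by
          rw [Real.rpow_def_of_pos hk0, ← hL]
          apply Real.exp_le_exp.2
          nlinarith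

end Pool.Agent.T6.H53.CP
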