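import Pool.Agent.T6.H53.CP.Defs

/-!
Module LOOP: two walks in a box with both ends in the top row give a polygon in a box.
-/

set_option autoImplicit false

namespace Pool.Agent.T6.H53.CP

open Pool.Agent.TH795.EP Pool.Agent.TH795.EP2 Pool.Agent.TH795.SE2 Pool.Agent.TH262.SawL
  Pool.Agent.Y981.L2 H981 Finset Filter Topology Pool.Agent.T6.H53.WL Pool.Agent.T6.H53.AL

namespace LoopAux

/-- two arches in a box make a loop in a box -/
theorem box_lower {m : ℕ} {h x : ℤ} {M : ℕ} (hM : M = m + m + 2) :
    sl m h x * sl m h x ≤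
      {f : ZMod M → ℤ × ℤ | IsLoop M f ∧ Bxd x (2 * h + 1) f}.ncard := by
  classical
  have : NeZero M := ⟨by omega⟩
  have hval : ∀ k : ℕ, k < M → ((k : ZMod M)).val = k := fun k hk => ZMod.val_cast_of_lt hk
  obtain ⟨φ, hφ⟩ : ∃ φ : List St × List St → (ZMod M → ℤ × ℤ), ∀ z i,
      φ z i = path (z.1 ++ (St.N :: (ng (sg z.2) ++ [St.S]))) i.val := ⟨_, fun _ _ => rfl⟩
  have hfin : {f : ZMod M → ℤ × ℤ | IsLoop M f ∧ Bxd x (2 * h + 1) f}.Finite := by
    apply Set.Finite.subset _ (s := {f : ZMod M → ℤ × ℤ | IsLoop M f})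
      (fun f hf => hf.1)
    apply Set.Finite.subset (Set.Finite.image (fun (w : List St) => fun i : ZMod M => path w i.val)
      (fin_words Saw (M - 1)))
    intro f hf
    obtain ⟨w, h1, h2, h3⟩ := loop_word (by omega) hf 0
    refine ⟨w, ⟨h1, h2⟩, ?_⟩
    funext i
    simp only
    rw [h3 _ (ZMod.val_lt i), ZMod.natCast_zmod_val, zero_add, hf.1]
    simp
  unfold sl
  rw [← Finset.card_product]
  -- the kinds of positions
  have p1 : ∀ z : List St × List St, z.1.length = m → ∀ k ≤ m,
      path (z.1 ++ (St.N :: (ng (sg z.2) ++ [St.S]))) k = path z.1 k := by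
    intro z hz k hk
    exact path_append_left (by omega)
  have p2 : ∀ z : List St × List St, z.1.length = m → z.2.length = m → ∀ l ≤ m,
      path (z.1 ++ (St.N :: (ng (sg z.2) ++ [St.S]))) (m + (l + 1)) =
        (dx z.1 - (path z.2 l).1, dy z.1 + 1 - (path z.2 l).2) := by
    intro z hz1 hz2 l hl
    have h1 := path_append_right z.1 (St.N :: (ng (sg z.2) ++ [St.S])) (l + 1)
    rw [hz1] at h1
    have h2 : l ≤ (ng (sg z.2)).length := by rw [length_ng, length_sg]; omega
    rw [h1, path_cons_succ, path_append_left h2, path_rot]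
    simp only [St.x_N, St.y_N, Prod.mk.injEq]
    constructor <;> ring
  have hcard : ((fs (Slb h x) m ×ˢ fs (Slb h x) m).image φ).card =
      (fs (Slb h x) m ×ˢ fs (Slb h x) m).card := by
    apply Finset.card_image_of_injOn
    rintro ⟨u, v⟩ h1 ⟨u', v'⟩ h2 heq
    rw [Finset.mem_coe, Finset.mem_product, mem_fs, mem_fs] at h1 h2
    obtain ⟨⟨⟨hu, hux, huy, huX, huY⟩, hul⟩, ⟨⟨hv, hvx, hvy, hvX, hvY⟩, hvl⟩⟩ := h1
    obtain ⟨⟨⟨hu', hux', huy', huX', huY'⟩, hul'⟩, ⟨⟨hv', hvx', hvy', hvX', hvY'⟩, hvl'⟩⟩ := h2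
    simp only at hu hux huy hul hv hvx hvy hvl
    simp only at hu' hux' huy' hul' hv' hvx' hvy' hvl'
    have hk : ∀ k, k < M → path (u ++ (St.N :: (ng (sg v) ++ [St.S]))) k =
        path (u' ++ (St.N :: (ng (sg v') ++ [St.S]))) k := by
      intro k hk
      have := congrFun heq (k : ZMod M)
      rw [hφ, hφ, hval k hk] at this
      exact this
    have e1 : u = u' := by
      apply word_ext (by omega)
      intro k hk'
      have g1 := hk k (by omega)
      have g2 := p1 (u, v) hul k (by omega)
      have g3 := p1 (u', v') hul' k (by omega)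
      simp only at g2 g3
      rw [g2, g3] at g1
      exact g1
    have e2 : v = v' := by
      apply word_ext (by omega)
      intro l hl'
      have g1 := hk (m + (l + 1)) (by omega)
      have g2 := p2 (u, v) hul hvl l (by omega)
      have g3 := p2 (u', v') hul' hvl' l (by omega)
      simp only at g2 g3
      rw [g2, g3, hux, hux', huy, huy'] at g1
      obtain ⟨g4, g5⟩ := Prod.mk.inj g1
      exact Prod.ext (by omega) (by omega)
    rw [e1, e2]
  rw [← hcard, ← Set.ncard_coe_finset]
  apply Set.ncard_le_ncard _ hfin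
  intro f hf
  rw [Finset.mem_coe, Finset.mem_image] at hf
  obtain ⟨⟨u, v⟩, h1, rfl⟩ := hf
  rw [Finset.mem_product, mem_fs, mem_fs] at h1
  obtain ⟨⟨⟨hu, hux, huy, huX, huY⟩, hul⟩, ⟨⟨hv, hvx, hvy, hvX, hvY⟩, hvl⟩⟩ := h1
  simp only at hu hux huy huX huY hul hv hvx hvy hvX hvY hvl
  have q1 := p1 (u, v) hul
  have q2 := p2 (u, v) hul hvl
  simp only at q1 q2
  obtain ⟨W, hW⟩ : ∃ W, W = u ++ (St.N :: (ng (sg v) ++ [St.S])) := ⟨_, rfl⟩
  rw [← hW] at q1 q2
  have hWl : W.length = M := by
    rw [hW]
    simp only [List.length_append, List.length_cons, length_ng, length_sg, List.length_nil]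
    omega
  have hfun : φ (u, v) = fun i : ZMod M => path W i.val := by
    funext i
    rw [hφ, hW]
  refine ⟨?_, ?_⟩
  · rw [hfun]
    apply loop_of (by omega) hWl
    · rw [hW, dx_append, dx_cons, dx_append, dx_ng, dx_sg]
      simp only [dx_cons, dx_nil, St.x_N, St.x_S]
      omega
    · rw [hW, dy_append, dy_cons, dy_append, dy_ng, dy_sg]
      simp only [dy_cons, dy_nil, St.y_N, St.y_S]
      omega
    · intro i j hij hj
      rcases Nat.lt_or_ge m j with h2 | h2
      · obtain ⟨l, rfl⟩ : ∃ l, j = m + (l + 1) := ⟨j - m - 1, by omega⟩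
        rw [q2 l (by omega)]
        rcases Nat.lt_or_ge m i with h3 | h3
        · obtain ⟨l', rfl⟩ : ∃ l', i = m + (l' + 1) := ⟨i - m - 1, by omega⟩
          rw [q2 l' (by omega)]
          intro he
          obtain ⟨e1, e2⟩ := Prod.mk.inj he
          exact saw_iff'.1 hv l' l (by omega) (by omega) (Prod.ext (by omega) (by omega))
        · rw [q1 i h3]
          intro he
          have e2 := congrArg Prod.snd he
          simp only at e2
          have := (huY i).2
          have := (hvY l).2
          omega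
      · rw [q1 i (by omega), q1 j h2]
        exact saw_iff'.1 hu i j hij (by omega)
  · rw [hfun]
    have hpt : ∀ i : ZMod M, (0 ≤ (path W i.val).1 ∧ (path W i.val).1 ≤ x) ∧
        (-h ≤ (path W i.val).2 ∧ (path W i.val).2 ≤ 1 + h) := by
      intro i
      have hi := ZMod.val_lt i
      have h0 := huY 0
      rw [path_zero] at h0
      simp only at h0
      rcases Nat.lt_or_ge m i.val with h2 | h2
      · obtain ⟨l, hl⟩ : ∃ l, i.val = m + (l + 1) := ⟨i.val - m - 1, by omega⟩
        rw [hl, q2 l (by omega), hux, huy]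
        have a1 := hvX l
        have a2 := hvY l
        simp only
        omega
      · rw [q1 i.val h2]
        have a1 := huX i.val
        have a2 := huY i.val
        omega
    intro i j
    have a := hpt i
    have b := hpt j
    simp only
    omega

end LoopAux

open LoopAux in
theorem loop : StmLoop := by
  intro m h x _
  have h1 := box_lower (m := m) (h := h) (x := x) (M := 2 * (m + 1)) (by ring)
  rw [sq]
  exact h1

end Pool.Agent.T6.H53.CP
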