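import Pool.Agent.T6.H53.CP.Defs

/-!
Module SIDE: a chain of blocks gives a walk in a box with both ends in the top row.
-/

set_option autoImplicit false

namespace Pool.Agent.T6.H53.CP

open Pool.Agent.TH795.EP Pool.Agent.Y981.L2 H981 Finset

namespace SideAux

theorem saw_append {u v : List St} (hu : Saw u) (hv : Saw v)
    (h : ∀ i, i < u.length → ∀ j, 1 ≤ j → j ≤ v.length →
      path u i ≠ (dx u + (path v j).1, dy u + (path v j).2)) : Saw (u ++ v) := by
  rw [saw_iff'] at hu hv ⊢
  intro i j hij hj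
  rw [List.length_append] at hj
  rcases Nat.lt_or_ge u.length j with hju | hju
  · obtain ⟨j', rfl⟩ := Nat.exists_eq_add_of_le hju.le
    rcases Nat.lt_or_ge i u.length with hi | hi
    · rw [path_append_left hi.le, path_append_right]
      exact h i hi j' (by omega) (by omega)
    · obtain ⟨i', rfl⟩ := Nat.exists_eq_add_of_le hi
      rw [path_append_right, path_append_right]
      intro he
      rw [Prod.mk.injEq] at he
      apply hv i' j' (by omega) (by omega)
      ext
      · linarith [he.1]
      · linarith [he.2]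
  · rw [path_append_left hju, path_append_left (by omega)]
    exact hu i j hij hju

theorem path_app {u v : List St} {P : ℤ × ℤ → Prop} (hu : ∀ k, P (path u k))
    (hv : ∀ k, P (dx u + (path v k).1, dy u + (path v k).2)) (k : ℕ) : P (path (u ++ v) k) := by
  rcases Nat.lt_or_ge k u.length with h | h
  · rw [path_append_left h.le]
    exact hu k
  · obtain ⟨k', rfl⟩ := Nat.exists_eq_add_of_le h
    rw [path_append_right]
    exact hv k'

theorem dx_rep (n : ℕ) (s : St) : dx (List.replicate n s) = n * s.x := by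
  unfold dx
  simp

theorem dy_rep (n : ℕ) (s : St) : dy (List.replicate n s) = n * s.y := by
  unfold dy
  simp

theorem path_rep (n : ℕ) (s : St) (k : ℕ) :
    path (List.replicate n s) k = ((min k n : ℕ) * s.x, (min k n : ℕ) * s.y) := by
  unfold path
  rw [List.take_replicate, dx_rep, dy_rep]

theorem saw_rep (n : ℕ) (s : St) : Saw (List.replicate n s) := by
  rw [saw_iff']
  intro i j hij hj he
  rw [List.length_replicate] at hj
  rw [path_rep, path_rep, Prod.mk.injEq, min_eq_left (by omega), min_eq_left hj] at he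
  cases s <;> simp at he <;> omega

theorem isB_repE (n : ℕ) : IsB (List.replicate n St.E) := by
  induction n with
  | zero => exact isB_nil
  | succ n ih =>
    have h1 : IsB [St.E] := by
      refine ⟨1, ?_, ?_, ?_, by simp⟩
      · exact saw_rep 1 St.E
      · intro u hu h0
        rcases List.prefix_cons_iff.mp hu with h | ⟨t, ht, h⟩
        · exact absurd h h0
        · have : t = [] := by simpa using h
          rw [ht, this]; simp
      · intro u hu
        rcases List.prefix_cons_iff.mp hu with h | ⟨t, ht, h⟩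
        · rw [h]; simp
        · have : t = [] := by simpa using h
          rw [ht, this]; simp
    have := h1.append ih
    simpa [List.replicate_succ] using this

theorem isB_path {w : List St} (h : IsB w) (k : ℕ) :
    0 ≤ (path w k).1 ∧ (path w k).1 ≤ dx w ∧ (1 ≤ k → 1 ≤ w.length → 1 ≤ (path w k).1) := by
  obtain ⟨a, ha⟩ := h
  have hpre : w.take k <+: w := List.take_prefix k w
  have h1 := ha.le hpre
  have h2 := ha.dx
  have h3 : 0 ≤ dx (w.take k) := HP.dx_nonneg (ha.hp.prew hpre)
  refine ⟨h3, ?_, ?_⟩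
  · change dx (w.take k) ≤ dx w
    rw [h2]; exact h1
  · intro hk hw
    have h4 : w.take k ≠ [] := by
      intro h0
      have h5 := congrArg List.length h0
      rw [List.length_take, List.length_nil] at h5
      omega
    exact ha.hp _ hpre h4

/-- the walk along three sides -/
def side (D t a : ℕ) (g : List St) : List St :=
  List.replicate D St.S ++ ((([St.E] ++ g) ++ List.replicate t St.E) ++ List.replicate a St.N)

theorem side_inj (D t a : ℕ) {g g' : List St} (h : side D t a g = side D t a g') : g = g' := by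
  unfold side at h
  have h1 := List.append_cancel_left h
  have h2 := List.append_cancel_right h1
  have h3 := List.append_cancel_right h2
  exact List.append_cancel_left h3

theorem side_len (D t a : ℕ) (g : List St) : (side D t a g).length = D + (1 + g.length + t + a) := by
  unfold side
  simp only [List.length_append, List.length_replicate, List.length_cons, List.length_nil,
    zero_add]

theorem side_dx (D t a : ℕ) (g : List St) : dx (side D t a g) = 1 + dx g + t := by
  unfold side
  simp only [dx_append, dx_rep, dx_cons, dx_nil, St.x_E, St.x_S, St.x_N]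
  ring

theorem side_dy (D t a : ℕ) (g : List St) : dy (side D t a g) = -D + dy g + a := by
  unfold side
  simp only [dy_append, dy_rep, dy_cons, dy_nil, St.y_E, St.y_S, St.y_N]
  ring

theorem isB_mid {g : List St} (hg : IsB g) (t : ℕ) :
    IsB (([St.E] ++ g) ++ List.replicate t St.E) :=
  ((isB_repE 1).append hg).append (isB_repE t)

theorem side_saw {g : List St} (hg : IsB g) (D t a : ℕ) (ht : 1 ≤ t) : Saw (side D t a g) := by
  have hmid := isB_mid hg t
  unfold side
  obtain ⟨B, hB⟩ : ∃ B, B = ([St.E] ++ g) ++ List.replicate t St.E := ⟨_, rfl⟩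
  rw [← hB] at hmid ⊢
  have hBl : B.length = 1 + g.length + t := by rw [hB]; simp; omega
  have hBdx : dx B = 1 + dx g + t := by rw [hB]; simp [dx_rep]; ring
  have hgx : 0 ≤ dx g := by
    have := (isB_path hg 0)
    exact this.1.trans this.2.1
  have hsB : Saw B := by
    obtain ⟨a, ha⟩ := hmid
    exact ha.saw
  -- the first coordinate along `B` is smaller than at the end
  have hlt : ∀ i, i < B.length → (path B i).1 < dx B := by
    intro i hi
    rcases Nat.lt_or_ge i ([St.E] ++ g).length with h | h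
    · rw [hB, path_append_left h.le]
      have h1 := (isB_path ((isB_repE 1).append hg) i).2.1
      have h2 : dx (List.replicate 1 St.E ++ g) = 1 + dx g := by simp
      rw [h2] at h1
      have h3 : (path ([St.E] ++ g) i).1 ≤ 1 + dx g := h1
      have h4 : dx ([St.E] ++ g ++ List.replicate t St.E) = 1 + dx g + t := by simp [dx_rep]; ring
      rw [h4]
      have : (1 : ℤ) ≤ t := by exact_mod_cast ht
      linarith
    · obtain ⟨l, rfl⟩ := Nat.exists_eq_add_of_le h
      rw [hBl] at hi
      have h5 : ([St.E] ++ g).length = 1 + g.length := by simp; omega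
      rw [h5] at hi
      rw [hBdx, hB, path_append_right, path_rep]
      simp only [dx_append, dx_cons, dx_nil, St.x_E]
      rw [min_eq_left (by omega)]
      have : (l : ℤ) < t := by exact_mod_cast (show l < t by omega)
      linarith
  have hBC : Saw (B ++ List.replicate a St.N) := by
    refine saw_append hsB (saw_rep _ _) ?_
    intro i hi j hj _ he
    rw [path_rep] at he
    have h1 := hlt i hi
    have h2 := congrArg Prod.fst he
    simp only [St.x_N, mul_zero, add_zero] at h2
    linarith
  refine saw_append (saw_rep _ _) hBC ?_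
  intro i hi j hj hjl he
  rw [path_rep] at he
  have h2 := congrArg Prod.fst he
  simp only [dx_rep, St.x_S, mul_zero, zero_add] at h2
  have h3 : 1 ≤ (path (B ++ List.replicate a St.N) j).1 := by
    rcases Nat.lt_or_ge j B.length with h | h
    · rw [path_append_left h.le]
      exact (isB_path hmid j).2.2 hj (by omega)
    · obtain ⟨l, rfl⟩ := Nat.exists_eq_add_of_le h
      rw [path_append_right, path_rep]
      simp only [St.x_N, mul_zero, add_zero]
      rw [hBdx]
      have : (1 : ℤ) ≤ t := by exact_mod_cast ht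
      linarith
  linarith

theorem side_box {r M : ℕ} {g : List St} (hg : Chn r M g) {t a : ℕ}
    (ha : (a : ℤ) = 2 * r + 1 - dy g) (k : ℕ) :
    (0 ≤ (path (side (2 * r + 1) t a g) k).1 ∧
      (path (side (2 * r + 1) t a g) k).1 ≤ 1 + dx g + t) ∧
    (-(4 * (r : ℤ) + 1) ≤ (path (side (2 * r + 1) t a g) k).2 ∧
      (path (side (2 * r + 1) t a g) k).2 ≤ 0) := by
  obtain ⟨hB, hy, hdy, hdx⟩ := hg
  have hgx := fun k => isB_path hB k
  have hgx0 : 0 ≤ dx g := (hgx 0).1.trans (hgx 0).2.1
  rw [abs_le] at hdy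
  unfold side
  refine path_app (P := fun p => (0 ≤ p.1 ∧ p.1 ≤ 1 + dx g + t) ∧
    (-(4 * (r : ℤ) + 1) ≤ p.2 ∧ p.2 ≤ 0)) ?_ ?_ k
  · intro k
    rw [path_rep]
    have h1 : ((min k (2 * r + 1) : ℕ) : ℤ) ≤ 2 * r + 1 := by
      exact_mod_cast min_le_right k (2 * r + 1)
    have h2 : (0 : ℤ) ≤ ((min k (2 * r + 1) : ℕ) : ℤ) := Int.natCast_nonneg _
    simp only [St.x_S, St.y_S, mul_zero]
    generalize ((min k (2 * r + 1) : ℕ) : ℤ) = z at h1 h2
    refine ⟨⟨le_rfl, by positivity⟩, by linarith, by linarith⟩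
  · rw [dx_rep, dy_rep]
    simp only [St.x_S, St.y_S, mul_zero, zero_add, Nat.cast_add, Nat.cast_mul, Nat.cast_ofNat,
      Nat.cast_one]
    intro k
    refine path_app (P := fun p => (0 ≤ p.1 ∧ p.1 ≤ 1 + dx g + t) ∧
      (-(4 * (r : ℤ) + 1) ≤ (2 * (r : ℤ) + 1) * -1 + p.2 ∧
        (2 * (r : ℤ) + 1) * -1 + p.2 ≤ 0)) ?_ ?_ k
    · intro k
      refine path_app (P := fun p => (0 ≤ p.1 ∧ p.1 ≤ 1 + dx g + t) ∧
        (-(4 * (r : ℤ) + 1) ≤ (2 * (r : ℤ) + 1) * -1 + p.2 ∧
          (2 * (r : ℤ) + 1) * -1 + p.2 ≤ 0)) ?_ ?_ k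
      · intro k
        refine path_app (P := fun p => (0 ≤ p.1 ∧ p.1 ≤ 1 + dx g + t) ∧
          (-(4 * (r : ℤ) + 1) ≤ (2 * (r : ℤ) + 1) * -1 + p.2 ∧
            (2 * (r : ℤ) + 1) * -1 + p.2 ≤ 0)) ?_ ?_ k
        · intro k
          have h0 : path [St.E] k = ((min k 1 : ℕ) * St.E.x, (min k 1 : ℕ) * St.E.y) :=
            path_rep 1 St.E k
          rw [h0]
          have h1 : ((min k 1 : ℕ) : ℤ) ≤ 1 := by exact_mod_cast min_le_right k 1
          have h2 : (0 : ℤ) ≤ ((min k 1 : ℕ) : ℤ) := Int.natCast_nonneg _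
          simp only [St.x_E, St.y_E, mul_zero, mul_one]
          generalize ((min k 1 : ℕ) : ℤ) = z at h1 h2
          have h3 : (0 : ℤ) ≤ t := Int.natCast_nonneg _
          have h4 : (0 : ℤ) ≤ r := Int.natCast_nonneg _
          refine ⟨⟨h2, by linarith⟩, by linarith, by linarith⟩
        · intro k
          have h1 := hgx k
          have h2 := hy k
          rw [abs_le] at h2
          simp only [dx_cons, dx_nil, dy_cons, dy_nil, St.x_E, St.y_E, add_zero, zero_add]
          have h3 : (0 : ℤ) ≤ t := Int.natCast_nonneg _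
          refine ⟨⟨by linarith [h1.1], by linarith [h1.2.1]⟩, by linarith [h2.1], by linarith [h2.2]⟩
      · intro k
        rw [path_rep]
        have h1 : ((min k t : ℕ) : ℤ) ≤ t := by exact_mod_cast min_le_right k t
        have h2 : (0 : ℤ) ≤ ((min k t : ℕ) : ℤ) := Int.natCast_nonneg _
        simp only [dx_append, dy_append, dx_cons, dx_nil, dy_cons, dy_nil, St.x_E, St.y_E, add_zero,
          zero_add, mul_one, mul_zero]
        generalize ((min k t : ℕ) : ℤ) = z at h1 h2
        have h4 : (0 : ℤ) ≤ r := Int.natCast_nonneg _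
        refine ⟨⟨by linarith, by linarith⟩, by linarith [hdy.1], by linarith [hdy.2]⟩
    · intro k
      rw [path_rep]
      have h1 : ((min k a : ℕ) : ℤ) ≤ a := by exact_mod_cast min_le_right k a
      have h2 : (0 : ℤ) ≤ ((min k a : ℕ) : ℤ) := Int.natCast_nonneg _
      simp only [dx_append, dy_append, dx_rep, dy_rep, dx_cons, dx_nil, dy_cons, dy_nil, St.x_E,
        St.y_E, St.x_N, St.y_N, add_zero, zero_add, mul_one, mul_zero]
      generalize ((min k a : ℕ) : ℤ) = z at h1 h2
      have h3 : (0 : ℤ) ≤ t := Int.natCast_nonneg _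
      refine ⟨⟨by linarith, by linarith⟩, by linarith [hdy.1], by linarith [hdy.2]⟩

/-- the chains with given displacement -/
theorem fiber_le {N r M m : ℕ} (hm : N * M + 5 * r + 4 ≤ m) {X Y : ℤ}
    (hne : ∃ g ∈ fs (Chn r M) (N * M), dx g = X ∧ dy g = Y) :
    ∃ x : ℤ, 1 ≤ x ∧ x ≤ M * r + r + (m - N * M) ∧
      ((fs (Chn r M) (N * M)).filter (fun g => (dx g, dy g) = (X, Y))).card ≤
        sl m (4 * r + 1) x := by
  obtain ⟨g0, hg0, hX, hY⟩ := hne
  rw [mem_fs] at hg0
  have hc := hg0.1
  have hX0 : 0 ≤ X := by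
    have := isB_path hc.1 0
    rw [← hX]; exact this.1.trans this.2.1
  have hX1 : X ≤ M * r := by rw [← hX]; exact hc.2.2.2
  have hY1 := hc.2.2.1
  rw [hY, abs_le] at hY1
  have hm' : (N : ℤ) * M + 5 * r + 4 ≤ m := by exact_mod_cast hm
  obtain ⟨t, ht⟩ : ∃ t : ℕ, (t : ℤ) = m - 2 * (2 * r + 1) - 1 - N * M + Y :=
    ⟨(m - 2 * (2 * r + 1) - 1 - N * M + Y : ℤ).toNat, Int.toNat_of_nonneg (by linarith [hY1.1])⟩
  obtain ⟨a, ha⟩ : ∃ a : ℕ, (a : ℤ) = 2 * r + 1 - Y :=
    ⟨(2 * r + 1 - Y : ℤ).toNat, Int.toNat_of_nonneg (by linarith [hY1.2])⟩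
  have ht1 : (1 : ℤ) ≤ t := by rw [ht]; linarith [hY1.1]
  have hr : (0 : ℤ) ≤ r := Int.natCast_nonneg _
  refine ⟨1 + X + t, by linarith, by rw [ht]; linarith [hY1.2], ?_⟩
  unfold sl
  refine Finset.card_le_card_of_injOn (side (2 * r + 1) t a) ?_ ?_
  · intro g hg
    rw [Finset.mem_coe, Finset.mem_filter, mem_fs] at hg
    obtain ⟨⟨hg1, hgl⟩, hg2⟩ := hg
    rw [Prod.mk.injEq] at hg2
    rw [Finset.mem_coe, mem_fs]
    have hbox := side_box hg1 (t := t) (a := a) (by rw [hg2.2]; exact ha)
    refine ⟨⟨side_saw hg1.1 _ _ _ (by exact_mod_cast ht1), ?_, ?_, ?_, ?_⟩, ?_⟩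
    · rw [side_dx, hg2.1]
    · rw [side_dy, hg2.2, ha]; push_cast; ring
    · intro k
      have := (hbox k).1
      rw [hg2.1] at this
      exact this
    · intro k
      exact (hbox k).2
    · rw [side_len, hgl]
      have h1 : ((2 * r + 1 + (1 + N * M + t + a) : ℕ) : ℤ) = m := by
        push_cast
        rw [ht, ha]; ring
      exact_mod_cast h1
  · intro g _ g' _ h
    exact side_inj _ _ _ h

end SideAux

open SideAux in
theorem side : StmSide := by
  classical
  intro N r M m hN hm
  have hm' : (N : ℤ) * M + 5 * r + 4 ≤ m := by exact_mod_cast hm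
  have hr : (0 : ℤ) ≤ r := Int.natCast_nonneg _
  have hMr : (0 : ℤ) ≤ M * r := by positivity
  rcases Nat.eq_zero_or_pos (ch N r M) with h0 | h0
  · exact ⟨1, le_rfl, by linarith, by rw [h0]; exact Nat.zero_le _⟩
  · -- the classes
    let K : Finset (ℤ × ℤ) := Finset.Icc (0 : ℤ) (M * r) ×ˢ Finset.Icc (-(r : ℤ)) r
    let F : Finset (List St) := fs (Chn r M) (N * M)
    have hmaps : ∀ g ∈ F, (dx g, dy g) ∈ K := by
      intro g hg
      rw [mem_fs] at hg
      have hc := hg.1
      have h1 := isB_path hc.1 0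
      have h2 := hc.2.2.1
      rw [abs_le] at h2
      rw [Finset.mem_product, Finset.mem_Icc, Finset.mem_Icc]
      exact ⟨⟨h1.1.trans h1.2.1, hc.2.2.2⟩, h2⟩
    have hcard : F.card = ∑ p ∈ K, (F.filter (fun g => (dx g, dy g) = p)).card :=
      Finset.card_eq_sum_card_fiberwise hmaps
    have hKne : K.Nonempty := by
      refine ⟨(0, 0), ?_⟩
      rw [Finset.mem_product, Finset.mem_Icc, Finset.mem_Icc]
      exact ⟨⟨le_rfl, hMr⟩, by simpa using hr, hr⟩
    obtain ⟨p0, hp0, hmax⟩ := Finset.exists_max_image K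
      (fun p => (F.filter (fun g => (dx g, dy g) = p)).card) hKne
    have hle : F.card ≤ K.card * (F.filter (fun g => (dx g, dy g) = p0)).card := by
      rw [hcard, ← smul_eq_mul]
      exact Finset.sum_le_card_nsmul K _ _ hmax
    have hKc : K.card = (M * r + 1) * (2 * r + 1) := by
      have e1 : ((M : ℤ) * r + 1 - 0) = ((M * r + 1 : ℕ) : ℤ) := by push_cast; ring
      have e2 : ((r : ℤ) + 1 - -(r : ℤ)) = ((2 * r + 1 : ℕ) : ℤ) := by push_cast; ring
      rw [Finset.card_product, Int.card_Icc, Int.card_Icc, e1, e2, Int.toNat_natCast,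
        Int.toNat_natCast]
    have hpos : 0 < (F.filter (fun g => (dx g, dy g) = p0)).card := by
      by_contra hcon
      have h1 : (F.filter (fun g => (dx g, dy g) = p0)).card = 0 := by omega
      rw [h1, mul_zero] at hle
      have : 0 < F.card := h0
      omega
    obtain ⟨g0, hg0⟩ := Finset.card_pos.mp hpos
    rw [Finset.mem_filter] at hg0
    obtain ⟨x, hx1, hx2, hx3⟩ := fiber_le (N := N) (r := r) (M := M) (m := m) hm (X := p0.1)
      (Y := p0.2) ⟨g0, hg0.1, congrArg Prod.fst hg0.2, congrArg Prod.snd hg0.2⟩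
    refine ⟨x, hx1, hx2, ?_⟩
    rw [hKc] at hle
    exact hle.trans (Nat.mul_le_mul_left _ hx3)

end Pool.Agent.T6.H53.CP
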