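import Mathlib

/-!
Calculus lemmas for the modules VEX and VEO.
-/

set_option autoImplicit false

namespace Pool.Agent.T6.H53.CP.Vx

open Filter Topology

lemma log_sq_ge {N : ℕ} (h : 2 ≤ N) : (1 : ℝ) / 100 ≤ Real.log N ^ 2 := by
  have h1 : (0.6931471803 : ℝ) < Real.log 2 := Real.log_two_gt_d9
  have h2 : Real.log 2 ≤ Real.log N := Real.log_le_log (by norm_num) (by exact_mod_cast h)
  nlinarith

lemma core_ves {K τ X : ℝ} {N r n : ℕ} (hK : 0 ≤ K) (hN : 2 ≤ N) (hr : τ * (r : ℝ) ^ 2 ≤ 1 / 100)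
    (hX : K / N * Real.log N ^ 2 ≤ X) :
    K * (n / N * (Real.log N ^ 2 + τ * (r : ℝ) ^ 2)) ≤ n * (2 * X) := by
  have h1 := log_sq_ge hN
  have hN' : (0 : ℝ) < N := by exact_mod_cast (by omega : 0 < N)
  calc K * (n / N * (Real.log N ^ 2 + τ * (r : ℝ) ^ 2)) ≤
        K * (n / N * (Real.log N ^ 2 + Real.log N ^ 2)) := by
        gcongr
        exact hr.trans h1
    _ = n * (2 * (K / N * Real.log N ^ 2)) := by ring
    _ ≤ n * (2 * X) := by gcongr

lemma core_sml {K X : ℝ} {N r n k : ℕ} (hK : 0 ≤ K) (hN : 2 ≤ N) (hr : 10 * r ≤ k)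
    (hX : K / N * Real.log N ^ 2 ≤ X) :
    K * (n / N * (r : ℝ) ^ 2) ≤ ((k : ℝ) ^ 2 * X) * n := by
  have h1 := log_sq_ge hN
  have hN' : (0 : ℝ) < N := by exact_mod_cast (by omega : 0 < N)
  have hr' : (10 : ℝ) * r ≤ k := by exact_mod_cast hr
  have h2 : (r : ℝ) ^ 2 ≤ (k : ℝ) ^ 2 * (1 / 100) := by
    have : (0 : ℝ) ≤ r := Nat.cast_nonneg r
    nlinarith
  calc K * (n / N * (r : ℝ) ^ 2) ≤ K * (n / N * ((k : ℝ) ^ 2 * Real.log N ^ 2)) := by
        gcongr
        exact h2.trans (by gcongr)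
    _ = (k : ℝ) ^ 2 * (K / N * Real.log N ^ 2) * n := by ring
    _ ≤ ((k : ℝ) ^ 2 * X) * n := by gcongr

lemma loglog_le {δ : ℝ} (hδ : 0 < δ) : ∀ᶠ T : ℝ in atTop, Real.log (Real.log T) ≤ δ * Real.log T := by
  have h := (Real.isLittleO_log_id_atTop.comp_tendsto Real.tendsto_log_atTop).bound hδ
  filter_upwards [h, Real.tendsto_log_atTop.eventually_ge_atTop 0] with T h1 h2
  simp only [Function.comp_apply, id_eq, Real.norm_eq_abs] at h1
  rw [abs_of_nonneg h2] at h1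
  exact (le_abs_self _).trans h1

lemma ll_tendsto : Tendsto (fun T : ℝ => Real.log (Real.log T)) atTop atTop :=
  Real.tendsto_log_atTop.comp Real.tendsto_log_atTop

lemma floor_ge_half {x : ℝ} (hx : 1 ≤ x) : x / 2 ≤ (⌊x⌋₊ : ℝ) := by
  have h1 : x < ⌊x⌋₊ + 1 := Nat.lt_floor_add_one x
  have h2 : (1 : ℝ) ≤ ⌊x⌋₊ := by exact_mod_cast (Nat.one_le_floor_iff x).2 hx
  linarith

/-- the comparison for `τ → 0` -/
lemma vex_i {c : ℝ} (hc : 0 < c) : ∀ᶠ T : ℝ in atTop,
    2 * (⌊√T⌋₊ : ℝ) ^ (-(1 + c / Real.log (Real.log ⌊√T⌋₊))) ≤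
      T ^ (-(1 / 2 + c / 8 / Real.log (Real.log T))) := by
  have l2 : 0 < Real.log 2 := Real.log_pos (by norm_num)
  have hδ : 0 < 3 * c / 8 / ((2 + c) * Real.log 2) := by positivity
  filter_upwards [loglog_le hδ, ll_tendsto.eventually_ge_atTop 1,
    Real.tendsto_log_atTop.eventually_ge_atTop (2 * Real.log 2 + 4), eventually_ge_atTop 1]
    with T h1 h2 h3 h4
  set L := Real.log T with hL
  set ℓ := Real.log L with hℓ
  have hT : 0 < T := by linarith
  have hs1 : 1 ≤ √T := Real.one_le_sqrt.2 h4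
  have hs0 : 0 < √T := by linarith
  set k : ℝ := (⌊√T⌋₊ : ℝ) with hk
  have k1 : √T / 2 ≤ k := floor_ge_half hs1
  have k2 : k ≤ √T := Nat.floor_le hs0.le
  have k0 : 0 < k := lt_of_lt_of_le (by positivity) k1
  have ls : Real.log √T = L / 2 := by rw [Real.log_sqrt hT.le]
  have lk1 : L / 2 - Real.log 2 ≤ Real.log k := by
    rw [← ls, ← Real.log_div hs0.ne' (by norm_num)]
    exact Real.log_le_log (by positivity) k1
  have lk2 : Real.log k ≤ L / 2 := by
    rw [← ls]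
    exact Real.log_le_log k0 k2
  have lk3 : 2 ≤ Real.log k := by linarith
  have m1 : Real.log (Real.log k) ≤ ℓ := by
    apply Real.log_le_log (by linarith)
    linarith
  have m2 : 0 < Real.log (Real.log k) := Real.log_pos (by linarith)
  have m3 : c / ℓ ≤ c / Real.log (Real.log k) := by gcongr
  have e1 : (1 + c / ℓ) * (L / 2 - Real.log 2) ≤ (1 + c / Real.log (Real.log k)) * Real.log k := by
    have : 0 ≤ c / ℓ := by positivity
    apply mul_le_mul (by linarith) lk1 (by linarith) (by positivity)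
  have h1' : ((2 + c) * Real.log 2) * ℓ ≤ 3 * c / 8 * L := by
    have := mul_le_mul_of_nonneg_left h1 (by positivity : 0 ≤ (2 + c) * Real.log 2)
    refine this.trans (le_of_eq ?_)
    field_simp
  have hℓ0 : 0 < ℓ := by linarith
  have e2 : Real.log 2 - (1 + c / Real.log (Real.log k)) * Real.log k ≤
      -(L * (1 / 2 + c / 8 / ℓ)) := by
    have e3 : L * (1 / 2 + c / 8 / ℓ) + Real.log 2 ≤ (1 + c / ℓ) * (L / 2 - Real.log 2) := by
      have e4 : (1 + c / ℓ) * (L / 2 - Real.log 2) - (L * (1 / 2 + c / 8 / ℓ) + Real.log 2) =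
          (3 * c / 8 * L - (2 * ℓ + c) * Real.log 2) / ℓ := by
        field_simp
        ring
      have e5 : 0 ≤ (3 * c / 8 * L - (2 * ℓ + c) * Real.log 2) / ℓ := by
        apply div_nonneg _ hℓ0.le
        have : (2 * ℓ + c) * Real.log 2 ≤ ((2 + c) * Real.log 2) * ℓ := by nlinarith [mul_pos hc l2]
        linarith
      linarith
    linarith
  rw [Real.rpow_def_of_pos k0, Real.rpow_def_of_pos hT, ← hL]
  have e6 : ∀ y : ℝ, 2 * Real.exp y = Real.exp (Real.log 2 + y) := by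
    intro y
    rw [Real.exp_add, Real.exp_log (by norm_num)]
  rw [e6]
  apply Real.exp_le_exp.2
  linarith

/-- the comparison for `a → ∞` -/
lemma vex_ii {c : ℝ} (hc : 0 < c) : ∀ᶠ a : ℝ in atTop,
    ((⌊a ^ (1 + c / 4 / Real.log (Real.log a))⌋₊ : ℝ) ^ 2 *
      (⌊a ^ (1 + c / 4 / Real.log (Real.log a))⌋₊ : ℝ) ^
      (-(1 + c / Real.log (Real.log ⌊a ^ (1 + c / 4 / Real.log (Real.log a))⌋₊)))) ≤ a ∧
    (⌊a ^ (1 + c / 4 / Real.log (Real.log a))⌋₊ : ℝ) ^
      (-(1 + c / Real.log (Real.log ⌊a ^ (1 + c / 4 / Real.log (Real.log a))⌋₊))) ≤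
      a ^ (-(1 + c / 8 / Real.log (Real.log a))) := by
  have l2 : 0 < Real.log 2 := Real.log_pos (by norm_num)
  have hδ : 0 < c / 8 / Real.log 2 := by positivity
  filter_upwards [loglog_le hδ, ll_tendsto.eventually_ge_atTop (max 1 c),
    Real.tendsto_log_atTop.eventually_ge_atTop 4, eventually_ge_atTop 1]
    with a h1 h2 h3 h4
  set L := Real.log a with hL
  set ℓ := Real.log L with hℓ
  have ha : 0 < a := by linarith
  have hℓ1 : 1 ≤ ℓ := (le_max_left _ _).trans h2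
  have hℓc : c ≤ ℓ := (le_max_right _ _).trans h2
  have hℓ0 : 0 < ℓ := by linarith
  set x := a ^ (1 + c / 4 / ℓ) with hx
  have hx0 : 0 < x := Real.rpow_pos_of_pos ha _
  have hx1 : 1 ≤ x := Real.one_le_rpow h4 (by positivity)
  set k : ℝ := (⌊x⌋₊ : ℝ) with hk
  have k1 : x / 2 ≤ k := floor_ge_half hx1
  have k2 : k ≤ x := Nat.floor_le hx0.le
  have k0 : 0 < k := lt_of_lt_of_le (by positivity) k1
  have lx : Real.log x = (1 + c / 4 / ℓ) * L := Real.log_rpow ha _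
  have q0 : 0 ≤ c / 4 / ℓ := by positivity
  have q1 : c / 4 / ℓ ≤ 1 / 4 := by
    rw [div_le_iff₀ hℓ0]
    linarith
  have lk1 : (1 + c / 4 / ℓ) * L - Real.log 2 ≤ Real.log k := by
    rw [← lx, ← Real.log_div hx0.ne' (by norm_num)]
    exact Real.log_le_log (by positivity) k1
  have lk2 : Real.log k ≤ (1 + c / 4 / ℓ) * L := by
    rw [← lx]
    exact Real.log_le_log k0 k2
  have l21 : Real.log 2 < 1 := by
    have := Real.log_two_lt_d9
    linarith
  have lk3 : 3 ≤ Real.log k := by nlinarith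
  have m1 : Real.log (Real.log k) ≤ ℓ + 1 := by
    have h5 : Real.log k ≤ 2 * L := by nlinarith
    calc Real.log (Real.log k) ≤ Real.log (2 * L) := Real.log_le_log (by linarith) h5
      _ = Real.log 2 + ℓ := Real.log_mul (by norm_num) (by linarith)
      _ ≤ ℓ + 1 := by linarith
  have m2 : 0 < Real.log (Real.log k) := Real.log_pos (by linarith)
  have m3 : c / (ℓ + 1) ≤ c / Real.log (Real.log k) := by gcongr
  constructor
  · rw [← Real.rpow_natCast, ← Real.rpow_add k0]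
    rw [Real.rpow_def_of_pos k0]
    rw [← Real.log_le_log_iff (Real.exp_pos _) ha, Real.log_exp, ← hL]
    have e1 : (((2 : ℕ) : ℝ) + -(1 + c / Real.log (Real.log k))) ≤ 1 - c / (ℓ + 1) := by
      push_cast
      linarith
    have e2 : 0 ≤ 1 - c / (ℓ + 1) := by
      rw [sub_nonneg, div_le_iff₀ (by linarith)]
      linarith
    calc Real.log k * (((2 : ℕ) : ℝ) + -(1 + c / Real.log (Real.log k))) ≤
          Real.log k * (1 - c / (ℓ + 1)) := by gcongr
      _ ≤ ((1 + c / 4 / ℓ) * L) * (1 - c / (ℓ + 1)) := by gcongr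
      _ = L * ((1 + c / 4 / ℓ) * (1 - c / (ℓ + 1))) := by ring
      _ ≤ L * 1 := by
        apply mul_le_mul_of_nonneg_left _ (by linarith)
        have e3 : c / 4 / ℓ ≤ c / (ℓ + 1) := by
          rw [div_div]
          apply div_le_div_of_nonneg_left hc.le (by linarith)
          linarith
        have e4 : 0 ≤ c / (ℓ + 1) := by positivity
        nlinarith
      _ = L := mul_one L
  · rw [Real.rpow_def_of_pos k0, Real.rpow_def_of_pos ha, ← hL]
    apply Real.exp_le_exp.2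
    have e1 : Real.log k ≤ (1 + c / Real.log (Real.log k)) * Real.log k := by
      have : 0 ≤ c / Real.log (Real.log k) := by positivity
      nlinarith
    have h1' : Real.log 2 * ℓ ≤ c / 8 * L := by
      have := mul_le_mul_of_nonneg_left h1 l2.le
      refine this.trans (le_of_eq ?_)
      field_simp
    have e2 : Real.log 2 ≤ c / 8 / ℓ * L := by
      rw [div_mul_eq_mul_div, le_div_iff₀ hℓ0]
      exact h1'
    have e3 : (1 + c / 4 / ℓ) * L = L * (1 + c / 8 / ℓ) + c / 8 / ℓ * L := by ring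
    nlinarith

lemma small_i {τ : ℝ} (hτ : 0 < τ) {r : ℕ} (hr : 10 * r ≤ ⌊√τ⁻¹⌋₊) : τ * (r : ℝ) ^ 2 ≤ 1 / 100 := by
  have h1 : (10 : ℝ) * r ≤ √τ⁻¹ := by
    have h2 : ((10 * r : ℕ) : ℝ) ≤ (⌊√τ⁻¹⌋₊ : ℝ) := by exact_mod_cast hr
    push_cast at h2
    exact h2.trans (Nat.floor_le (Real.sqrt_nonneg _))
  have h3 : (10 * (r : ℝ)) ^ 2 ≤ τ⁻¹ := by
    have h4 : (√τ⁻¹) ^ 2 = τ⁻¹ := Real.sq_sqrt (inv_nonneg.2 hτ.le)
    rw [← h4]
    gcongr
  have h5 : τ * (10 * (r : ℝ)) ^ 2 ≤ 1 := by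
    calc τ * (10 * (r : ℝ)) ^ 2 ≤ τ * τ⁻¹ := by gcongr
      _ = 1 := mul_inv_cancel₀ hτ.ne'
  nlinarith

lemma sqrt_floor_tendsto : Tendsto (fun T : ℝ => ⌊√T⌋₊) atTop atTop :=
  tendsto_nat_floor_atTop.comp Real.tendsto_sqrt_atTop

lemma veo_i {s t : ℝ} (hs : 0 ≤ s) (ht : t < s / 2) : ∀ᶠ T : ℝ in atTop,
    2 * (⌊√T⌋₊ : ℝ) ^ (-s) ≤ T ^ (-t) := by
  have l2 : 0 < Real.log 2 := Real.log_pos (by norm_num)
  filter_upwards [Real.tendsto_log_atTop.eventually_ge_atTop ((1 + s) * Real.log 2 / (s / 2 - t)),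
    eventually_ge_atTop 1] with T h3 h4
  set L := Real.log T with hL
  have hT : 0 < T := by linarith
  have hs1 : 1 ≤ √T := Real.one_le_sqrt.2 h4
  have hs0 : 0 < √T := by linarith
  set k : ℝ := (⌊√T⌋₊ : ℝ) with hk
  have k1 : √T / 2 ≤ k := floor_ge_half hs1
  have k0 : 0 < k := lt_of_lt_of_le (by positivity) k1
  have ls : Real.log √T = L / 2 := by rw [Real.log_sqrt hT.le]
  have lk1 : L / 2 - Real.log 2 ≤ Real.log k := by
    rw [← ls, ← Real.log_div hs0.ne' (by norm_num)]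
    exact Real.log_le_log (by positivity) k1
  have h5 : (1 + s) * Real.log 2 ≤ L * (s / 2 - t) := (div_le_iff₀ (by linarith)).1 h3
  have h6 : s * (L / 2 - Real.log 2) ≤ s * Real.log k := by gcongr
  rw [Real.rpow_def_of_pos k0, Real.rpow_def_of_pos hT, ← hL]
  have e6 : ∀ y : ℝ, 2 * Real.exp y = Real.exp (Real.log 2 + y) := by
    intro y
    rw [Real.exp_add, Real.exp_log (by norm_num)]
  rw [e6]
  apply Real.exp_le_exp.2
  nlinarith

lemma veo_ii {s t : ℝ} (hs : 0 < s) (hs2 : s < 2) (ht : t < s / (2 - s)) : ∀ᶠ a : ℝ in atTop,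
    ((⌊a ^ (1 / (2 - s))⌋₊ : ℝ) ^ 2 * (⌊a ^ (1 / (2 - s))⌋₊ : ℝ) ^ (-s)) ≤ a ∧
    (⌊a ^ (1 / (2 - s))⌋₊ : ℝ) ^ (-s) ≤ a ^ (-t) := by
  have l2 : 0 < Real.log 2 := Real.log_pos (by norm_num)
  have h2s : 0 < 2 - s := by linarith
  filter_upwards [Real.tendsto_log_atTop.eventually_ge_atTop
    (s * Real.log 2 / (s / (2 - s) - t)), eventually_ge_atTop 1] with a h3 h4
  set L := Real.log a with hL
  have ha : 0 < a := by linarith
  have hL0 : 0 ≤ L := Real.log_nonneg h4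
  set x := a ^ (1 / (2 - s)) with hx
  have hx0 : 0 < x := Real.rpow_pos_of_pos ha _
  have hx1 : 1 ≤ x := Real.one_le_rpow h4 (by positivity)
  set k : ℝ := (⌊x⌋₊ : ℝ) with hk
  have k1 : x / 2 ≤ k := floor_ge_half hx1
  have k2 : k ≤ x := Nat.floor_le hx0.le
  have k0 : 0 < k := lt_of_lt_of_le (by positivity) k1
  have lx : Real.log x = 1 / (2 - s) * L := Real.log_rpow ha _
  have lk1 : 1 / (2 - s) * L - Real.log 2 ≤ Real.log k := by
    rw [← lx, ← Real.log_div hx0.ne' (by norm_num)]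
    exact Real.log_le_log (by positivity) k1
  constructor
  · rw [← Real.rpow_natCast, ← Real.rpow_add k0]
    calc k ^ (((2 : ℕ) : ℝ) + -s) ≤ x ^ (((2 : ℕ) : ℝ) + -s) := by
          apply Real.rpow_le_rpow k0.le k2
          push_cast
          linarith
      _ = a := by
        rw [hx, ← Real.rpow_mul ha.le]
        have : 1 / (2 - s) * (((2 : ℕ) : ℝ) + -s) = 1 := by
          push_cast
          field_simp
          ring
        rw [this, Real.rpow_one]
  · rw [Real.rpow_def_of_pos k0, Real.rpow_def_of_pos ha, ← hL]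
    apply Real.exp_le_exp.2
    have h5 : s * Real.log 2 ≤ L * (s / (2 - s) - t) := (div_le_iff₀ (by linarith)).1 h3
    have h6 : s * (1 / (2 - s) * L - Real.log 2) ≤ s * Real.log k := by gcongr
    have h7 : s * (1 / (2 - s) * L) = L * (s / (2 - s)) := by ring
    nlinarith

lemma veo_choice {θ ε : ℝ} (hθ : 1 / 2 < θ) (hε : 0 < ε) :
    ∃ s, 0 < s ∧ s < 1 / θ ∧ 1 / (2 * θ - 1) - ε < s / (2 - s) := by
  have h0 : 0 < θ := by linarith
  have h1 : 0 < 2 * θ - 1 := by linarith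
  have h2 : 2 - 1 / θ = (2 * θ - 1) / θ := by
    field_simp
  have h3 : 2 - 1 / θ ≠ 0 := by
    rw [h2]
    positivity
  have h4 : (1 / θ) / (2 - 1 / θ) = 1 / (2 * θ - 1) := by
    rw [h2]
    field_simp
  have h5 : Tendsto (fun s : ℝ => s / (2 - s)) (𝓝[<] (1 / θ)) (𝓝 (1 / (2 * θ - 1))) := by
    rw [← h4]
    apply Tendsto.mono_left _ nhdsWithin_le_nhds
    exact tendsto_id.div (tendsto_const_nhds.sub tendsto_id) h3
  have h6 : ∀ᶠ s in 𝓝[<] (1 / θ), 1 / (2 * θ - 1) - ε < s / (2 - s) :=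
    h5.eventually (lt_mem_nhds (by linarith))
  have h7 : ∀ᶠ s in 𝓝[<] (1 / θ), 0 < s ∧ s < 1 / θ := by
    exact Ioo_mem_nhdsLT (by positivity)
  obtain ⟨s, hs1, hs2⟩ := (h6.and h7).exists
  exact ⟨s, hs2.1, hs2.2, hs1⟩

lemma pow_floor_tendsto {b : ℝ} (hb : 0 < b) : Tendsto (fun a : ℝ => ⌊a ^ b⌋₊) atTop atTop :=
  tendsto_nat_floor_atTop.comp (tendsto_rpow_atTop hb)

lemma vex_floor_tendsto {c : ℝ} (hc : 0 < c) :
    Tendsto (fun a : ℝ => ⌊a ^ (1 + c / 4 / Real.log (Real.log a))⌋₊) atTop atTop := by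
  apply tendsto_nat_floor_atTop.comp
  apply tendsto_atTop_mono' _ _ tendsto_id
  filter_upwards [ll_tendsto.eventually_ge_atTop 1, eventually_ge_atTop 1] with a h1 h2
  simp only [id_eq]
  calc a = a ^ (1 : ℝ) := (Real.rpow_one a).symm
    _ ≤ a ^ (1 + c / 4 / Real.log (Real.log a)) := by
      apply Real.rpow_le_rpow_of_exponent_le h2
      have : 0 ≤ c / 4 / Real.log (Real.log a) := by positivity
      linarith

end Pool.Agent.T6.H53.CP.Vx
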