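import Pool.Agent.T6.H53.CP.Defs
import Pool.Agent.T6.H53.CP.VxCalc

/-!
Module VEX: explicit bounds for the area.
-/

set_option autoImplicit false

namespace Pool.Agent.T6.H53.CP

open Pool.Agent.TH795.EP Pool.Agent.TH795.EP2 Pool.Agent.TH795.SE2 Pool.Agent.TH262.SawL
  Pool.Agent.Y981.L2 H981 Finset Filter Topology Pool.Agent.T6.H53.WL Pool.Agent.T6.H53.AL

/-- the probability of a small area is monotone -/
lemma sml_mono {n : ℕ} (hn : 1 ≤ n) {r s : ℝ} (h : r ≤ s) : sml n r ≤ sml n s := by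
  unfold sml
  apply div_le_div_of_nonneg_right _ (Nat.cast_nonneg _)
  apply Nat.cast_le.2
  apply Set.ncard_le_ncard
  · intro f hf
    exact ⟨hf.1, hf.2.trans h⟩
  · exact (loops_finite hn).subset (fun f hf => hf.1)

/-- module VEX -/
theorem vex (h : StmVes) (hE : StmExpl) : StmVex := by
  obtain ⟨K, hK, hV⟩ := h
  obtain ⟨c, hc, hX⟩ := hE K hK
  have hK0 : 0 ≤ K := by linarith
  refine ⟨c / 8, by positivity, ?_, ?_⟩
  · have t1 : Tendsto (fun τ : ℝ => τ⁻¹) (𝓝[>] 0) atTop := tendsto_inv_nhdsGT_zero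
    filter_upwards [t1.eventually (Vx.vex_i hc), t1.eventually (Vx.sqrt_floor_tendsto.eventually hX),
      self_mem_nhdsWithin] with τ h1 h2 h3
    obtain ⟨N, r, hN, hr, hrN, hm, hx⟩ := h2
    filter_upwards [tendsto_natCast_atTop_atTop.eventually_ge_atTop (K * (N : ℝ) ^ 2)] with n hn
    have hτ : 0 < τ := h3
    refine le_trans ?_ ((hV N hN r hm hrN n hn).2 τ hτ.le)
    apply Real.exp_le_exp.2
    apply neg_le_neg
    refine (Vx.core_ves hK0 hN (Vx.small_i hτ hr) hx).trans ?_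
    apply mul_le_mul_of_nonneg_left _ (Nat.cast_nonneg n)
    refine h1.trans (le_of_eq ?_)
    rw [one_div τ, Real.rpow_neg (inv_nonneg.2 hτ.le), Real.inv_rpow hτ.le, inv_inv]
  · filter_upwards [Vx.vex_ii hc, (Vx.vex_floor_tendsto hc).eventually hX, eventually_ge_atTop 1]
      with a h1 h2 h3
    obtain ⟨N, r, hN, hr, hrN, hm, hx⟩ := h2
    filter_upwards [tendsto_natCast_atTop_atTop.eventually_ge_atTop (K * (N : ℝ) ^ 2),
      eventually_ge_atTop 1] with n hn hn1
    refine le_trans ?_ (((hV N hN r hm hrN n hn).1).trans (sml_mono hn1 ?_))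
    · apply Real.exp_le_exp.2
      apply neg_le_neg
      have h4 := hx.trans h1.2
      calc K * (n / N * Real.log N ^ 2) = n * (K / N * Real.log N ^ 2) := by ring
        _ ≤ n * a ^ (-(1 + c / 8 / Real.log (Real.log a))) :=
          mul_le_mul_of_nonneg_left h4 (Nat.cast_nonneg n)
    · refine (Vx.core_sml hK0 hN hr hx).trans ?_
      exact mul_le_mul_of_nonneg_right h1.1 (Nat.cast_nonneg n)

end Pool.Agent.T6.H53.CP
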