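import Pool.Agent.T6.H53.CP.Defs
import Pool.Agent.T6.H53.CP.Vex

/-!
Module VEO: the area if the correlation length has an exponent.
-/

set_option autoImplicit false

namespace Pool.Agent.T6.H53.CP

open Pool.Agent.TH795.EP Pool.Agent.TH795.EP2 Pool.Agent.TH795.SE2 Pool.Agent.TH262.SawL
  Pool.Agent.Y981.L2 H981 Finset Filter Topology Pool.Agent.T6.H53.WL Pool.Agent.T6.H53.AL

/-- module VEO -/
theorem veo (h : StmVes) (hE : StmExpo) : StmVeo := by
  obtain ⟨K, hK, hV⟩ := h
  have hK0 : 0 ≤ K := by linarith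
  intro θ hθ hθ1 hM ε hε
  refine ⟨?_, ?_⟩
  · have hm : 0 < min ε (1 / θ) := lt_min hε (by positivity)
    have hX := hE K θ hK hθ hθ1 hM (min ε (1 / θ)) hm
    have hs : 0 ≤ 1 / θ - min ε (1 / θ) := sub_nonneg.2 (min_le_right _ _)
    have ht : 1 / (2 * θ) - ε < (1 / θ - min ε (1 / θ)) / 2 := by
      have h1 : 1 / (2 * θ) = 1 / θ / 2 := by
        field_simp
      have h2 := min_le_left ε (1 / θ)
      rw [h1]
      linarith
    have t1 : Tendsto (fun τ : ℝ => τ⁻¹) (𝓝[>] 0) atTop := tendsto_inv_nhdsGT_zero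
    filter_upwards [t1.eventually (Vx.veo_i hs ht),
      t1.eventually (Vx.sqrt_floor_tendsto.eventually hX), self_mem_nhdsWithin] with τ h1 h2 h3
    obtain ⟨N, r, hN, hr, hrN, hm, hx⟩ := h2
    filter_upwards [tendsto_natCast_atTop_atTop.eventually_ge_atTop (K * (N : ℝ) ^ 2)] with n hn
    have hτ : 0 < τ := h3
    refine le_trans ?_ ((hV N hN r hm hrN n hn).2 τ hτ.le)
    apply Real.exp_le_exp.2
    apply neg_le_neg
    refine (Vx.core_ves hK0 hN (Vx.small_i hτ hr) hx).trans ?_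
    apply mul_le_mul_of_nonneg_left _ (Nat.cast_nonneg n)
    refine h1.trans (le_of_eq ?_)
    rw [Real.rpow_neg (inv_nonneg.2 hτ.le), Real.inv_rpow hτ.le, inv_inv]
  · intro hθ2
    obtain ⟨s, hs0, hs1, hs2⟩ := Vx.veo_choice hθ2 hε
    have hX := hE K θ hK hθ hθ1 hM (1 / θ - s) (by linarith)
    have hs3 : s < 2 := by
      refine hs1.trans ?_
      rw [div_lt_iff₀ hθ]
      linarith
    have h2s : 0 < 2 - s := by linarith
    have e0 : 1 / θ - (1 / θ - s) = s := by ring
    rw [e0] at hX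
    filter_upwards [Vx.veo_ii hs0 hs3 hs2,
      (Vx.pow_floor_tendsto (b := 1 / (2 - s)) (by positivity)).eventually hX] with a h1 h2
    obtain ⟨N, r, hN, hr, hrN, hm, hx⟩ := h2
    filter_upwards [tendsto_natCast_atTop_atTop.eventually_ge_atTop (K * (N : ℝ) ^ 2),
      eventually_ge_atTop 1] with n hn hn1
    refine le_trans ?_ (((hV N hN r hm hrN n hn).1).trans (sml_mono hn1 ?_))
    · apply Real.exp_le_exp.2
      apply neg_le_neg
      have h4 := hx.trans h1.2
      calc K * (n / N * Real.log N ^ 2) = n * (K / N * Real.log N ^ 2) := by ring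
        _ ≤ n * a ^ (-(1 / (2 * θ - 1) - ε)) :=
          mul_le_mul_of_nonneg_left h4 (Nat.cast_nonneg n)
    · refine (Vx.core_sml hK0 hN hr hx).trans ?_
      exact mul_le_mul_of_nonneg_right h1.1 (Nat.cast_nonneg n)

end Pool.Agent.T6.H53.CP
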