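import Pool.Agent.T6.H53.CP.Defs

/-!
Confined planar self-avoiding polygons, module VES: the area of the polygons in narrow boxes.
-/

set_option autoImplicit false

namespace Pool.Agent.T6.H53.CP

open Pool.Agent.TH795.EP Pool.Agent.TH795.EP2 Pool.Agent.TH795.SE2 Pool.Agent.TH262.SawL
  Pool.Agent.Y981.L2 H981 Finset Filter Topology Pool.Agent.T6.H53.WL Pool.Agent.T6.H53.AL

namespace ModVes

theorem area_bxd {n : ℕ} (hn : 1 ≤ n) {x h : ℕ} {f : ZMod (2 * n) → ℤ × ℤ}
    (hf : IsLoop (2 * n) f) (hb : Bxd (x : ℤ) (h : ℤ) f) : area (2 * n) f ≤ x * h := by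
  have : NeZero (2 * n) := ⟨by omega⟩
  refine (area_le_wh hn hf).trans (Nat.mul_le_mul ?_ ?_)
  · unfold width
    refine csSup_le ⟨_, 0, 0, rfl⟩ ?_
    rintro w ⟨i, j, rfl⟩
    have h1 := (hb i j).1
    have h2 := (hb j i).1
    omega
  · unfold width
    refine csSup_le ⟨_, 0, 0, rfl⟩ ?_
    rintro w ⟨i, j, rfl⟩
    have h1 := (hb i j).2
    have h2 := (hb j i).2
    unfold swp
    simp only
    omega

theorem sml_mono {n : ℕ} (hn : 1 ≤ n) {a b : ℝ} (h : a ≤ b) : sml n a ≤ sml n b := by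
  unfold sml
  apply div_le_div_of_nonneg_right _ (Nat.cast_nonneg _)
  have h1 : {f : ZMod (2 * n) → ℤ × ℤ | IsLoop (2 * n) f ∧ (area (2 * n) f : ℝ) ≤ a}.ncard ≤
      {f : ZMod (2 * n) → ℤ × ℤ | IsLoop (2 * n) f ∧ (area (2 * n) f : ℝ) ≤ b}.ncard := by
    apply Set.ncard_le_ncard
    · intro f hf
      exact ⟨hf.1, hf.2.trans h⟩
    · exact (loops_finite hn).subset (fun f hf => hf.1)
  exact_mod_cast h1

/-- the consequence of the existence of many polygons in a box -/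
theorem from_box {n x r : ℕ} (hn : 1 ≤ n) {A B : ℝ} (hB : (x : ℝ) * (10 * r) ≤ B)
    (h : Real.exp (-A) ≤ (bx n x (10 * r) : ℝ) / ln n) :
    Real.exp (-A) ≤ sml n B ∧ ∀ τ : ℝ, 0 ≤ τ → Real.exp (-(A + τ * B)) ≤ ves n τ := by
  classical
  have hfin := loops_finite hn
  set S : Set (ZMod (2 * n) → ℤ × ℤ) :=
    {f | IsLoop (2 * n) f ∧ Bxd (x : ℤ) (10 * r : ℤ) f} with hS
  have hSfin : S.Finite := hfin.subset (fun f hf => hf.1)
  have harea : ∀ f ∈ S, (area (2 * n) f : ℝ) ≤ B := by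
    intro f hf
    have h1 : area (2 * n) f ≤ x * (10 * r) :=
      area_bxd hn hf.1 (by push_cast; exact hf.2)
    have h2 : (area (2 * n) f : ℝ) ≤ (x : ℝ) * (10 * r) := by exact_mod_cast h1
    exact h2.trans hB
  have hbx : bx n x (10 * r) = S.ncard := rfl
  rw [hbx] at h
  constructor
  · refine h.trans ?_
    unfold sml ln
    apply div_le_div_of_nonneg_right _ (Nat.cast_nonneg _)
    have h1 : S.ncard ≤
        {f : ZMod (2 * n) → ℤ × ℤ | IsLoop (2 * n) f ∧ (area (2 * n) f : ℝ) ≤ B}.ncard := by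
      apply Set.ncard_le_ncard
      · intro f hf
        exact ⟨hf.1, harea f hf⟩
      · exact hfin.subset (fun f hf => hf.1)
    exact_mod_cast h1
  · intro τ hτ
    have e1 : Real.exp (-(A + τ * B)) = Real.exp (-A) * Real.exp (-(τ * B)) := by
      rw [← Real.exp_add]; congr 1; ring
    rw [e1]
    refine (mul_le_mul_of_nonneg_right h (Real.exp_pos _).le).trans ?_
    unfold ves ln
    rw [div_mul_eq_mul_div]
    apply div_le_div_of_nonneg_right _ (Nat.cast_nonneg _)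
    rw [finsum_mem_eq_finite_toFinset_sum _ hfin]
    have h2 : hSfin.toFinset ⊆ hfin.toFinset := by
      intro f hf
      rw [Set.Finite.mem_toFinset] at hf ⊢
      exact hf.1
    refine le_trans ?_ (Finset.sum_le_sum_of_subset_of_nonneg h2
      (fun f _ _ => (Real.exp_pos _).le))
    rw [Set.ncard_eq_toFinset_card _ hSfin, ← nsmul_eq_mul]
    refine Finset.card_nsmul_le_sum _ _ _ ?_
    intro f hf
    rw [Set.Finite.mem_toFinset] at hf
    apply Real.exp_le_exp.2
    have := mul_le_mul_of_nonneg_left (harea f hf) hτ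
    linarith

/-- for large `N` the radius can be chosen to be at most `K N` -/
theorem good {K : ℝ} (hK : 1 ≤ K) : ∀ᶠ N : ℕ in atTop,
    K * Real.log N ^ 2 ≤ (⌊K * N⌋₊ : ℝ) * mass (1 / (N : ℝ)) := by
  obtain ⟨c, hc, hm⟩ := Y981.L2X.le_mass
  have hm' := ev_inv hm
  have hlog : Tendsto (fun N : ℕ => Real.log (N : ℝ)) atTop atTop :=
    Real.tendsto_log_atTop.comp tendsto_natCast_atTop_atTop
  have h1 : ∀ᶠ x : ℝ in atTop, Real.log x ^ 2 ≤ c / 4 * x := by
    have h2 := (Real.isLittleO_pow_log_id_atTop (n := 2)).bound (show (0 : ℝ) < c / 4 by positivity)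
    filter_upwards [h2, eventually_ge_atTop (0 : ℝ)] with x hx hx0
    rw [Real.norm_eq_abs, Real.norm_eq_abs, abs_of_nonneg (sq_nonneg _), id, abs_of_nonneg hx0]
      at hx
    exact hx
  filter_upwards [hm', hlog.eventually h1, hlog.eventually_ge_atTop 3, eventually_ge_atTop 2]
    with N hN hl hL hN2
  have hN0 : (0 : ℝ) < N := by
    have : 0 < N := by omega
    exact_mod_cast this
  have hN2' : (2 : ℝ) ≤ N := by exact_mod_cast hN2
  set L := Real.log (N : ℝ) with hLdef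
  have hl0 : 0 < Real.log L := Real.log_pos (by linarith)
  -- the lower bound for the mass
  have h3 : 1 / (N : ℝ) * L ^ 4 ≤ mass (1 / (N : ℝ)) := by
    refine le_trans ?_ hN
    have e1 : Real.log (1 / (1 / (N : ℝ))) = L := by rw [one_div_one_div]
    rw [e1, Real.rpow_def_of_pos (by positivity)]
    have e2 : Real.log (1 / (N : ℝ)) = -L := by rw [one_div, Real.log_inv]
    rw [e2]
    have e3 : 1 / (N : ℝ) = Real.exp (-L) := by
      rw [Real.exp_neg, Real.exp_log hN0, one_div]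
    have e4 : L ^ 4 = Real.exp (4 * Real.log L) := by
      rw [show (4 : ℝ) * Real.log L = ((4 : ℕ) : ℝ) * Real.log L by norm_num, Real.exp_nat_mul,
        Real.exp_log (by linarith)]
    rw [e3, e4, ← Real.exp_add]
    apply Real.exp_le_exp.2
    have h5 : 4 * Real.log L ≤ c * L / Real.log L := by
      rw [le_div_iff₀ hl0]
      nlinarith
    have h6 : -L * (1 - c / Real.log L) = -L + c * L / Real.log L := by ring
    rw [h6]
    linarith
  have h7 : K * N / 2 ≤ (⌊K * N⌋₊ : ℝ) := by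
    have h8 : K * N < ⌊K * (N : ℝ)⌋₊ + 1 := Nat.lt_floor_add_one _
    have h9 : 2 ≤ K * N := by nlinarith
    linarith
  have h10 : (0 : ℝ) ≤ K * N / 2 := by positivity
  calc K * L ^ 2 ≤ K * L ^ 2 * (L ^ 2 / 2) := by
        have : 1 ≤ L ^ 2 / 2 := by nlinarith
        have h11 : 0 ≤ K * L ^ 2 := by positivity
        nlinarith
    _ = (K * N / 2) * (1 / (N : ℝ) * L ^ 4) := by field_simp
    _ ≤ (⌊K * N⌋₊ : ℝ) * mass (1 / (N : ℝ)) :=
        mul_le_mul h7 h3 (by positivity) (Nat.cast_nonneg _)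

end ModVes

open ModVes

theorem ves1 (hB : StmBox) : StmVes := by
  obtain ⟨K0, hK0, hbox⟩ := hB
  obtain ⟨N1, hN1⟩ := eventually_atTop.1 (good hK0)
  set Ns : ℕ := max N1 2 with hNs
  have hNs2 : 2 ≤ Ns := le_max_right _ _
  set rs : ℕ := ⌊K0 * Ns⌋₊ with hrs
  have hNs0 : (0 : ℝ) < Ns := by
    have : 0 < Ns := by omega
    exact_mod_cast this
  have hNs2' : (2 : ℝ) ≤ Ns := by exact_mod_cast hNs2
  have hK0' : 0 < K0 := by linarith
  have hrs1 : (rs : ℝ) ≤ K0 * Ns := Nat.floor_le (by positivity)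
  have hl2 : 0 < Real.log 2 := Real.log_pos (by norm_num)
  have hlNs : 0 ≤ Real.log Ns := Real.log_nonneg (by linarith)
  -- the constant
  set K : ℝ := 10 * K0 + 10 * K0 * (rs : ℝ) ^ 2 + K0 * (Ns : ℝ) ^ 2 +
    K0 * Real.log Ns ^ 2 / Real.log 2 ^ 2 with hK
  have t1 : 0 ≤ 10 * K0 * (rs : ℝ) ^ 2 := by positivity
  have t2 : 0 ≤ K0 * (Ns : ℝ) ^ 2 := by positivity
  have t3 : 0 ≤ K0 * Real.log Ns ^ 2 / Real.log 2 ^ 2 := by positivity
  have hKpos : 0 < K := by linarith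
  refine ⟨K, by linarith, fun N hN r hr hrK n hn => ?_⟩
  have hN0 : (0 : ℝ) < N := by
    have : 0 < N := by omega
    exact_mod_cast this
  have hN2' : (2 : ℝ) ≤ N := by exact_mod_cast hN
  have hlN : Real.log 2 ≤ Real.log N := Real.log_le_log (by norm_num) hN2'
  have hlN0 : 0 < Real.log N := by linarith
  have hn0 : (1 : ℝ) ≤ n := by
    have : K * (N : ℝ) ^ 2 ≥ 1 := by nlinarith
    linarith
  have hn1 : 1 ≤ n := by exact_mod_cast hn0
  have hm : 0 < mass (1 / (N : ℝ)) := mass_pos (by positivity)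
  have hr1 : (1 : ℝ) ≤ r := by
    have h1 : 0 < (r : ℝ) * mass (1 / (N : ℝ)) := lt_of_lt_of_le (by positivity) hr
    have h2 : (0 : ℝ) < r := by
      by_contra hcon
      push Not at hcon
      nlinarith
    have h3 : 0 < r := by exact_mod_cast h2
    exact_mod_cast h3
  -- conclusion from a box
  have final : ∀ M r' : ℕ, 2 ≤ M → K0 * Real.log M ^ 2 ≤ r' * mass (1 / (M : ℝ)) →
      (r' : ℝ) ≤ K0 * M → K0 * (M : ℝ) ^ 2 ≤ n →
      K0 * (n / M * Real.log M ^ 2) ≤ K * (n / N * Real.log N ^ 2) →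
      10 * K0 * (n / M * (r' : ℝ) ^ 2) ≤ K * (n / N * (r : ℝ) ^ 2) →
      Real.exp (-(K * (n / N * Real.log N ^ 2))) ≤ sml n (K * (n / N * (r : ℝ) ^ 2)) ∧
      ∀ τ : ℝ, 0 ≤ τ →
        Real.exp (-(K * (n / N * (Real.log N ^ 2 + τ * (r : ℝ) ^ 2)))) ≤ ves n τ := by
    intro M r' hM h1 h2 h3 h4 h5
    obtain ⟨x, hx, hxe⟩ := hbox M hM r' h1 h2 n h3
    have hB' : (x : ℝ) * (10 * r') ≤ K * (n / N * (r : ℝ) ^ 2) := by
      refine le_trans ?_ h5
      calc (x : ℝ) * (10 * r') ≤ K0 * (n / M * r') * (10 * r') :=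
            mul_le_mul_of_nonneg_right hx (by positivity)
        _ = 10 * K0 * (n / M * (r' : ℝ) ^ 2) := by ring
    obtain ⟨g1, g2⟩ := from_box hn1 hB' hxe
    have g3 : Real.exp (-(K * (n / N * Real.log N ^ 2))) ≤
        Real.exp (-(K0 * (n / M * Real.log M ^ 2))) := Real.exp_le_exp.2 (by linarith)
    refine ⟨g3.trans g1, fun τ hτ => le_trans ?_ (g2 τ hτ)⟩
    apply Real.exp_le_exp.2
    have : K * (n / N * (Real.log N ^ 2 + τ * (r : ℝ) ^ 2)) =
        K * (n / N * Real.log N ^ 2) + τ * (K * (n / N * (r : ℝ) ^ 2)) := by ring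
    rw [this]
    linarith
  by_cases hNN : N1 ≤ N
  · -- large `N`
    have hgood := hN1 N hNN
    set r' : ℕ := min r ⌊K0 * N⌋₊ with hr'
    have hr'r : (r' : ℝ) ≤ r := by exact_mod_cast min_le_left _ _
    have hr'K : (r' : ℝ) ≤ K0 * N := by
      have h1 : (r' : ℝ) ≤ (⌊K0 * N⌋₊ : ℝ) := by exact_mod_cast min_le_right _ _
      exact h1.trans (Nat.floor_le (by positivity))
    refine final N r' hN ?_ hr'K ?_ ?_ ?_
    · rcases min_choice r ⌊K0 * (N : ℝ)⌋₊ with h | h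
      · rw [hr', h]
        refine le_trans ?_ hr
        exact mul_le_mul_of_nonneg_right (by linarith) (sq_nonneg _)
      · rw [hr', h]
        exact hgood
    · refine le_trans ?_ hn
      exact mul_le_mul_of_nonneg_right (by linarith) (sq_nonneg _)
    · exact mul_le_mul_of_nonneg_right (by linarith) (by positivity)
    · have h1 : (r' : ℝ) ^ 2 ≤ (r : ℝ) ^ 2 := pow_le_pow_left₀ (Nat.cast_nonneg _) hr'r 2
      have h2 : (n : ℝ) / N * (r' : ℝ) ^ 2 ≤ n / N * (r : ℝ) ^ 2 :=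
        mul_le_mul_of_nonneg_left h1 (by positivity)
      exact mul_le_mul (by linarith) h2 (by positivity) hKpos.le
  · -- small `N`
    push Not at hNN
    have hNNs : (N : ℝ) ≤ Ns := by
      have : N ≤ Ns := hNN.le.trans (le_max_left _ _)
      exact_mod_cast this
    have hdiv : (n : ℝ) / Ns ≤ n / N := div_le_div_of_nonneg_left (by linarith) hN0 hNNs
    refine final Ns rs hNs2 (hN1 Ns (le_max_left _ _)) hrs1 ?_ ?_ ?_
    · refine le_trans ?_ hn
      have h1 : (1 : ℝ) ≤ (N : ℝ) ^ 2 := by nlinarith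
      calc K0 * (Ns : ℝ) ^ 2 ≤ K := by linarith
        _ = K * 1 := (mul_one _).symm
        _ ≤ K * (N : ℝ) ^ 2 := mul_le_mul_of_nonneg_left h1 hKpos.le
    · have h1 : K0 * Real.log Ns ^ 2 / Real.log 2 ^ 2 * Real.log 2 ^ 2 = K0 * Real.log Ns ^ 2 := by
        field_simp
      have h2 : Real.log 2 ^ 2 ≤ Real.log N ^ 2 := pow_le_pow_left₀ hl2.le hlN 2
      have h3 : K0 * Real.log Ns ^ 2 ≤ K * Real.log N ^ 2 := by
        rw [← h1]
        exact mul_le_mul (by linarith) h2 (by positivity) hKpos.le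
      calc K0 * (n / Ns * Real.log Ns ^ 2) = n / Ns * (K0 * Real.log Ns ^ 2) := by ring
        _ ≤ n / N * (K * Real.log N ^ 2) := mul_le_mul hdiv h3 (by positivity) (by positivity)
        _ = K * (n / N * Real.log N ^ 2) := by ring
    · have h2 : (1 : ℝ) ≤ (r : ℝ) ^ 2 := by nlinarith
      have h3 : 10 * K0 * (rs : ℝ) ^ 2 ≤ K * (r : ℝ) ^ 2 := by
        calc 10 * K0 * (rs : ℝ) ^ 2 ≤ K := by linarith
          _ = K * 1 := (mul_one _).symm
          _ ≤ K * (r : ℝ) ^ 2 := mul_le_mul_of_nonneg_left h2 hKpos.le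
      calc 10 * K0 * (n / Ns * (rs : ℝ) ^ 2) = n / Ns * (10 * K0 * (rs : ℝ) ^ 2) := by ring
        _ ≤ n / N * (K * (r : ℝ) ^ 2) := mul_le_mul hdiv h3 (by positivity) (by positivity)
        _ = K * (n / N * (r : ℝ) ^ 2) := by ring

end Pool.Agent.T6.H53.CP
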