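import Pool.Agent.T6.H53.CP.Defs

/-!
Confined planar self-avoiding polygons: assembly of the lower bound.
-/

set_option autoImplicit false

namespace Pool.Agent.T6.H53.CP

open Pool.Agent.TH795.EP Pool.Agent.TH795.EP2 Pool.Agent.TH795.SE2 Pool.Agent.TH262.SawL
  Pool.Agent.Y981.L2 H981 Finset Filter Topology Pool.Agent.T6.H53.WL Pool.Agent.T6.H53.AL

namespace Asm

theorem log_sq_le {n N : ℕ} (hN : 1 ≤ N) (h : (N : ℝ) ^ 2 ≤ n) :
    Real.log n ^ 2 ≤ 16 * (n / N) := by
  have hN1 : (1 : ℝ) ≤ N := by exact_mod_cast hN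
  have hn1 : (1 : ℝ) ≤ n := by nlinarith
  have h0 : (0 : ℝ) ≤ n := by linarith
  have h1 : Real.log n ≤ (n : ℝ) ^ (1 / 4 : ℝ) / (1 / 4) := Real.log_le_rpow_div h0 (by norm_num)
  have h2 : 0 ≤ Real.log n := Real.log_nonneg hn1
  have h3 : Real.log n ^ 2 ≤ 16 * (n : ℝ) ^ (1 / 2 : ℝ) := by
    have h4 : ((n : ℝ) ^ (1 / 4 : ℝ)) ^ 2 = (n : ℝ) ^ (1 / 2 : ℝ) := by
      rw [← Real.rpow_natCast, ← Real.rpow_mul h0]
      norm_num
    calc Real.log n ^ 2 ≤ ((n : ℝ) ^ (1 / 4 : ℝ) / (1 / 4)) ^ 2 := pow_le_pow_left₀ h2 h1 2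
      _ = 16 * ((n : ℝ) ^ (1 / 4 : ℝ)) ^ 2 := by ring
      _ = _ := by rw [h4]
  have h5 : (n : ℝ) ^ (1 / 2 : ℝ) = Real.sqrt n := (Real.sqrt_eq_rpow _).symm
  have h6 : (N : ℝ) ≤ Real.sqrt n := Real.le_sqrt_of_sq_le h
  have h7 : Real.sqrt n ≤ n / N := by
    rw [le_div_iff₀ (by linarith)]
    calc Real.sqrt n * N ≤ Real.sqrt n * Real.sqrt n :=
          mul_le_mul_of_nonneg_left h6 (Real.sqrt_nonneg _)
      _ = n := Real.mul_self_sqrt h0
  rw [h5] at h3
  linarith

theorem bx_mono {n : ℕ} (hn : 1 ≤ n) {x h x' h' : ℤ} (hx : x ≤ x') (hh : h ≤ h') :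
    bx n x h ≤ bx n x' h' := by
  unfold bx
  apply Set.ncard_le_ncard _ ((loops_finite hn).subset fun _ hf => hf.1)
  rintro f ⟨h1, h2⟩
  exact ⟨h1, fun i j => ⟨(h2 i j).1.trans hx, (h2 i j).2.trans hh⟩⟩

/-- there is at least one polygon in a thin box -/
theorem one_le_bx (hC : StmChn) (hS : StmSide) (hL : StmLoop) {n : ℕ} (hn : 5 ≤ n) :
    ∃ x : ℤ, 1 ≤ x ∧ x ≤ n ∧ 1 ≤ bx n x 3 := by
  obtain ⟨x, h1, h2, h3⟩ := hS 1 0 0 (n - 1) le_rfl (by omega)
  have h4 := hC 1 0 0 le_rfl
  have h5 := hL (n - 1) (4 * ((0 : ℕ) : ℤ) + 1) x h1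
  have e : n - 1 + 1 = n := by omega
  rw [e] at h5
  refine ⟨x, h1, ?_, ?_⟩
  · push_cast at h2
    have : ((n - 1 : ℕ) : ℤ) = (n : ℤ) - 1 := by omega
    rw [this] at h2
    linarith
  · have h6 : 1 ≤ sl (n - 1) (4 * ((0 : ℕ) : ℤ) + 1) x := by
      rw [pow_zero] at h4
      have h7 : 1 ≤ (0 * 0 + 1) * (2 * 0 + 1) * sl (n - 1) (4 * ((0 : ℕ) : ℤ) + 1) x :=
        h4.trans h3
      simpa using h7
    have h8 : 2 * (4 * ((0 : ℕ) : ℤ) + 1) + 1 = 3 := by norm_num
    rw [h8] at h5
    exact (Nat.one_le_pow _ _ h6).trans h5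

end Asm

open Asm in
/-- **Assembly.** -/
theorem box (hB : StmBlk) (hC : StmChn) (hS : StmSide) (hL : StmLoop) : StmBox := by
  obtain ⟨K1, hK1, hb⟩ := hB
  obtain ⟨K2, hK2, hln⟩ := ln_le
  have hmu := mu_pos
  have hmu1 := one_le_mu
  set lm := Real.log mu with hlm
  have hlm0 : 0 ≤ lm := Real.log_nonneg hmu1
  have hm1 : 0 < mass 1 := mass_pos one_pos
  set K : ℝ := 100 * (1 + lm) + 16 * K1 + 80 * K2 + 10 * mass 1 + 100 with hK
  have hK100 : 100 ≤ K := by rw [hK]; linarith
  have hKK1 : K1 ≤ K := by rw [hK]; linarith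
  refine ⟨K, by linarith, ?_⟩
  intro N hN r hr hrN n hn
  have hN2 : (2 : ℝ) ≤ N := by exact_mod_cast hN
  have hN0 : (0 : ℝ) < N := by linarith
  have hlN : 0.69 ≤ Real.log N := by
    have := log_ge hN
    linarith [Real.log_two_gt_d9]
  have hlN2 : 0.47 ≤ Real.log N ^ 2 := by nlinarith
  -- `r` is at least two
  have hr2 : 2 ≤ r := by
    by_contra hcon
    have h1 : (r : ℝ) ≤ 1 := by exact_mod_cast (by omega : r ≤ 1)
    have h2 : mass (1 / (N : ℝ)) ≤ mass 1 := by
      apply mass_mono (by positivity)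
      rw [div_le_one hN0]
      linarith
    have h3 : 0 < mass (1 / (N : ℝ)) := mass_pos (by positivity)
    have h4 : (r : ℝ) * mass (1 / (N : ℝ)) ≤ mass 1 :=
      (mul_le_of_le_one_left h3.le h1).trans h2
    have h5 : K * 0.47 ≤ K * Real.log N ^ 2 := mul_le_mul_of_nonneg_left hlN2 (by linarith)
    have h6 : 10 * mass 1 ≤ K := by
      rw [hK]
      linarith
    linarith
  have hr0 : (2 : ℝ) ≤ r := by exact_mod_cast hr2
  have hNN : (4 : ℝ) ≤ (N : ℝ) ^ 2 := by nlinarith
  have hn4 : 400 ≤ (n : ℝ) := by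
    have := mul_le_mul hK100 hNN (by norm_num) (by linarith)
    linarith
  have hn5 : 400 ≤ n := by exact_mod_cast hn4
  have hn0 : (0 : ℝ) < n := by linarith
  obtain ⟨hl0, hl1⟩ := hln n (by omega)
  have hnN : K * N ≤ n / N := by
    rw [le_div_iff₀ hN0]
    calc K * N * N = K * (N : ℝ) ^ 2 := by ring
      _ ≤ n := hn
  have hnN0 : 0 < (n : ℝ) / N := by positivity
  have hNn : (N : ℝ) ^ 2 ≤ n := (le_mul_of_one_le_left (by positivity) (by linarith)).trans hn
  have hlog := log_sq_le (by omega : 1 ≤ N) hNn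
  set T : ℝ := n / N * Real.log N ^ 2 with hT
  have hT0 : 0 < T := by positivity
  have hT1 : 0.47 * (n / N) ≤ T := by
    rw [hT, mul_comm]
    exact mul_le_mul_of_nonneg_left hlN2 hnN0.le
  have hlogT : Real.log n ^ 2 ≤ 36 * T := by linarith
  rcases le_or_gt N 10 with hN10 | hN11
  · -- small `N`: one polygon is enough
    obtain ⟨x, hx1, hxn, hbx⟩ := one_le_bx hC hS hL (n := n) (by omega)
    refine ⟨x.toNat, ?_, ?_⟩
    · have e : ((x.toNat : ℕ) : ℝ) = (x : ℝ) := by
        have : ((x.toNat : ℕ) : ℤ) = x := Int.toNat_of_nonneg (by omega)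
        exact_mod_cast this
      rw [e]
      have h1 : (x : ℝ) ≤ n := by exact_mod_cast hxn
      have h2 : (N : ℝ) ≤ 10 := by exact_mod_cast hN10
      have h3 : (n : ℝ) / 10 ≤ n / N := div_le_div_of_nonneg_left hn0.le hN0 h2
      have h4 : (n : ℝ) / 10 * 2 ≤ n / N * r := mul_le_mul h3 hr0 (by norm_num) hnN0.le
      have h5 : 100 * ((n : ℝ) / N * r) ≤ K * (n / N * r) :=
        mul_le_mul_of_nonneg_right hK100 (by positivity)
      linarith
    · have e : ((x.toNat : ℕ) : ℤ) = x := Int.toNat_of_nonneg (by omega)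
      rw [e]
      have h1 : 1 ≤ bx n x (10 * r) := hbx.trans (bx_mono (by omega) le_rfl (by omega))
      have h2 : (1 : ℝ) ≤ bx n x (10 * r) := by exact_mod_cast h1
      rw [le_div_iff₀ hl0]
      refine le_trans ?_ h2
      calc Real.exp (-(K * T)) * (ln n : ℝ) ≤ Real.exp (-(K * T)) * (mu ^ (2 * n) * q n K2) :=
            mul_le_mul_of_nonneg_left hl1 (Real.exp_pos _).le
        _ = Real.exp (-(K * T) + (2 * n * lm + K2 * Real.log n ^ 2)) := by
            rw [Real.exp_add, Real.exp_add]
            congr 2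
            rw [hlm, ← Real.exp_log (pow_pos hmu (2 * n)), Real.log_pow]
            push_cast
            rfl
        _ ≤ Real.exp 0 := by
            apply Real.exp_le_exp.2
            have h3 : (N : ℝ) ≤ 10 := by exact_mod_cast hN10
            have h4 : (n : ℝ) / 10 ≤ n / N := div_le_div_of_nonneg_left hn0.le hN0 h3
            have h5 : 2 * (n : ℝ) ≤ 50 * T := by linarith
            have h6 : lm * (2 * n) ≤ lm * (50 * T) := mul_le_mul_of_nonneg_left h5 hlm0
            have h7 : K2 * Real.log n ^ 2 ≤ K2 * (36 * T) := mul_le_mul_of_nonneg_left hlogT hK2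
            have h8 : (50 * lm + 36 * K2) * T ≤ K * T := by
              apply mul_le_mul_of_nonneg_right _ hT0.le
              rw [hK]
              linarith
            linarith
        _ = 1 := Real.exp_zero
  · -- large `N`
    have hN11' : (11 : ℝ) ≤ N := by exact_mod_cast (by omega : 11 ≤ N)
    set B : ℕ := 5 * r + 5 with hBdef
    have hBr : (B : ℝ) = 5 * r + 5 := by rw [hBdef]; push_cast; ring
    have hB1 : (B : ℝ) ≤ n := by
      have h1 : 11 * (K * N) ≤ K * (N : ℝ) ^ 2 := by
        have : 11 * N ≤ (N : ℝ) ^ 2 := by nlinarith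
        calc 11 * (K * N) = K * (11 * N) := by ring
          _ ≤ K * (N : ℝ) ^ 2 := mul_le_mul_of_nonneg_left this (by linarith)
      have h2 : 100 * 11 ≤ K * N := mul_le_mul hK100 hN11' (by norm_num) (by linarith)
      linarith
    have hB2 : B ≤ n := by exact_mod_cast hB1
    set M : ℕ := (n - B) / N with hM
    have hM1 : N * M ≤ n - B := Nat.mul_div_le _ _
    have hM2 : n - B < N * (M + 1) := by
      have := Nat.lt_mul_div_succ (n - B) (by omega : 0 < N)
      rwa [← hM] at this
    obtain ⟨x, hx1, hx2, hx3⟩ := hS N r M (n - 1) (by omega) (by omega)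
    have h5 := hL (n - 1) (4 * (r : ℤ) + 1) x hx1
    have e : n - 1 + 1 = n := by omega
    rw [e] at h5
    have hMr : (N : ℝ) * M ≤ n := by
      have h : ((N * M : ℕ) : ℝ) ≤ n := by exact_mod_cast (by omega : N * M ≤ n)
      push_cast at h
      exact h
    have hMle : (M : ℝ) ≤ n / N := by
      rw [le_div_iff₀ hN0]
      linarith
    have hM3 : (n : ℝ) ≤ N * M + N + B := by
      have h : (n : ℝ) ≤ ((N * (M + 1) + B : ℕ) : ℝ) := by
        exact_mod_cast (by omega : n ≤ N * (M + 1) + B)
      push_cast at h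
      linarith
    refine ⟨x.toNat, ?_, ?_⟩
    · have e1 : ((x.toNat : ℕ) : ℝ) = (x : ℝ) := by
        have : ((x.toNat : ℕ) : ℤ) = x := Int.toNat_of_nonneg (by omega)
        exact_mod_cast this
      rw [e1]
      have h6 : (x : ℝ) ≤ M * r + r + (((n - 1 : ℕ) : ℝ) - N * M) := by exact_mod_cast hx2
      have h7 : ((n - 1 : ℕ) : ℝ) ≤ n := by exact_mod_cast Nat.sub_le n 1
      have h8 : (M : ℝ) * r ≤ n / N * r := mul_le_mul_of_nonneg_right hMle (by linarith)
      have h9 : (x : ℝ) ≤ n / N * r + 6 * r + N + 5 := by linarith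
      have h10 : (n : ℝ) / N * 2 ≤ n / N * r := mul_le_mul_of_nonneg_left hr0 hnN0.le
      have h11 : 100 * (N : ℝ) ≤ n / N :=
        (mul_le_mul_of_nonneg_right hK100 hN0.le).trans hnN
      have h12 : 1100 * (r : ℝ) ≤ n / N * r := by
        apply mul_le_mul_of_nonneg_right _ (by linarith)
        linarith
      have h13 : 100 * (n / N * (r : ℝ)) ≤ K * (n / N * r) :=
        mul_le_mul_of_nonneg_right hK100 (by positivity)
      linarith
    · have e1 : ((x.toNat : ℕ) : ℤ) = x := Int.toNat_of_nonneg (by omega)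
      rw [e1]
      have h6 : bx n x (2 * (4 * (r : ℤ) + 1) + 1) ≤ bx n x (10 * r) :=
        bx_mono (by omega) le_rfl (by omega)
      have h7 : sl (n - 1) (4 * (r : ℤ) + 1) x ^ 2 ≤ bx n x (10 * r) := h5.trans h6
      have h8 : (sl (n - 1) (4 * (r : ℤ) + 1) x : ℝ) ^ 2 ≤ bx n x (10 * r) := by
        exact_mod_cast h7
      have h9 : (ch N r M : ℝ) ≤ (M * r + 1) * (2 * r + 1) * sl (n - 1) (4 * (r : ℤ) + 1) x := by
        exact_mod_cast hx3
      have h10 : (bk N r : ℝ) ^ M ≤ ch N r M := by exact_mod_cast hC N r M (by omega)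
      have hrb : K1 * Real.log N ^ 2 ≤ r * mass (1 / (N : ℝ)) :=
        (mul_le_mul_of_nonneg_right hKK1 (by positivity)).trans hr
      have h11 : (mu ^ N * q N (-K1)) ^ M ≤ (bk N r : ℝ) ^ M :=
        pow_le_pow_left₀ (mul_nonneg (pow_nonneg hmu.le _) (q_pos _ _).le) (hb N hN r hrb) M
      -- the polynomial factor
      set P : ℝ := (M * r + 1) * (2 * r + 1) with hP
      have hP0 : 0 < P := by positivity
      have hrn : (r : ℝ) ≤ n := by
        have := Nat.cast_nonneg (α := ℝ) B
        linarith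
      have hMn : (M : ℝ) ≤ n := by
        refine hMle.trans ?_
        exact div_le_self hn0.le (by linarith)
      have hP1 : P ≤ (n : ℝ) ^ 4 := by
        have g1 : (M : ℝ) * r + 1 ≤ n * n + 1 * n := by
          have := mul_le_mul hMn hrn (by linarith) hn0.le
          linarith
        have g2 : (2 : ℝ) * r + 1 ≤ 3 * n := by linarith
        have g3 : P ≤ (n * n + 1 * n) * (3 * n) := by
          rw [hP]
          exact mul_le_mul g1 g2 (by linarith) (by positivity)
        refine g3.trans ?_
        have g4 : (n * n + 1 * n) * (3 * n) ≤ (2 * (n * n)) * (3 * (n : ℝ)) := by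
          apply mul_le_mul_of_nonneg_right _ (by linarith)
          nlinarith
        refine g4.trans ?_
        have g5 : (6 : ℝ) * (n ^ 3) ≤ n * n ^ 3 :=
          mul_le_mul_of_nonneg_right (by linarith) (by positivity)
        calc (2 * ((n : ℝ) * n)) * (3 * (n : ℝ)) = 6 * n ^ 3 := by ring
          _ ≤ n * n ^ 3 := g5
          _ = _ := by ring
      have hP2 : P ≤ Real.exp (4 * Real.log n) := by
        refine hP1.trans (le_of_eq ?_)
        rw [← Real.exp_log (pow_pos hn0 4), Real.log_pow]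
        norm_num
      have h12 : mu ^ (N * M) * Real.exp (-(K1 * M * Real.log N ^ 2)) ≤
          P * sl (n - 1) (4 * (r : ℤ) + 1) x := by
        refine le_trans (le_of_eq ?_) (h11.trans (h10.trans h9))
        rw [mul_pow, ← pow_mul]
        congr 1
        unfold q
        rw [← Real.exp_nat_mul]
        congr 1
        ring
      set s : ℝ := (sl (n - 1) (4 * (r : ℤ) + 1) x : ℝ) with hs
      have hs0 : 0 ≤ s := Nat.cast_nonneg _
      have e2 : mu ^ (N * M) * Real.exp (-(K1 * M * Real.log N ^ 2)) =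
          Real.exp (N * M * lm - K1 * M * Real.log N ^ 2) := by
        rw [sub_eq_add_neg, Real.exp_add]
        congr 1
        rw [hlm, ← Real.exp_log (pow_pos hmu (N * M)), Real.log_pow]
        push_cast
        rfl
      rw [e2] at h12
      have h13 : Real.exp (N * M * lm - K1 * M * Real.log N ^ 2 - 4 * Real.log n) ≤ s := by
        have g1 : Real.exp (N * M * lm - K1 * M * Real.log N ^ 2) ≤
            Real.exp (4 * Real.log n) * s := h12.trans (mul_le_mul_of_nonneg_right hP2 hs0)
        rw [Real.exp_sub, div_le_iff₀ (Real.exp_pos _)]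
        linarith
      have h14 : Real.exp (2 * (N * M * lm - K1 * M * Real.log N ^ 2 - 4 * Real.log n)) ≤
          bx n x (10 * r) := by
        refine le_trans (le_of_eq ?_) ((pow_le_pow_left₀ (Real.exp_pos _).le h13 2).trans h8)
        rw [← Real.exp_nat_mul]
        norm_num
      rw [le_div_iff₀ hl0]
      refine le_trans ?_ h14
      calc Real.exp (-(K * T)) * (ln n : ℝ) ≤ Real.exp (-(K * T)) * (mu ^ (2 * n) * q n K2) :=
            mul_le_mul_of_nonneg_left hl1 (Real.exp_pos _).le
        _ = Real.exp (-(K * T) + (2 * n * lm + K2 * Real.log n ^ 2)) := by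
            rw [Real.exp_add, Real.exp_add]
            congr 2
            rw [hlm, ← Real.exp_log (pow_pos hmu (2 * n)), Real.log_pow]
            push_cast
            rfl
        _ ≤ _ := by
            apply Real.exp_le_exp.2
            have hlN3 : 4 ≤ Real.log N ^ 2 := by
              have g1 : Real.log 8 ≤ Real.log N := Real.log_le_log (by norm_num) (by linarith)
              have g2 : Real.log 8 = 3 * Real.log 2 := by
                rw [show (8 : ℝ) = 2 ^ 3 by norm_num, Real.log_pow]
                norm_num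
              have g3 : 2 ≤ Real.log N := by linarith [Real.log_two_gt_d9]
              nlinarith
            have hT2 : 4 * (n / N) ≤ T := by
              rw [hT, mul_comm]
              exact mul_le_mul_of_nonneg_left hlN3 hnN0.le
            have hT3 : 4 * (K * N) ≤ T := by linarith
            -- the missing steps
            have m1 : lm * (2 * n) ≤ lm * (2 * (N * M) + 4 * T) := by
              apply mul_le_mul_of_nonneg_left _ hlm0
              have g1 : 5 * (r : ℝ) ≤ 5 * (K * N) := by linarith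
              have g2 : 100 * (N : ℝ) ≤ K * N := mul_le_mul_of_nonneg_right hK100 hN0.le
              linarith
            have m2 : K1 * M * Real.log N ^ 2 ≤ K1 * T := by
              rw [hT, mul_assoc]
              apply mul_le_mul_of_nonneg_left _ (by linarith)
              exact mul_le_mul_of_nonneg_right hMle (by positivity)
            have m3 : K2 * Real.log n ^ 2 ≤ K2 * (36 * T) := mul_le_mul_of_nonneg_left hlogT hK2
            have m4 : 8 * Real.log n ≤ 8 * Real.log n ^ 2 := by
              have g1 : 1 ≤ Real.log n := by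
                have g3 : Real.log 8 ≤ Real.log n := Real.log_le_log (by norm_num) (by linarith)
                have g2 : Real.log 8 = 3 * Real.log 2 := by
                  rw [show (8 : ℝ) = 2 ^ 3 by norm_num, Real.log_pow]
                  norm_num
                linarith [Real.log_two_gt_d9]
              have g4 : Real.log n * 1 ≤ Real.log n * Real.log n :=
                mul_le_mul_of_nonneg_left g1 (by linarith)
              linarith [sq (Real.log n)]
            have m5 : 16 * (n / N) ≤ 4 * T := by linarith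
            have m6 : 8 * Real.log n ≤ 32 * T := by linarith
            have m7 : (4 * lm + 2 * K1 + 36 * K2 + 32) * T ≤ K * T := by
              apply mul_le_mul_of_nonneg_right _ hT0.le
              rw [hK]
              linarith
            linarith

end Pool.Agent.T6.H53.CP
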