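import Pool.Agent.T6.H53.CP.Defs2
import Pool.Agent.T6.H53.CP.Asm

/-!
Planar self-avoiding polygons in boxes: assembly of the lower bound.
-/

set_option autoImplicit false

namespace Pool.Agent.T6.H53.CP

open Pool.Agent.TH795.EP Pool.Agent.TH795.EP2 Pool.Agent.TH795.SE2 Pool.Agent.TH262.SawL
  Pool.Agent.Y981.L2 H981 Finset Filter Topology Pool.Agent.T6.H53.WL Pool.Agent.T6.H53.AL

namespace Bxs

/-- the count, from the blocks to the polygons -/
theorem count (hC : StmChn) (hS : StmSide) (hK : StmSnk) (hL : StmCls) {N r M m k t : ℕ}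
    (hN : 1 ≤ N) (hk : 1 ≤ k) (hm : N * M + 5 * r + 4 ≤ m) : ∃ x : ℕ,
      x ≤ M * r + r + (m - N * M) ∧
      (bk N r ^ M) ^ (2 * k) ≤ ((M * r + 1) * (2 * r + 1)) ^ (2 * k) *
        bx (k * m + (2 * k - 1) * (4 * r + 3) + 2 + t) (x + 3) (2 * k * (4 * r + 2) + t) := by
  obtain ⟨x, hx1, hx2, hx3⟩ := hS N r M m hN hm
  obtain ⟨y, rfl⟩ : ∃ y : ℕ, x = y := ⟨x.toNat, (Int.toNat_of_nonneg (by omega)).symm⟩
  refine ⟨y, ?_, ?_⟩
  · have h1 : ((N * M : ℕ) : ℤ) ≤ m := by exact_mod_cast (by omega : N * M ≤ m)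
    have h2 : ((m - N * M : ℕ) : ℤ) = (m : ℤ) - (N * M : ℕ) := by
      rw [Nat.cast_sub (by omega)]
    have h3 : (y : ℤ) ≤ ((M * r + r + (m - N * M) : ℕ) : ℤ) := by
      push_cast [h2]
      push_cast at hx2
      linarith
    exact_mod_cast h3
  · have h1 := hC N r M hN
    have h2 : (4 * (r : ℤ) + 1) = ((4 * r + 1 : ℕ) : ℤ) := by push_cast; ring
    rw [h2] at hx3
    have h3 := hK m (4 * r + 1) y k (by omega) hk
    have h4 := hL m (4 * r + 1) y k t (by omega) hk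
    have h5 : bk N r ^ M ≤ (M * r + 1) * (2 * r + 1) * sl m ((4 * r + 1 : ℕ) : ℤ) y :=
      h1.trans hx3
    have h6 := Nat.pow_le_pow_left h5 (2 * k)
    rw [mul_pow] at h6
    refine h6.trans (Nat.mul_le_mul_left _ (h3.trans (h4.trans (le_of_eq ?_))))
    push_cast
    congr 1

/-- the polynomial factor -/
theorem poly {M r : ℝ} (hM : 2 ≤ M) (hr : 0 ≤ r) (hrM : r ≤ M) :
    (M * r + 1) * (2 * r + 1) ≤ Real.exp (5 * M) := by
  have hM0 : 0 < M := by linarith
  have h0 : M * r + 1 ≤ 2 * (M * M) := by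
    have := mul_le_mul_of_nonneg_left hrM hM0.le
    have h1 : 2 * 2 ≤ M * M := mul_le_mul hM hM (by norm_num) hM0.le
    linarith
  have h1 : (M * r + 1) * (2 * r + 1) ≤ (2 * (M * M)) * (3 * M) :=
    mul_le_mul h0 (by linarith) (by positivity) (by positivity)
  have h2 : M ≤ Real.exp M := by linarith [Real.add_one_le_exp M]
  have h3 : (6 : ℝ) ≤ Real.exp (2 * M) := by
    have h4 := Real.add_one_le_exp M
    have h5 : (3 : ℝ) ≤ Real.exp M := by linarith
    have h6 : Real.exp (2 * M) = Real.exp M * Real.exp M := by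
      rw [← Real.exp_add]
      congr 1
      ring
    have h7 : (3 : ℝ) * 3 ≤ Real.exp M * Real.exp M :=
      mul_le_mul h5 h5 (by norm_num) (Real.exp_pos _).le
    rw [h6]
    linarith
  calc (M * r + 1) * (2 * r + 1) ≤ (2 * (M * M)) * (3 * M) := h1
    _ = 6 * M ^ 3 := by ring
    _ ≤ Real.exp (2 * M) * Real.exp M ^ 3 :=
        mul_le_mul h3 (pow_le_pow_left₀ hM0.le h2 3) (by positivity) (Real.exp_pos _).le
    _ = Real.exp (5 * M) := by
        rw [← Real.exp_nat_mul, ← Real.exp_add]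
        congr 1
        push_cast
        ring

/-- the final comparison -/
theorem final {n k N M m r T K K1 K2 lm lN ln' : ℝ} (hk : 0 < k) (hN : 2 ≤ N) (hK1 : 1 ≤ K1)
    (hK2 : 0 ≤ K2) (hlm : 0 ≤ lm) (hK : K = 200 * (1 + lm) + 2 * K1 + 60 * K2 + 200)
    (hrN : r ≤ N) (hM : m ≤ N * M + N + 5 * r + 4) (hn : n ≤ k * m + 2 * k * (4 * r + 3) + 2 + k)
    (hk1 : 1 ≤ k) (hkN : k * N ≤ n / N) (hkM : k * M ≤ n / N) (hT : T = n / N * lN)
    (hlN : 0.47 * (n / N) ≤ T) (hlN0 : 0 ≤ lN) (hln : ln' ≤ 16 * (n / N)) (hT0 : 0 < T) :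
    -(K * T) + (2 * n * lm + K2 * ln') ≤ 2 * k * (N * M * lm - K1 * M * lN - 5 * M) := by
  have m0 : n ≤ k * (N * M) + 21 * (n / N) := by
    have h3 : k * m ≤ k * (N * M + N + 5 * r + 4) := mul_le_mul_of_nonneg_left hM hk.le
    have h4 : k * r ≤ k * N := mul_le_mul_of_nonneg_left hrN hk.le
    have h5 : k * 2 ≤ k * N := mul_le_mul_of_nonneg_left hN hk.le
    have h6 : k * (N * M + N + 5 * r + 4) = k * (N * M) + k * N + 5 * (k * r) + 4 * k := by
      ring
    have h7 : 2 * k * (4 * r + 3) = 8 * (k * r) + 6 * k := by ring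
    rw [h6] at h3
    rw [h7] at hn
    linarith
  have m1 : lm * (2 * n) ≤ lm * (2 * (k * (N * M)) + 90 * T) := by
    apply mul_le_mul_of_nonneg_left _ hlm
    linarith
  have m2 : K1 * (k * M) * lN ≤ K1 * T := by
    rw [hT, mul_assoc]
    apply mul_le_mul_of_nonneg_left _ (by linarith)
    exact mul_le_mul_of_nonneg_right hkM hlN0
  have m3 : K2 * ln' ≤ K2 * (36 * T) := mul_le_mul_of_nonneg_left (by linarith) hK2
  have m4 : 10 * (k * M) ≤ 25 * T := by linarith
  have m5 : (90 * lm + 2 * K1 + 36 * K2 + 25) * T ≤ K * T := by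
    apply mul_le_mul_of_nonneg_right _ hT0.le
    rw [hK]
    linarith
  have e5 : 2 * k * (N * M * lm - K1 * M * lN - 5 * M) =
      lm * (2 * (k * (N * M))) - 2 * (K1 * (k * M) * lN) - 10 * (k * M) := by
    ring
  have e6 : lm * (2 * (k * (N * M)) + 90 * T) = lm * (2 * (k * (N * M))) + 90 * lm * T := by ring
  have e7 : (90 * lm + 2 * K1 + 36 * K2 + 25) * T =
      90 * lm * T + 2 * (K1 * T) + K2 * (36 * T) + 25 * T := by ring
  have e8 : 2 * n * lm = lm * (2 * n) := by ring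
  rw [e5, e8]
  rw [e6] at m1
  rw [e7] at m5
  linarith

end Bxs

open Asm in
/-- **Assembly.** -/
theorem boxes (hB : StmBlk) (hC : StmChn) (hS : StmSide) (hK : StmSnk) (hL : StmCls) :
    StmBoxes := by
  obtain ⟨K1, hK1, hb⟩ := hB
  obtain ⟨K2, hK2, hln⟩ := ln_le
  have hmu := mu_pos
  have hmu1 := one_le_mu
  set lm := Real.log mu with hlm
  have hlm0 : 0 ≤ lm := Real.log_nonneg hmu1
  set K : ℝ := 200 * (1 + lm) + 2 * K1 + 60 * K2 + 200 with hKdef
  have hK200 : 200 ≤ K := by rw [hKdef]; linarith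
  have hKK1 : K1 ≤ K := by rw [hKdef]; linarith
  have hK0 : 0 < K := by linarith
  refine ⟨K, by linarith, ?_⟩
  intro N hN r hr hrN n hn L S hL1 hS1 hLS
  have hN2 : (2 : ℝ) ≤ N := by exact_mod_cast hN
  have hN0 : (0 : ℝ) < N := by linarith
  have hlN : 0.69 ≤ Real.log N := by
    have := log_ge hN
    linarith [Real.log_two_gt_d9]
  have hlN2 : 0.47 ≤ Real.log N ^ 2 := by
    have h1 : (0.69 : ℝ) * 0.69 ≤ Real.log N * Real.log N :=
      mul_le_mul hlN hlN (by norm_num) (by linarith)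
    rw [sq]
    linarith
  have hrN' : (r : ℝ) ≤ N := by exact_mod_cast hrN
  have hr1 : 1 ≤ r := by
    by_contra hcon
    have h0 : r = 0 := by omega
    rw [h0] at hr
    have : 0 < K * Real.log N ^ 2 := by positivity
    simp only [Nat.cast_zero, zero_mul] at hr
    linarith
  have hr0 : (1 : ℝ) ≤ r := by exact_mod_cast hr1
  have hrp : (0 : ℝ) < r := by linarith
  have hNr : (2 : ℝ) * 1 ≤ N * r := mul_le_mul hN2 hr0 (by norm_num) hN0.le
  have hNr1 : (N : ℝ) ≤ N * r := le_mul_of_one_le_right hN0.le hr0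
  have hNr2 : (r : ℝ) ≤ N * r := le_mul_of_one_le_left hrp.le (by linarith)
  have hLpos : (0 : ℝ) < L := by
    have : 0 < K * (N * r) := by positivity
    linarith
  have hNN : (4 : ℝ) ≤ (N : ℝ) ^ 2 := by
    have h1 : (2 : ℝ) * 2 ≤ N * N := mul_le_mul hN2 hN2 (by norm_num) hN0.le
    rw [sq]
    linarith
  have hnK : K * 4 ≤ n := (mul_le_mul_of_nonneg_left hNN hK0.le).trans hn
  have hn0 : (0 : ℝ) < n := by linarith
  have hn2 : 2 ≤ n := by
    have : (2 : ℝ) ≤ n := by linarith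
    exact_mod_cast this
  obtain ⟨hl0, hl1⟩ := hln n hn2
  have hnN0 : 0 < (n : ℝ) / N := by positivity
  have hNn : (N : ℝ) ^ 2 ≤ n := (le_mul_of_one_le_left (by positivity) (by linarith)).trans hn
  have hlog := log_sq_le (by omega : 1 ≤ N) hNn
  set T : ℝ := n / N * Real.log N ^ 2 with hT
  have hT0 : 0 < T := by positivity
  have hT1 : 0.47 * (n / N) ≤ T := by
    rw [hT, mul_comm]
    exact mul_le_mul_of_nonneg_left hlN2 hnN0.le
  -- the number of the double rows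
  obtain ⟨k, hk⟩ : ∃ k : ℕ, k = ⌈2 * (n : ℝ) * r / (N * L)⌉₊ := ⟨_, rfl⟩
  have hkp : 0 < 2 * (n : ℝ) * r / (N * L) := by positivity
  have hk1 : 1 ≤ k := by
    rw [hk]
    exact Nat.ceil_pos.2 hkp
  have hk2 : 2 * (n : ℝ) * r / (N * L) ≤ k := by rw [hk]; exact Nat.le_ceil _
  have hk3 : (k : ℝ) ≤ 2 * (n : ℝ) * r / (N * L) + 1 := by
    rw [hk]; exact (Nat.ceil_lt_add_one hkp.le).le
  have hk0 : (1 : ℝ) ≤ k := by exact_mod_cast hk1
  have hkpos : (0 : ℝ) < k := by linarith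
  -- `k` is at most `3 n / (K N ^ 2)`
  have hk4 : (k : ℝ) * (K * (N : ℝ) ^ 2) ≤ 3 * n := by
    have h1 : 2 * (n : ℝ) * r / (N * L) ≤ 2 * n / (K * (N : ℝ) ^ 2) := by
      rw [div_le_div_iff₀ (by positivity) (by positivity)]
      have h2 : 2 * (n : ℝ) * N * (K * (N * r)) ≤ 2 * n * N * L :=
        mul_le_mul_of_nonneg_left hL1 (by positivity)
      calc 2 * (n : ℝ) * r * (K * (N : ℝ) ^ 2) = 2 * n * N * (K * (N * r)) := by ring
        _ ≤ 2 * n * N * L := h2
        _ = 2 * n * (N * L) := by ring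
    have h3 : 0 < K * (N : ℝ) ^ 2 := by positivity
    calc (k : ℝ) * (K * (N : ℝ) ^ 2) ≤ (2 * n / (K * (N : ℝ) ^ 2) + 1) * (K * (N : ℝ) ^ 2) :=
          mul_le_mul_of_nonneg_right (by linarith) h3.le
      _ = 2 * n + K * (N : ℝ) ^ 2 := by field_simp
      _ ≤ 3 * n := by linarith
  -- `k r` is small
  have hkr : (k : ℝ) * r * K ≤ 2 * n := by
    have h1 : (k : ℝ) * (K * (N * r)) ≤ k * (K * (N : ℝ) ^ 2) := by
      apply mul_le_mul_of_nonneg_left _ hkpos.le
      apply mul_le_mul_of_nonneg_left _ hK0.le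
      rw [sq]
      exact mul_le_mul_of_nonneg_left hrN' hN0.le
    have h2 : (k : ℝ) * r * K * 2 ≤ k * r * K * N :=
      mul_le_mul_of_nonneg_left hN2 (by positivity)
    have h3 : (k : ℝ) * r * K * N = k * (K * (N * r)) := by ring
    linarith
  have hused : 2 * (((2 * k - 1) * (4 * r + 3) + 2 : ℕ) : ℝ) ≤ n := by
    have h1 : (((2 * k - 1) * (4 * r + 3) + 2 : ℕ) : ℝ) ≤ 2 * k * (4 * r + 3) + 2 := by
      push_cast [Nat.cast_sub (show 1 ≤ 2 * k by omega)]
      have : 0 ≤ (4 * (r : ℝ) + 3) := by positivity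
      linarith
    have h2 : (k : ℝ) ≤ k * r := le_mul_of_one_le_right hkpos.le hr0
    have h3 : (k : ℝ) * r * 200 ≤ 2 * n :=
      (mul_le_mul_of_nonneg_left hK200 (by positivity)).trans hkr
    linarith
  obtain ⟨U, hU⟩ : ∃ U : ℕ, U = (2 * k - 1) * (4 * r + 3) + 2 := ⟨_, rfl⟩
  rw [← hU] at hused
  have hUn : U ≤ n := by
    have h1 : (U : ℝ) ≤ n := by
      have : (0 : ℝ) ≤ U := Nat.cast_nonneg _
      linarith
    exact_mod_cast h1
  obtain ⟨m, hm⟩ : ∃ m : ℕ, m = (n - U) / k := ⟨_, rfl⟩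
  obtain ⟨t, ht⟩ : ∃ t : ℕ, t = (n - U) % k := ⟨_, rfl⟩
  have hmt : n = k * m + (2 * k - 1) * (4 * r + 3) + 2 + t := by
    have h1 := Nat.div_add_mod (n - U) k
    rw [← hm, ← ht] at h1
    omega
  have htk : t < k := by rw [ht]; exact Nat.mod_lt _ (by omega)
  have htk' : (t : ℝ) ≤ k := by exact_mod_cast htk.le
  -- `m` is at least `K N ^ 2 / 6 - 1`
  have hm1 : (n : ℝ) ≤ 2 * (k * (m + 1)) := by
    have h1 : (n : ℝ) = k * m + U + t := by
      have : n = k * m + U + t := by omega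
      exact_mod_cast this
    have h2 : (k : ℝ) * (m + 1) = k * m + k := by ring
    linarith
  have hm2 : K * (N : ℝ) ^ 2 ≤ 6 * (m + 1) := by
    have h1 : (k : ℝ) * (K * (N : ℝ) ^ 2) ≤ k * (6 * (m + 1)) := by
      calc (k : ℝ) * (K * (N : ℝ) ^ 2) ≤ 3 * n := hk4
        _ ≤ 3 * (2 * (k * (m + 1))) := by linarith
        _ = k * (6 * (m + 1)) := by ring
    exact le_of_mul_le_mul_left h1 hkpos
  have hm3 : (N : ℝ) * N + 6 * N + 5 ≤ m := by
    have h1 : 200 * (N : ℝ) ^ 2 ≤ K * (N : ℝ) ^ 2 :=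
      mul_le_mul_of_nonneg_right hK200 (by positivity)
    have h2 : 2 * (N : ℝ) ≤ N * N := mul_le_mul_of_nonneg_right hN2 hN0.le
    have h3 : (N : ℝ) ^ 2 = N * N := sq _
    rw [h3] at h1 hNN hm2
    linarith
  obtain ⟨M, hM⟩ : ∃ M : ℕ, M = (m - (5 * r + 4)) / N := ⟨_, rfl⟩
  have hrm : 5 * r + 4 ≤ m := by
    have h1 : (5 : ℝ) * r + 4 ≤ m := by
      have h2 : 0 ≤ (N : ℝ) * N := by positivity
      linarith
    exact_mod_cast h1
  have hM1 : N * M + 5 * r + 4 ≤ m := by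
    have : N * M ≤ m - (5 * r + 4) := by rw [hM]; exact Nat.mul_div_le _ _
    omega
  have hM2 : m < N * M + N + 5 * r + 4 := by
    have := Nat.lt_mul_div_succ (m - (5 * r + 4)) (by omega : 0 < N)
    rw [← hM] at this
    have h2 : N * (M + 1) = N * M + N := by ring
    omega
  have hM2' : (m : ℝ) ≤ N * M + N + 5 * r + 4 := by exact_mod_cast hM2.le
  have hM3 : (N : ℝ) ≤ M := by
    have h1 : (N : ℝ) * N ≤ N * M := by linarith
    exact le_of_mul_le_mul_left h1 hN0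
  have hM0 : (0 : ℝ) < M := by linarith
  have hkNM : (k : ℝ) * (N * M) ≤ n := by
    have h1 : k * (N * M) ≤ n := by
      have h2 : k * (N * M) ≤ k * m := Nat.mul_le_mul_left _ (by omega)
      omega
    exact_mod_cast h1
  have hkM : (k : ℝ) * M ≤ n / N := by
    rw [le_div_iff₀ hN0]
    linarith
  have hkN : (k : ℝ) * N ≤ n / N := by
    have : (k : ℝ) * N ≤ k * M := mul_le_mul_of_nonneg_left hM3 hkpos.le
    linarith
  -- the width of the rows
  have hMr : (M : ℝ) * r * 2 ≤ L := by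
    have h1 : 2 * (n : ℝ) * r ≤ k * (N * L) := by
      rwa [div_le_iff₀ (by positivity)] at hk2
    have h2 : 2 * ((k : ℝ) * (N * M)) * r ≤ k * (N * L) := by
      have := mul_le_mul_of_nonneg_right (mul_le_mul_of_nonneg_left hkNM (show (0:ℝ) ≤ 2 by norm_num)) hrp.le
      linarith
    have h3 : (k : ℝ) * N * ((M : ℝ) * r * 2) ≤ k * N * L := by
      calc (k : ℝ) * N * ((M : ℝ) * r * 2) = 2 * ((k : ℝ) * (N * M)) * r := by ring
        _ ≤ k * (N * L) := h2
        _ = k * N * L := by ring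
    exact le_of_mul_le_mul_left h3 (by positivity)
  obtain ⟨x, hx1, hx2⟩ := Bxs.count hC hS hK hL (N := N) (r := r) (M := M) (m := m) (k := k)
    (t := t) (by omega) hk1 hM1
  rw [← hmt] at hx2
  have hxL : x + 3 ≤ L := by
    have h1 : (x : ℝ) ≤ M * r + r + (N + 5 * r + 4) := by
      have h2 : x ≤ M * r + r + (N + 5 * r + 4) := by omega
      exact_mod_cast h2
    have h2 : 200 * ((N : ℝ) * r) ≤ L :=
      (mul_le_mul_of_nonneg_right hK200 (by positivity)).trans hL1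
    have h3 : (x : ℝ) + 3 ≤ L := by linarith
    exact_mod_cast h3
  have hyS : 2 * k * (4 * r + 2) + t ≤ S := by
    have h1 : 2 * (k : ℝ) * (4 * r + 2) + t ≤ 13 * (k * r) := by
      have h2 : (k : ℝ) ≤ k * r := le_mul_of_one_le_right hkpos.le hr0
      linarith
    have h2 : (k : ℝ) * r ≤ 2 * (n / N * (r : ℝ) ^ 2) / L + r := by
      calc (k : ℝ) * r ≤ (2 * (n : ℝ) * r / (N * L) + 1) * r :=
            mul_le_mul_of_nonneg_right hk3 hrp.le
        _ = _ := by field_simp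
    have h3 : 200 * (n / N * (r : ℝ) ^ 2 / L) ≤ S := by
      have h4 : 200 * (n / N * (r : ℝ) ^ 2) ≤ K * (n / N * (r : ℝ) ^ 2) :=
        mul_le_mul_of_nonneg_right hK200 (by positivity)
      have h5 : 200 * (n / N * (r : ℝ) ^ 2 / L) = (200 * (n / N * (r : ℝ) ^ 2)) / L := by ring
      rw [h5, div_le_iff₀ hLpos]
      linarith
    have h4 : 200 * (r : ℝ) ≤ S := (mul_le_mul_of_nonneg_right hK200 hrp.le).trans hS1
    have h5 : 2 * (n / N * (r : ℝ) ^ 2) / L = 2 * (n / N * (r : ℝ) ^ 2 / L) := by ring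
    rw [h5] at h2
    have h6 : 2 * (k : ℝ) * (4 * r + 2) + t ≤ S := by linarith
    exact_mod_cast h6
  have hbx : bx n ((x : ℤ) + 3) (2 * k * (4 * r + 2) + t) ≤ bx n L S := by
    apply bx_mono (by omega)
    · exact_mod_cast hxL
    · exact_mod_cast hyS
  set b : ℝ := (bx n L S : ℝ) with hbdef
  set P : ℝ := (M * r + 1) * (2 * r + 1) with hP
  have hP0 : 0 < P := by positivity
  have hx3 : ((bk N r : ℝ) ^ M) ^ (2 * k) ≤ P ^ (2 * k) * b := by
    have h1 : (bk N r ^ M) ^ (2 * k) ≤ ((M * r + 1) * (2 * r + 1)) ^ (2 * k) * bx n L S := by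
      refine hx2.trans (Nat.mul_le_mul_left _ ?_)
      exact hbx
    have h2 : (((bk N r ^ M) ^ (2 * k) : ℕ) : ℝ) ≤
        ((((M * r + 1) * (2 * r + 1)) ^ (2 * k) * bx n L S : ℕ) : ℝ) := by exact_mod_cast h1
    push_cast at h2
    exact h2
  have hrb : K1 * Real.log N ^ 2 ≤ r * mass (1 / (N : ℝ)) :=
    (mul_le_mul_of_nonneg_right hKK1 (by positivity)).trans hr
  have h11 : (mu ^ N * q N (-K1)) ^ M ≤ (bk N r : ℝ) ^ M :=
    pow_le_pow_left₀ (mul_nonneg (pow_nonneg hmu.le _) (q_pos _ _).le) (hb N hN r hrb) M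
  have e2 : (mu ^ N * q N (-K1)) ^ M = Real.exp (N * M * lm - K1 * M * Real.log N ^ 2) := by
    have e3 : mu ^ N = Real.exp (N * lm) := by
      rw [hlm, ← Real.exp_log (pow_pos hmu N), Real.log_pow]
    rw [e3]
    unfold q
    rw [← Real.exp_add, ← Real.exp_nat_mul]
    congr 1
    ring
  rw [e2] at h11
  have hPM : P ≤ Real.exp (5 * M) := Bxs.poly (by linarith) hrp.le (hrN'.trans hM3)
  have h12 : Real.exp (2 * k * (N * M * lm - K1 * M * Real.log N ^ 2 - 5 * M)) ≤ b := by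
    have g1 : Real.exp (2 * k * (N * M * lm - K1 * M * Real.log N ^ 2)) ≤ P ^ (2 * k) * b := by
      refine le_trans (le_of_eq ?_) ((pow_le_pow_left₀ (Real.exp_pos _).le h11 (2 * k)).trans hx3)
      rw [← Real.exp_nat_mul]
      congr 1
      push_cast
      ring
    have g2 : P ^ (2 * k) ≤ Real.exp (2 * k * (5 * M)) := by
      refine (pow_le_pow_left₀ hP0.le hPM (2 * k)).trans (le_of_eq ?_)
      rw [← Real.exp_nat_mul]
      congr 1
      push_cast
      ring
    have g3 : Real.exp (2 * k * (N * M * lm - K1 * M * Real.log N ^ 2)) ≤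
        Real.exp (2 * k * (5 * M)) * b :=
      g1.trans (mul_le_mul_of_nonneg_right g2 (Nat.cast_nonneg _))
    have g4 : 2 * (k : ℝ) * (N * M * lm - K1 * M * Real.log N ^ 2 - 5 * M) =
        2 * k * (N * M * lm - K1 * M * Real.log N ^ 2) - 2 * k * (5 * M) := by ring
    rw [g4, Real.exp_sub, div_le_iff₀ (Real.exp_pos _)]
    linarith
  rw [le_div_iff₀ hl0]
  refine le_trans ?_ h12
  calc Real.exp (-(K * T)) * (ln n : ℝ) ≤ Real.exp (-(K * T)) * (mu ^ (2 * n) * q n K2) :=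
        mul_le_mul_of_nonneg_left hl1 (Real.exp_pos _).le
    _ = Real.exp (-(K * T) + (2 * n * lm + K2 * Real.log n ^ 2)) := by
        rw [Real.exp_add, Real.exp_add]
        congr 2
        rw [hlm, ← Real.exp_log (pow_pos hmu (2 * n)), Real.log_pow]
        push_cast
        rfl
    _ ≤ _ := by
        apply Real.exp_le_exp.2
        apply Bxs.final (r := r) (m := m) hkpos hN2 hK1 hK2 hlm0 hKdef hrN' hM2' _ hk0 hkN hkM hT
          hT1 (by positivity) hlog hT0
        have h2 : n ≤ k * m + 2 * k * (4 * r + 3) + 2 + k := by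
          have h3 : (2 * k - 1) * (4 * r + 3) ≤ 2 * k * (4 * r + 3) :=
            Nat.mul_le_mul_right _ (by omega)
          omega
        exact_mod_cast h2

end Pool.Agent.T6.H53.CP
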