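import Pool.Agent.T6.H53.CP.Snk

/-!
Module CLS (helper71): a snake can be closed to a polygon.
-/

set_option autoImplicit false

namespace Pool.Agent.T6.H53.CP

open Pool.Agent.TH795.EP Pool.Agent.TH795.EP2 Pool.Agent.TH795.SE2 Pool.Agent.TH262.SawL
  Pool.Agent.Y981.L2 H981 Finset Filter Topology Pool.Agent.T6.H53.WL Pool.Agent.T6.H53.AL

namespace ClsAux

open SideAux SnkAux

/-- the closing part, last piece -/
def c2 (n : ℕ) : List St := List.replicate n St.N ++ [St.E]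

/-- the closing part after its first letter -/
def c1 (t n : ℕ) : List St := List.replicate t St.S ++ (St.W :: c2 n)

/-- the closed word without its last letter -/
def cw (t n : ℕ) (w : List St) : List St := w ++ (St.W :: c1 t n)

theorem c2_prop (n k : ℕ) : (path (c2 n) k).2 ≤ n ∧ 0 ≤ (path (c2 n) k).2 ∧
    ((path (c2 n) k).1 = 0 ∨ ((path (c2 n) k).1 = 1 ∧ (path (c2 n) k).2 = n)) := by
  unfold c2
  refine path_app (P := fun p => p.2 ≤ n ∧ 0 ≤ p.2 ∧ (p.1 = 0 ∨ (p.1 = 1 ∧ p.2 = n))) ?_ ?_ k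
  · intro k
    rw [path_rep]
    have h1 : ((min k n : ℕ) : ℤ) ≤ n := by exact_mod_cast min_le_right k n
    have h2 : (0 : ℤ) ≤ ((min k n : ℕ) : ℤ) := Int.natCast_nonneg _
    simp only [St.x_N, St.y_N, mul_zero, mul_one, true_or, and_true]
    omega
  · rw [dx_rep, dy_rep]
    intro k
    refine path_cons_all (P := fun p => (n : ℤ) * St.N.y + p.2 ≤ n ∧ 0 ≤ (n : ℤ) * St.N.y + p.2 ∧
      ((n : ℤ) * St.N.x + p.1 = 0 ∨ ((n : ℤ) * St.N.x + p.1 = 1 ∧ (n : ℤ) * St.N.y + p.2 = n)))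
      ?_ ?_ k
    · simp only [St.x_N, St.y_N, mul_zero, mul_one]
      omega
    · intro k
      have : path ([] : List St) k = (0, 0) := by simp [path]
      rw [this]
      simp only [St.x_N, St.y_N, mul_zero, mul_one, St.x_E, St.y_E]
      omega

theorem c2_saw (n : ℕ) : Saw (c2 n) := by
  unfold c2
  refine saw_append (saw_rep _ _) ?_ ?_
  · have := saw_rep 1 St.E
    simpa using this
  · intro i _ j hj1 hj2 he
    have hj : j = 1 := by
      have h1 : j ≤ 1 := by simpa using hj2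
      omega
    subst hj
    rw [path_rep, dx_rep, Prod.mk.injEq] at he
    obtain ⟨he, -⟩ := he
    have h1 : (path [St.E] 1).1 = 1 := by simp [path, dx_cons]
    rw [h1] at he
    simp only [St.x_N, mul_zero] at he
    omega

theorem c1_prop (t n k : ℕ) : (path (c1 t n) k).2 ≤ (n : ℤ) - t ∨ (path (c1 t n) k).2 ≤ 0 := by
  unfold c1
  refine path_app (P := fun p => p.2 ≤ (n : ℤ) - t ∨ p.2 ≤ 0) ?_ ?_ k
  · intro k
    rw [path_rep]
    have h2 : (0 : ℤ) ≤ ((min k t : ℕ) : ℤ) := Int.natCast_nonneg _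
    simp only [St.y_S]
    omega
  · rw [dy_rep]
    intro k
    refine path_cons_all (P := fun p => (t : ℤ) * St.S.y + p.2 ≤ (n : ℤ) - t ∨
      (t : ℤ) * St.S.y + p.2 ≤ 0) ?_ ?_ k
    · simp only [St.y_S]
      omega
    · intro k
      have h1 := c2_prop n k
      simp only [St.y_S, St.y_W]
      omega

theorem c1_prop2 (t n k : ℕ) : (path (c1 t n) k).1 ≤ 0 ∧ -1 ≤ (path (c1 t n) k).1 ∧
    -(t : ℤ) ≤ (path (c1 t n) k).2 ∧
    ((path (c1 t n) k).1 = 0 → (path (c1 t n) k).2 ≤ 0 ∨ (path (c1 t n) k).2 = (n : ℤ) - t) := by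
  unfold c1
  refine path_app (P := fun p => p.1 ≤ 0 ∧ -1 ≤ p.1 ∧ -(t : ℤ) ≤ p.2 ∧
    (p.1 = 0 → p.2 ≤ 0 ∨ p.2 = (n : ℤ) - t)) ?_ ?_ k
  · intro k
    rw [path_rep]
    have h1 : ((min k t : ℕ) : ℤ) ≤ t := by exact_mod_cast min_le_right k t
    have h2 : (0 : ℤ) ≤ ((min k t : ℕ) : ℤ) := Int.natCast_nonneg _
    simp only [St.x_S, St.y_S, mul_zero]
    omega
  · rw [dx_rep, dy_rep]
    intro k
    refine path_cons_all (P := fun p => (t : ℤ) * St.S.x + p.1 ≤ 0 ∧ -1 ≤ (t : ℤ) * St.S.x + p.1 ∧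
      -(t : ℤ) ≤ (t : ℤ) * St.S.y + p.2 ∧ ((t : ℤ) * St.S.x + p.1 = 0 →
        (t : ℤ) * St.S.y + p.2 ≤ 0 ∨ (t : ℤ) * St.S.y + p.2 = (n : ℤ) - t)) ?_ ?_ k
    · simp only [St.x_S, St.y_S, mul_zero]
      omega
    · intro k
      have h1 := c2_prop n k
      simp only [St.x_S, St.y_S, St.x_W, St.y_W, mul_zero]
      omega

theorem c1_saw (t n : ℕ) (h : t < n) : Saw (c1 t n) := by
  unfold c1
  refine saw_append (saw_rep _ _) (saw_cons' (c2_saw n) ?_) ?_
  · intro j _ _ he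
    have h1 := c2_prop n j
    rw [Prod.mk.injEq] at he
    simp only [St.x_W, St.y_W] at he
    omega
  · intro i hi j hj1 _ he
    rw [List.length_replicate] at hi
    obtain ⟨j', rfl⟩ := Nat.exists_eq_add_of_le hj1
    have h1 := c2_prop n j'
    rw [Nat.add_comm 1 j', path_cons_succ, path_rep, dx_rep, dy_rep, min_eq_left (by omega),
      Prod.mk.injEq] at he
    simp only [St.x_S, St.y_S, St.x_W, St.y_W, mul_zero] at he
    omega

theorem c_saw (t n : ℕ) (h : t < n) : Saw (St.W :: c1 t n) := by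
  refine saw_cons' (c1_saw t n h) ?_
  intro j _ _ he
  have h1 := c1_prop2 t n j
  rw [Prod.mk.injEq] at he
  simp only [St.x_W, St.y_W] at he
  omega

section

variable {h x k t Y : ℕ} {w : List St}

theorem cw_saw (hw : Snk h x k w) (hY : (Y : ℤ) = (2 * (k : ℤ) - 1) * (h + 1)) (hY1 : 1 ≤ Y) :
    Saw (cw t (t + Y) w) := by
  obtain ⟨hs, hdx, hdy, hX, hYY, hC⟩ := hw
  have e1 : (2 * (k : ℤ) - 2) * (h + 1) = Y - (h + 1) := by rw [hY]; ring
  rw [e1] at hC
  rw [← hY] at hdy hYY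
  unfold cw
  refine saw_append hs (c_saw t (t + Y) (by omega)) ?_
  intro i _ j hj1 _ he
  obtain ⟨j', rfl⟩ := Nat.exists_eq_add_of_le hj1
  rw [Nat.add_comm 1 j', path_cons_succ, hdx, hdy] at he
  have h1 := c1_prop2 t (t + Y) j'
  have h2 := hX i
  have h3 := hYY i
  have h4 := congrArg Prod.fst he
  have h5 := congrArg Prod.snd he
  simp only [St.x_W, St.y_W] at h4 h5
  push_cast at h1
  have h6 : (path w i).1 = -1 := by omega
  have h7 := hC i h6
  have h8 := h1.2.2.2 (by omega)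
  omega

theorem cw_box (hw : Snk h x k w) (hY : (Y : ℤ) = (2 * (k : ℤ) - 1) * (h + 1)) (i : ℕ) :
    (-2 ≤ (path (cw t (t + Y) w) i).1 ∧ (path (cw t (t + Y) w) i).1 ≤ x + 1) ∧
    (-((Y : ℤ) + (h + 1) + t) ≤ (path (cw t (t + Y) w) i).2 ∧
      (path (cw t (t + Y) w) i).2 ≤ 0) := by
  obtain ⟨hs, hdx, hdy, hX, hYY, hC⟩ := hw
  rw [← hY] at hdy hYY
  have h0 : (0 : ℤ) ≤ x := Int.natCast_nonneg _
  have h0' : (0 : ℤ) ≤ t := Int.natCast_nonneg _
  have h0'' : (0 : ℤ) ≤ Y := Int.natCast_nonneg _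
  have h0''' : (0 : ℤ) ≤ h := Int.natCast_nonneg _
  unfold cw
  refine path_app (P := fun p => (-2 ≤ p.1 ∧ p.1 ≤ (x : ℤ) + 1) ∧
    (-((Y : ℤ) + (h + 1) + t) ≤ p.2 ∧ p.2 ≤ 0)) ?_ ?_ i
  · intro i
    have h2 := hX i
    have h3 := hYY i
    try simp only
    omega
  · rw [hdx, hdy]
    intro i
    refine path_cons_all (P := fun p => (-2 ≤ 0 + p.1 ∧ 0 + p.1 ≤ (x : ℤ) + 1) ∧
      (-((Y : ℤ) + (h + 1) + t) ≤ -(Y : ℤ) + p.2 ∧ -(Y : ℤ) + p.2 ≤ 0)) ?_ ?_ i
    · try simp only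
      omega
    · intro i
      have h1 := c1_prop2 t (t + Y) i
      have h2 := c1_prop t (t + Y) i
      simp only [St.x_W, St.y_W]
      push_cast at h1 h2
      omega

theorem cw_dx (hw : Snk h x k w) (n : ℕ) : dx (cw t n w) = -1 := by
  unfold cw c1 c2
  rw [dx_append, dx_cons, dx_append, dx_rep, dx_cons, dx_append, dx_rep, dx_cons, hw.2.1]
  simp only [St.x_W, St.x_S, St.x_N, St.x_E, dx_nil]
  ring

theorem cw_dy (hw : Snk h x k w) (hY : (Y : ℤ) = (2 * (k : ℤ) - 1) * (h + 1)) :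
    dy (cw t (t + Y) w) = 0 := by
  unfold cw c1 c2
  rw [dy_append, dy_cons, dy_append, dy_rep, dy_cons, dy_append, dy_rep, dy_cons, hw.2.2.1, ← hY]
  simp only [St.y_W, St.y_S, St.y_N, St.y_E, dy_nil]
  push_cast
  ring

theorem cw_len (n : ℕ) : (cw t n w).length = w.length + t + n + 3 := by
  unfold cw c1 c2
  simp only [List.length_append, List.length_cons, List.length_replicate, List.length_nil]
  omega

end

end ClsAux

open ClsAux SideAux in
theorem cls : StmCls := by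
  classical
  intro m h x k t hx hk
  obtain ⟨Y, hYn⟩ : ∃ Y : ℕ, Y = (2 * k - 1) * (h + 1) := ⟨_, rfl⟩
  have hY : (Y : ℤ) = (2 * (k : ℤ) - 1) * (h + 1) := by
    rw [hYn, Nat.cast_mul, Nat.cast_sub (by omega)]
    push_cast
    ring
  have hY1 : 1 ≤ Y := by
    rw [hYn]
    exact Nat.succ_le_of_lt (Nat.mul_pos (by omega) (by omega))
  obtain ⟨n, hn⟩ : ∃ n, n = k * m + (2 * k - 1) * (h + 2) + 2 + t := ⟨_, rfl⟩
  obtain ⟨l, hl⟩ : ∃ l, l = 2 * k * m + (2 * k - 1) * (h + 3) := ⟨_, rfl⟩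
  have hM : 2 * n = l + t + (t + Y) + 3 + 1 := by
    rw [hn, hl, hYn]
    generalize 2 * k - 1 = a
    ring
  rw [← hn]
  unfold snk bx
  rw [← hl]
  obtain ⟨M, hMdef⟩ : ∃ M, M = 2 * n := ⟨_, rfl⟩
  rw [← hMdef] at hM ⊢
  have : NeZero M := ⟨by omega⟩
  have hval : ∀ k : ℕ, k < M → ((k : ZMod M)).val = k := fun k hk => ZMod.val_cast_of_lt hk
  have hfin : {f : ZMod M → ℤ × ℤ | IsLoop M f ∧ Bxd ((x : ℤ) + 3) (2 * k * (h + 1) + t) f}.Finite := by
    apply Set.Finite.subset _ (s := {f : ZMod M → ℤ × ℤ | IsLoop M f})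
      (fun f hf => hf.1)
    apply Set.Finite.subset (Set.Finite.image (fun (w : List St) => fun i : ZMod M => path w i.val)
      (fin_words Saw (M - 1)))
    intro f hf
    obtain ⟨w, h1, h2, h3⟩ := loop_word (by omega) hf 0
    refine ⟨w, ⟨h1, h2⟩, ?_⟩
    funext i
    try simp only
    rw [h3 _ (ZMod.val_lt i), ZMod.natCast_zmod_val, zero_add, hf.1]
    simp
  obtain ⟨φ, hφ⟩ : ∃ φ : List St → (ZMod M → ℤ × ℤ), ∀ w i,
      φ w i = path (cw t (t + Y) w ++ [St.E]) i.val := ⟨_, fun _ _ => rfl⟩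
  have hcard : ((fs (Snk h x k) l).image φ).card = (fs (Snk h x k) l).card := by
    apply Finset.card_image_of_injOn
    intro w hw w' hw' heq
    rw [Finset.mem_coe, mem_fs] at hw hw'
    apply word_ext (by rw [hw.2, hw'.2])
    intro i hi
    rw [hw.2] at hi
    have h1 := congrFun heq (i : ZMod M)
    rw [hφ, hφ, hval i (by omega), path_append_left (by rw [cw_len, hw.2]; omega),
      path_append_left (by rw [cw_len, hw'.2]; omega)] at h1
    unfold cw at h1
    rw [path_append_left (by rw [hw.2]; omega), path_append_left (by rw [hw'.2]; omega)] at h1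
    exact h1
  rw [← hcard, ← Set.ncard_coe_finset]
  apply Set.ncard_le_ncard _ hfin
  intro f hf
  rw [Finset.mem_coe, Finset.mem_image] at hf
  obtain ⟨w, hw, rfl⟩ := hf
  rw [mem_fs] at hw
  have hfun : φ w = fun i : ZMod M => path (cw t (t + Y) w ++ [St.E]) i.val := by
    funext i
    rw [hφ]
  have hlen : (cw t (t + Y) w).length + 1 = M := by
    rw [cw_len, hw.2, hM]
  refine ⟨?_, ?_⟩
  · rw [hfun]
    apply loop_of (by omega)
    · rw [List.length_append, List.length_cons, List.length_nil]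
      omega
    · rw [dx_append, cw_dx hw.1]
      simp
    · rw [dy_append, cw_dy hw.1 hY]
      simp
    · intro i j hij hj
      rw [path_append_left (by omega), path_append_left (by omega)]
      exact saw_iff'.1 (cw_saw hw.1 hY hY1) i j hij (by omega)
  · rw [hfun]
    have hk2 : (2 * (k : ℤ) * (h + 1)) = Y + (h + 1) := by rw [hY]; ring
    intro i j
    have hi := ZMod.val_lt i
    have hj := ZMod.val_lt j
    try simp only
    rw [path_append_left (by omega), path_append_left (by omega), hk2]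
    have a := cw_box (t := t) hw.1 hY i.val
    have b := cw_box (t := t) hw.1 hY j.val
    omega

end Pool.Agent.T6.H53.CP
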