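import Pool.Agent.T6.H53.CP.Defs2
import Pool.Agent.T6.H53.CP.Side

/-!
Module SNK (helper71): walks in long thin boxes can be joined to snakes.
-/

set_option autoImplicit false

namespace Pool.Agent.T6.H53.CP

open Pool.Agent.TH795.EP Pool.Agent.TH795.EP2 Pool.Agent.TH795.SE2 Pool.Agent.TH262.SawL
  Pool.Agent.Y981.L2 H981 Finset Filter Topology Pool.Agent.T6.H53.WL Pool.Agent.T6.H53.AL

namespace SnkAux

open SideAux

theorem path_cons_all {s : St} {w : List St} {P : ℤ × ℤ → Prop} (h0 : P (0, 0))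
    (h : ∀ k, P (s.x + (path w k).1, s.y + (path w k).2)) (k : ℕ) : P (path (s :: w) k) := by
  rcases k with _ | k
  · rw [path_zero]
    exact h0
  · rw [path_cons_succ]
    exact h k

theorem path_sgx (w : List St) (k : ℕ) : path (sg w) k = (-(path w k).1, (path w k).2) := by
  have h1 : (sg w).take k = sg (w.take k) := by
    unfold sg
    rw [← List.map_take]
  unfold path
  rw [h1, dx_sg, dy_sg]

theorem saw_sgx {w : List St} (h : Saw w) : Saw (sg w) := by
  rw [saw_iff'] at h ⊢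
  intro i j hij hj he
  rw [length_sg] at hj
  rw [path_sgx, path_sgx, Prod.mk.injEq] at he
  exact h i j hij hj (Prod.ext (by omega) he.2)

theorem saw_cons' {s : St} {w : List St} (hw : Saw w)
    (h : ∀ j, 1 ≤ j → j ≤ w.length → (s.x + (path w j).1, s.y + (path w j).2) ≠ (0, 0)) :
    Saw (s :: w) := by
  have h1 : Saw ([s] ++ w) := by
    refine saw_append ?_ hw ?_
    · have := saw_rep 1 s
      simpa using this
    · intro i hi j hj1 hj2 he
      have hi0 : i = 0 := by simpa using hi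
      subst hi0
      rw [path_zero] at he
      apply h j hj1 hj2
      rw [he]
      simp [dx_cons, dy_cons]
  exact h1

/-- the second half of a base word after its first letter -/
def w1 (h : ℕ) (v : List St) : List St := List.replicate (h + 1) St.S ++ (St.W :: sg v)

/-- two rows -/
def base (h : ℕ) (u v : List St) : List St := u ++ (St.E :: w1 h v)

/-- the second part of a step -/
def z1 (h : ℕ) (u v : List St) : List St := List.replicate (h + 1) St.S ++ (St.E :: base h u v)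

/-- one step -/
def stepw (h : ℕ) (w u v : List St) : List St := w ++ (St.W :: z1 h u v)

section

variable {h x : ℕ} {u v w : List St}

theorem v2_prop (hv : Slb h x v) (k : ℕ) :
    ((path (St.W :: sg v) k).1 ≤ 0 ∧ -(x : ℤ) - 1 ≤ (path (St.W :: sg v) k).1) ∧
    ((path (St.W :: sg v) k).2 ≤ 0 ∧ -(h : ℤ) ≤ (path (St.W :: sg v) k).2) := by
  obtain ⟨-, -, -, hX, hY⟩ := hv
  refine path_cons_all (P := fun p => (p.1 ≤ 0 ∧ -(x : ℤ) - 1 ≤ p.1) ∧
    (p.2 ≤ 0 ∧ -(h : ℤ) ≤ p.2)) ?_ ?_ k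
  · have h1 : (0 : ℤ) ≤ x := Int.natCast_nonneg _
    have h2 : (0 : ℤ) ≤ h := Int.natCast_nonneg _
    try simp only
    omega
  · intro k
    rw [path_sgx]
    have h1 := hX k
    have h2 := hY k
    simp only [St.x_W, St.y_W]
    omega

theorem v2_succ (hv : Slb h x v) (k : ℕ) : (path (St.W :: sg v) (k + 1)).1 ≤ -1 := by
  rw [path_cons_succ, path_sgx]
  have h1 := hv.2.2.2.1 k
  simp only [St.x_W]
  omega

theorem v2_saw (hv : Slb h x v) : Saw (St.W :: sg v) := by
  refine saw_cons' (saw_sgx hv.1) ?_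
  intro j _ _ he
  rw [path_sgx, Prod.mk.injEq] at he
  have h1 := hv.2.2.2.1 j
  simp only [St.x_W] at he
  omega

theorem w1_prop (hv : Slb h x v) (k : ℕ) :
    ((path (w1 h v) k).1 ≤ 0 ∧ -(x : ℤ) - 1 ≤ (path (w1 h v) k).1) ∧
    ((path (w1 h v) k).2 ≤ 0 ∧ -(2 * (h : ℤ) + 1) ≤ (path (w1 h v) k).2) ∧
    ((path (w1 h v) k).1 = 0 ∨ (path (w1 h v) k).2 ≤ -((h : ℤ) + 1)) := by
  unfold w1
  refine path_app (P := fun p => (p.1 ≤ 0 ∧ -(x : ℤ) - 1 ≤ p.1) ∧
    (p.2 ≤ 0 ∧ -(2 * (h : ℤ) + 1) ≤ p.2) ∧ (p.1 = 0 ∨ p.2 ≤ -((h : ℤ) + 1))) ?_ ?_ k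
  · intro k
    rw [path_rep]
    have h1 : ((min k (h + 1) : ℕ) : ℤ) ≤ h + 1 := by exact_mod_cast min_le_right k (h + 1)
    have h2 : (0 : ℤ) ≤ ((min k (h + 1) : ℕ) : ℤ) := Int.natCast_nonneg _
    simp only [St.x_S, St.y_S, mul_zero]
    have h3 : (0 : ℤ) ≤ x := Int.natCast_nonneg _
    try simp only [true_or, and_true, true_and]
    omega
  · intro k
    have h1 := v2_prop hv k
    rw [dx_rep, dy_rep]
    simp only [St.x_S, St.y_S, mul_zero]
    push_cast
    omega

theorem w1_succ (hv : Slb h x v) (k : ℕ) : (path (w1 h v) (k + 1)).2 ≤ -1 := by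
  unfold w1
  rw [List.replicate_succ, List.cons_append, path_cons_succ]
  have h1 : (path (List.replicate h St.S ++ (St.W :: sg v)) k).2 ≤ 0 := by
    refine path_app (P := fun p => p.2 ≤ 0) ?_ ?_ k
    · intro k
      rw [path_rep]
      have h2 : (0 : ℤ) ≤ ((min k h : ℕ) : ℤ) := Int.natCast_nonneg _
      simp only [St.y_S]
      omega
    · intro k
      have h1 := v2_prop hv k
      rw [dy_rep]
      simp only [St.y_S]
      omega
  simp only [St.y_S]
  omega

theorem w1_saw (hv : Slb h x v) : Saw (w1 h v) := by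
  unfold w1
  refine saw_append (saw_rep _ _) (v2_saw hv) ?_
  intro i hi j _ _ he
  rw [List.length_replicate] at hi
  have h1 := v2_prop hv j
  rw [path_rep, dx_rep, dy_rep, min_eq_left (by omega), Prod.mk.injEq] at he
  obtain ⟨-, he⟩ := he
  simp only [St.y_S] at he
  push_cast at he
  omega

theorem base_prop (hu : Slb h x u) (hv : Slb h x v) (k : ℕ) :
    (0 ≤ (path (base h u v) k).1 ∧ (path (base h u v) k).1 ≤ x + 1) ∧
    (-(2 * (h : ℤ) + 1) ≤ (path (base h u v) k).2 ∧ (path (base h u v) k).2 ≤ 0) := by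
  unfold base
  have h0 : (0 : ℤ) ≤ x := Int.natCast_nonneg _
  have h0' : (0 : ℤ) ≤ h := Int.natCast_nonneg _
  refine path_app (P := fun p => (0 ≤ p.1 ∧ p.1 ≤ x + 1) ∧
    (-(2 * (h : ℤ) + 1) ≤ p.2 ∧ p.2 ≤ 0)) ?_ ?_ k
  · intro k
    have h1 := hu.2.2.2.1 k
    have h2 := hu.2.2.2.2 k
    try simp only
    omega
  · intro k
    rw [hu.2.1, hu.2.2.1]
    refine path_cons_all (P := fun p => (0 ≤ (x : ℤ) + p.1 ∧ (x : ℤ) + p.1 ≤ x + 1) ∧
      (-(2 * (h : ℤ) + 1) ≤ 0 + p.2 ∧ 0 + p.2 ≤ 0)) ?_ ?_ k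
    · try simp only
      omega
    · intro k
      have h1 := w1_prop hv k
      simp only [St.x_E, St.y_E]
      omega

theorem base_saw (hu : Slb h x u) (hv : Slb h x v) : Saw (base h u v) := by
  unfold base
  refine saw_append hu.1 (saw_cons' (w1_saw hv) ?_) ?_
  · intro j hj1 _ he
    obtain ⟨j', rfl⟩ := Nat.exists_eq_add_of_le hj1
    rw [Nat.add_comm 1 j'] at he
    have h1 := w1_succ hv j'
    have h2 := congrArg Prod.snd he
    simp only [St.y_E] at h2
    omega
  · intro i _ j hj1 _ he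
    obtain ⟨j', rfl⟩ := Nat.exists_eq_add_of_le hj1
    rw [Nat.add_comm 1 j', path_cons_succ, hu.2.1, hu.2.2.1] at he
    have h1 := w1_prop hv j'
    have h2 := hu.2.2.2.1 i
    have h3 := hu.2.2.2.2 i
    have h4 := congrArg Prod.fst he
    have h5 := congrArg Prod.snd he
    simp only [St.x_E, St.y_E] at h4 h5
    omega

theorem base_dx (hu : Slb h x u) (hv : Slb h x v) : dx (base h u v) = 0 := by
  unfold base w1
  rw [dx_append, dx_cons, dx_append, dx_rep, dx_cons, dx_sg, hu.2.1, hv.2.1]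
  simp only [St.x_E, St.x_S, St.x_W]
  ring

theorem base_dy (hu : Slb h x u) (hv : Slb h x v) : dy (base h u v) = -((h : ℤ) + 1) := by
  unfold base w1
  rw [dy_append, dy_cons, dy_append, dy_rep, dy_cons, dy_sg, hu.2.2.1, hv.2.2.1]
  simp only [St.y_E, St.y_S, St.y_W]
  push_cast
  ring

theorem base_len {m : ℕ} (hu : u.length = m) (hv : v.length = m) :
    (base h u v).length = 2 * m + h + 3 := by
  unfold base w1
  simp only [List.length_append, List.length_cons, List.length_replicate, length_sg, hu, hv]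
  omega

theorem base_inj {u' v' : List St} (hl : u.length = u'.length)
    (he : base h u v = base h u' v') : u = u' ∧ v = v' := by
  unfold base w1 at he
  obtain ⟨h1, h2⟩ := List.append_inj he hl
  refine ⟨h1, ?_⟩
  rw [List.cons_inj_right] at h2
  have h3 := List.append_cancel_left h2
  rw [List.cons_inj_right] at h3
  have h4 := congrArg sg h3
  rwa [sg_sg, sg_sg] at h4

theorem base_snk (hu : Slb h x u) (hv : Slb h x v) : Snk h x 1 (base h u v) := by
  refine ⟨base_saw hu hv, base_dx hu hv, ?_, ?_, ?_, ?_⟩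
  · rw [base_dy hu hv]
    push_cast
    ring
  · intro i
    have := (base_prop hu hv i).1
    omega
  · intro i
    have := (base_prop hu hv i).2
    push_cast
    omega
  · intro i hi
    have := (base_prop hu hv i).1
    omega

theorem z1_prop (hu : Slb h x u) (hv : Slb h x v) (k : ℕ) :
    ((path (z1 h u v) k).1 ≤ x + 2) ∧
    ((path (z1 h u v) k).2 ≤ 0 ∧ -(3 * (h : ℤ) + 2) ≤ (path (z1 h u v) k).2) ∧
    (((path (z1 h u v) k).1 = 0 ∧ -((h : ℤ) + 1) ≤ (path (z1 h u v) k).2) ∨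
      (1 ≤ (path (z1 h u v) k).1 ∧ (path (z1 h u v) k).2 ≤ -((h : ℤ) + 1))) := by
  unfold z1
  have h0 : (0 : ℤ) ≤ x := Int.natCast_nonneg _
  have h0' : (0 : ℤ) ≤ h := Int.natCast_nonneg _
  refine path_app (P := fun p => (p.1 ≤ x + 2) ∧ (p.2 ≤ 0 ∧ -(3 * (h : ℤ) + 2) ≤ p.2) ∧
    ((p.1 = 0 ∧ -((h : ℤ) + 1) ≤ p.2) ∨ (1 ≤ p.1 ∧ p.2 ≤ -((h : ℤ) + 1)))) ?_ ?_ k
  · intro k
    rw [path_rep]
    have h1 : ((min k (h + 1) : ℕ) : ℤ) ≤ h + 1 := by exact_mod_cast min_le_right k (h + 1)
    have h2 : (0 : ℤ) ≤ ((min k (h + 1) : ℕ) : ℤ) := Int.natCast_nonneg _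
    simp only [St.x_S, St.y_S, mul_zero]
    try simp only [true_or, and_true, true_and]
    omega
  · rw [dx_rep, dy_rep]
    intro k
    refine path_cons_all (P := fun p => (((h + 1 : ℕ) : ℤ) * St.S.x + p.1 ≤ x + 2) ∧
      (((h + 1 : ℕ) : ℤ) * St.S.y + p.2 ≤ 0 ∧ -(3 * (h : ℤ) + 2) ≤ ((h + 1 : ℕ) : ℤ) * St.S.y + p.2) ∧
      ((((h + 1 : ℕ) : ℤ) * St.S.x + p.1 = 0 ∧ -((h : ℤ) + 1) ≤ ((h + 1 : ℕ) : ℤ) * St.S.y + p.2) ∨
        (1 ≤ ((h + 1 : ℕ) : ℤ) * St.S.x + p.1 ∧
          ((h + 1 : ℕ) : ℤ) * St.S.y + p.2 ≤ -((h : ℤ) + 1)))) ?_ ?_ k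
    · simp only [St.x_S, St.y_S, mul_zero]
      push_cast
      try simp only [true_or, and_true, true_and, false_and, or_false]
      omega
    · intro k
      have h1 := base_prop hu hv k
      simp only [St.x_S, St.y_S, mul_zero, St.x_E, St.y_E]
      push_cast
      omega

theorem z1_succ (hu : Slb h x u) (hv : Slb h x v) (k : ℕ) : (path (z1 h u v) (k + 1)).2 ≤ -1 := by
  unfold z1
  rw [List.replicate_succ, List.cons_append, path_cons_succ]
  have h1 : (path (List.replicate h St.S ++ (St.E :: base h u v)) k).2 ≤ 0 := by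
    refine path_app (P := fun p => p.2 ≤ 0) ?_ ?_ k
    · intro k
      rw [path_rep]
      have h2 : (0 : ℤ) ≤ ((min k h : ℕ) : ℤ) := Int.natCast_nonneg _
      simp only [St.y_S]
      omega
    · rw [dy_rep]
      intro k
      refine path_cons_all (P := fun p => ((h : ℕ) : ℤ) * St.S.y + p.2 ≤ 0) ?_ ?_ k
      · simp only [St.y_S]
        omega
      · intro k
        have h1 := base_prop hu hv k
        simp only [St.y_S, St.y_E]
        omega
  simp only [St.y_S]
  omega

theorem z1_saw (hu : Slb h x u) (hv : Slb h x v) : Saw (z1 h u v) := by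
  unfold z1
  refine saw_append (saw_rep _ _) (saw_cons' (base_saw hu hv) ?_) ?_
  · intro j _ _ he
    have h1 := base_prop hu hv j
    have h2 := congrArg Prod.fst he
    simp only [St.x_E] at h2
    omega
  · intro i hi j _ _ he
    rw [List.length_replicate] at hi
    have h1 : (path (St.E :: base h u v) j).2 ≤ 0 := by
      refine path_cons_all (P := fun p => p.2 ≤ 0) le_rfl ?_ j
      intro k
      have h1 := base_prop hu hv k
      simp only [St.y_E]
      omega
    rw [path_rep, dx_rep, dy_rep, min_eq_left (by omega), Prod.mk.injEq] at he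
    obtain ⟨-, he⟩ := he
    simp only [St.y_S] at he
    push_cast at he
    omega

theorem z_saw (hu : Slb h x u) (hv : Slb h x v) : Saw (St.W :: z1 h u v) := by
  refine saw_cons' (z1_saw hu hv) ?_
  intro j hj1 _ he
  obtain ⟨j', rfl⟩ := Nat.exists_eq_add_of_le hj1
  rw [Nat.add_comm 1 j'] at he
  have h1 := z1_succ hu hv j'
  have h2 := congrArg Prod.snd he
  simp only [St.y_W] at h2
  omega

theorem z1_dx (hu : Slb h x u) (hv : Slb h x v) : dx (z1 h u v) = 1 := by
  unfold z1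
  rw [dx_append, dx_rep, dx_cons, base_dx hu hv]
  simp only [St.x_E, St.x_S]
  ring

theorem z1_dy (hu : Slb h x u) (hv : Slb h x v) : dy (z1 h u v) = -(2 * ((h : ℤ) + 1)) := by
  unfold z1
  rw [dy_append, dy_rep, dy_cons, base_dy hu hv]
  simp only [St.y_E, St.y_S]
  push_cast
  ring

theorem step_snk {k : ℕ} (hk : 1 ≤ k) (hw : Snk h x k w) (hu : Slb h x u) (hv : Slb h x v) :
    Snk h x (k + 1) (stepw h w u v) := by
  obtain ⟨hs, hdx, hdy, hX, hY, hC⟩ := hw
  have h0 : (0 : ℤ) ≤ x := Int.natCast_nonneg _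
  have h0' : (0 : ℤ) ≤ h := Int.natCast_nonneg _
  -- the height
  obtain ⟨Y, hYdef⟩ : ∃ Y : ℤ, Y = (2 * (k : ℤ) - 1) * (h + 1) := ⟨_, rfl⟩
  have hYh : (h : ℤ) + 1 ≤ Y := by
    have hk' : (1 : ℤ) ≤ k := by exact_mod_cast hk
    rw [hYdef]
    nlinarith
  have e1 : (2 * (k : ℤ) - 2) * (h + 1) = Y - (h + 1) := by rw [hYdef]; ring
  have e2 : (2 * ((k + 1 : ℕ) : ℤ) - 1) * (h + 1) = Y + 2 * (h + 1) := by
    rw [hYdef]; push_cast; ring
  have e3 : (2 * ((k + 1 : ℕ) : ℤ) - 2) * (h + 1) = Y + (h + 1) := by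
    rw [hYdef]; push_cast; ring
  rw [e1] at hC
  rw [← hYdef] at hdy hY
  unfold stepw
  refine ⟨?_, ?_, ?_, ?_, ?_, ?_⟩
  · refine saw_append hs (z_saw hu hv) ?_
    intro i _ j hj1 _ he
    obtain ⟨j', rfl⟩ := Nat.exists_eq_add_of_le hj1
    rw [Nat.add_comm 1 j', path_cons_succ, hdx, hdy] at he
    have h1 := z1_prop hu hv j'
    have h2 := hX i
    have h3 := hY i
    have h4 := congrArg Prod.fst he
    have h5 := congrArg Prod.snd he
    simp only [St.x_W, St.y_W] at h4 h5
    obtain ⟨-, -, h6 | h6⟩ := h1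
    · have h7 := (hC i (by omega)).1
      have h8 := (z1_prop hu hv j').2.1
      omega
    · omega
  · rw [dx_append, dx_cons, z1_dx hu hv, hdx]
    simp only [St.x_W]
    ring
  · rw [dy_append, dy_cons, z1_dy hu hv, hdy, e2]
    simp only [St.y_W]
    ring
  · intro i
    refine path_app (P := fun p => -1 ≤ p.1 ∧ p.1 ≤ (x : ℤ) + 1) hX ?_ i
    rw [hdx]
    intro k
    refine path_cons_all (P := fun p => -1 ≤ 0 + p.1 ∧ 0 + p.1 ≤ (x : ℤ) + 1) ?_ ?_ k
    · try simp only
      omega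
    · intro k
      have h1 := z1_prop hu hv k
      simp only [St.x_W]
      omega
  · rw [e2]
    intro i
    refine path_app (P := fun p => -(Y + 2 * (h + 1) + h) ≤ p.2 ∧ p.2 ≤ 0) ?_ ?_ i
    · intro k
      have h1 := hY k
      try simp only
      omega
    · rw [hdy]
      have h9 := (hY w.length)
      rw [path_len, hdy] at h9
      try simp only at h9
      intro k
      refine path_cons_all (P := fun p => -(Y + 2 * (h + 1) + h) ≤ -Y + p.2 ∧ -Y + p.2 ≤ 0) ?_ ?_ k
      · try simp only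
        omega
      · intro k
        have h1 := z1_prop hu hv k
        simp only [St.y_W]
        omega
  · rw [e3]
    intro i
    refine path_app (P := fun p => p.1 = -1 → -(Y + (h + 1)) ≤ p.2 ∧ p.2 ≤ -((h : ℤ) + 1)) ?_ ?_ i
    · intro k hk
      have h1 := hC k hk
      try simp only at hk ⊢
      omega
    · rw [hdx, hdy]
      have h9 := (hY w.length)
      rw [path_len, hdy] at h9
      try simp only at h9
      intro k
      refine path_cons_all (P := fun p => 0 + p.1 = -1 →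
        -(Y + (h + 1)) ≤ -Y + p.2 ∧ -Y + p.2 ≤ -((h : ℤ) + 1)) ?_ ?_ k
      · intro hk
        try simp only at hk
        omega
      · intro k hk
        have h1 := z1_prop hu hv k
        simp only [St.x_W, St.y_W] at hk ⊢
        omega

theorem z1_len {m : ℕ} (hu : u.length = m) (hv : v.length = m) :
    (z1 h u v).length = 2 * m + 2 * h + 5 := by
  unfold z1
  simp only [List.length_append, List.length_cons, List.length_replicate, base_len hu hv]
  omega

theorem stepw_inj {w' u' v' : List St} (hw : w.length = w'.length) (hl : u.length = u'.length)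
    (he : stepw h w u v = stepw h w' u' v') : w = w' ∧ u = u' ∧ v = v' := by
  unfold stepw at he
  obtain ⟨h1, h2⟩ := List.append_inj he hw
  refine ⟨h1, ?_⟩
  rw [List.cons_inj_right] at h2
  unfold z1 at h2
  have h3 := List.append_cancel_left h2
  rw [List.cons_inj_right] at h3
  exact base_inj hl h3

end

theorem count_one (m h x : ℕ) : sl m h x * sl m h x ≤ snk m h x 1 := by
  unfold snk
  have hl : 2 * 1 * m + (2 * 1 - 1) * (h + 3) = 2 * m + h + 3 := by omega
  rw [hl]
  unfold sl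
  rw [← Finset.card_product]
  refine Finset.card_le_card_of_injOn (fun p => base h p.1 p.2) ?_ ?_
  · rintro ⟨u, v⟩ hp
    rw [Finset.mem_coe, Finset.mem_product, mem_fs, mem_fs] at hp
    rw [Finset.mem_coe, mem_fs]
    exact ⟨base_snk hp.1.1 hp.2.1, base_len hp.1.2 hp.2.2⟩
  · rintro ⟨u, v⟩ hp ⟨u', v'⟩ hp' he
    rw [Finset.mem_coe, Finset.mem_product, mem_fs, mem_fs] at hp hp'
    obtain ⟨h1, h2⟩ := base_inj (hp.1.2.trans hp'.1.2.symm) he
    exact Prod.ext h1 h2

theorem count_step (m h x k : ℕ) (hk : 1 ≤ k) :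
    snk m h x k * (sl m h x * sl m h x) ≤ snk m h x (k + 1) := by
  unfold snk
  have hl : 2 * (k + 1) * m + (2 * (k + 1) - 1) * (h + 3) =
      2 * k * m + (2 * k - 1) * (h + 3) + (1 + (2 * m + 2 * h + 5)) := by
    obtain ⟨j, rfl⟩ := Nat.exists_eq_add_of_le hk
    have e1 : 2 * (1 + j + 1) - 1 = 2 * j + 3 := by omega
    have e2 : 2 * (1 + j) - 1 = 2 * j + 1 := by omega
    rw [e1, e2]
    ring
  rw [hl]
  unfold sl
  rw [← Finset.card_product, ← Finset.card_product]
  refine Finset.card_le_card_of_injOn (fun p => stepw h p.1 p.2.1 p.2.2) ?_ ?_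
  · rintro ⟨w, u, v⟩ hp
    rw [Finset.mem_coe, Finset.mem_product, Finset.mem_product, mem_fs, mem_fs, mem_fs] at hp
    rw [Finset.mem_coe, mem_fs]
    refine ⟨step_snk hk hp.1.1 hp.2.1.1 hp.2.2.1, ?_⟩
    unfold stepw
    rw [List.length_append, List.length_cons, z1_len hp.2.1.2 hp.2.2.2, hp.1.2]
    ring
  · rintro ⟨w, u, v⟩ hp ⟨w', u', v'⟩ hp' he
    rw [Finset.mem_coe, Finset.mem_product, Finset.mem_product, mem_fs, mem_fs, mem_fs] at hp hp'
    obtain ⟨h1, h2, h3⟩ := stepw_inj (hp.1.2.trans hp'.1.2.symm) (hp.2.1.2.trans hp'.2.1.2.symm) he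
    exact Prod.ext h1 (Prod.ext h2 h3)

end SnkAux

open SnkAux in
theorem snake : StmSnk := by
  intro m h x k _ hk
  induction k, hk using Nat.le_induction with
  | base =>
    rw [mul_one, sq]
    exact count_one m h x
  | succ k hk ih =>
    have e : 2 * (k + 1) = 2 * k + 2 := by ring
    rw [e, pow_add, sq]
    exact (Nat.mul_le_mul_right _ ih).trans (count_step m h x k hk)

end Pool.Agent.T6.H53.CP
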