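import Pool.Agent.T6.H53.AL.Area2

/-!
Confined planar self-avoiding polygons (width at most `k`): definitions and statements of the
modules.  The polygons are built from long chains of short bridges in a strip.
-/

set_option autoImplicit false

namespace Pool.Agent.T6.H53.CP

open Pool.Agent.TH795.EP Pool.Agent.TH795.EP2 Pool.Agent.TH795.SE2 Pool.Agent.TH262.SawL
  Pool.Agent.Y981.L2 H981 Finset Filter Topology Pool.Agent.T6.H53.WL Pool.Agent.T6.H53.AL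

/-- a block: a bridge in the first coordinate that stays in the box of radius `r` around its start
and does not end below its start -/
def Blk (r : ℕ) (w : List St) : Prop :=
  IsB w ∧ (∀ k, |(path w k).1| ≤ r ∧ |(path w k).2| ≤ r) ∧ 0 ≤ dy w

/-- the number of the blocks of length `N` -/
noncomputable def bk (N r : ℕ) : ℕ := (fs (Blk r) N).card

/-- a chain of `M` blocks, reflected so that it stays near the first axis -/
def Chn (r M : ℕ) (w : List St) : Prop :=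
  IsB w ∧ (∀ k, |(path w k).2| ≤ 2 * r) ∧ |dy w| ≤ r ∧ dx w ≤ M * r

/-- the number of the chains of length `N * M` -/
noncomputable def ch (N r M : ℕ) : ℕ := (fs (Chn r M) (N * M)).card

/-- a walk from `0` to `(x, 0)` in the box `[0, x] × [-h, 0]` -/
def Slb (h x : ℤ) (w : List St) : Prop :=
  Saw w ∧ dx w = x ∧ dy w = 0 ∧ (∀ k, 0 ≤ (path w k).1 ∧ (path w k).1 ≤ x) ∧
    ∀ k, -h ≤ (path w k).2 ∧ (path w k).2 ≤ 0

/-- the number of these walks of length `m` -/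
noncomputable def sl (m : ℕ) (h x : ℤ) : ℕ := (fs (Slb h x) m).card

/-- the loop has width at most `x` and height at most `h` -/
def Bxd {M : ℕ} (x h : ℤ) (f : ZMod M → ℤ × ℤ) : Prop :=
  ∀ i j, (f i).1 - (f j).1 ≤ x ∧ (f i).2 - (f j).2 ≤ h

/-- the number of the loops of length `2 n` with width at most `x` and height at most `h` -/
noncomputable def bx (n : ℕ) (x h : ℤ) : ℕ :=
  {f : ZMod (2 * n) → ℤ × ℤ | IsLoop (2 * n) f ∧ Bxd x h f}.ncard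

/-- the number of the loops of length `2 n` with width at most `k` -/
noncomputable def nar (n : ℕ) (k : ℤ) : ℕ :=
  {f : ZMod (2 * n) → ℤ × ℤ | IsLoop (2 * n) f ∧ ∀ i j, (f i).1 - (f j).1 ≤ k}.ncard

/-- Module BLK: if the radius is much larger than the correlation length at distance `1 / N` then
there are many blocks -/
def StmBlk : Prop := ∃ K : ℝ, 1 ≤ K ∧ ∀ N : ℕ, 2 ≤ N → ∀ r : ℕ,
  K * Real.log N ^ 2 ≤ r * mass (1 / (N : ℝ)) → mu ^ N * q N (-K) ≤ bk N r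

/-- Module CHN: blocks can be joined -/
def StmChn : Prop := ∀ N r M : ℕ, 1 ≤ N → bk N r ^ M ≤ ch N r M

/-- Module SIDE: a chain gives a walk in a box with both ends in the top row -/
def StmSide : Prop := ∀ N r M m : ℕ, 1 ≤ N → N * M + 5 * r + 4 ≤ m →
  ∃ x : ℤ, 1 ≤ x ∧ x ≤ M * r + r + (m - N * M) ∧
    ch N r M ≤ (M * r + 1) * (2 * r + 1) * sl m (4 * r + 1) x

/-- Module LOOP: two walks give a polygon -/
def StmLoop : Prop := ∀ (m : ℕ) (h x : ℤ), 1 ≤ x → sl m h x ^ 2 ≤ bx (m + 1) x (2 * h + 1)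

/-- Module UPP: a narrow polygon is high -/
def StmUpp : Prop := ∃ C : ℝ, 0 ≤ C ∧ ∀ n : ℕ, 2 ≤ n → ∀ k : ℕ, 1 ≤ k → k + 1 ≤ n →
  (nar n k : ℝ) / ln n ≤
    Real.exp (C * Real.log n ^ 2 - 2 * n * R (2 / ((k : ℝ) + 1) - 1 / n))

/-- Assembly: long polygons in a narrow box -/
def StmBox : Prop := ∃ K : ℝ, 1 ≤ K ∧ ∀ N : ℕ, 2 ≤ N → ∀ r : ℕ,
  K * Real.log N ^ 2 ≤ r * mass (1 / (N : ℝ)) → (r : ℝ) ≤ K * N → ∀ n : ℕ, K * (N : ℝ) ^ 2 ≤ n →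
  ∃ x : ℕ, (x : ℝ) ≤ K * (n / N * r) ∧
    Real.exp (-(K * (n / N * Real.log N ^ 2))) ≤ (bx n x (10 * r) : ℝ) / ln n

/-- Module XI: the radius of the blocks is at most a multiple of their length -/
def StmXi : Prop := ∃ C : ℝ, 1 ≤ C ∧ ∀ N : ℕ, 2 ≤ N →
  Real.log N ^ 2 / mass (1 / (N : ℝ)) ≤ C * N

/-- Module EXPL: the explicit choice of the length of the blocks -/
def StmExpl : Prop := ∀ K : ℝ, 1 ≤ K → ∃ c : ℝ, 0 < c ∧ ∀ᶠ k : ℕ in atTop, ∃ N r : ℕ, 2 ≤ N ∧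
  10 * r ≤ k ∧ (r : ℝ) ≤ K * N ∧ K * Real.log N ^ 2 ≤ r * mass (1 / (N : ℝ)) ∧
  K / N * Real.log N ^ 2 ≤ (k : ℝ) ^ (-(1 + c / Real.log (Real.log k)))

/-- Module EXPO: the choice of the length of the blocks if the correlation length has an
exponent -/
def StmExpo : Prop := ∀ K θ : ℝ, 1 ≤ K → 0 < θ → θ < 1 → MassLow θ → ∀ ε : ℝ, 0 < ε →
  ∀ᶠ k : ℕ in atTop, ∃ N r : ℕ, 2 ≤ N ∧ 10 * r ≤ k ∧ (r : ℝ) ≤ K * N ∧
    K * Real.log N ^ 2 ≤ r * mass (1 / (N : ℝ)) ∧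
    K / N * Real.log N ^ 2 ≤ (k : ℝ) ^ (-(1 / θ - ε))

/-- the mean of `exp (- τ A_n)` for the area `A_n` of the uniform polygon of perimeter `2 n` -/
noncomputable def ves (n : ℕ) (τ : ℝ) : ℝ :=
  (∑ᶠ f ∈ {f : ZMod (2 * n) → ℤ × ℤ | IsLoop (2 * n) f}, Real.exp (-(τ * area (2 * n) f))) /
    ({f : ZMod (2 * n) → ℤ × ℤ | IsLoop (2 * n) f}.ncard : ℝ)

/-- the probability that the area is at most `r` -/
noncomputable def sml (n : ℕ) (r : ℝ) : ℝ :=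
  ({f : ZMod (2 * n) → ℤ × ℤ | IsLoop (2 * n) f ∧ (area (2 * n) f : ℝ) ≤ r}.ncard : ℝ) /
    ({f : ZMod (2 * n) → ℤ × ℤ | IsLoop (2 * n) f}.ncard : ℝ)

/-- Module VES: the area in narrow boxes -/
def StmVes : Prop := ∃ K : ℝ, 1 ≤ K ∧ ∀ N : ℕ, 2 ≤ N → ∀ r : ℕ,
  K * Real.log N ^ 2 ≤ r * mass (1 / (N : ℝ)) → (r : ℝ) ≤ K * N → ∀ n : ℕ, K * (N : ℝ) ^ 2 ≤ n →
  Real.exp (-(K * (n / N * Real.log N ^ 2))) ≤ sml n (K * (n / N * (r : ℝ) ^ 2)) ∧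
  ∀ τ : ℝ, 0 ≤ τ → Real.exp (-(K * (n / N * (Real.log N ^ 2 + τ * (r : ℝ) ^ 2)))) ≤ ves n τ

/-- Module VEX: explicit bounds for the area -/
def StmVex : Prop := ∃ c : ℝ, 0 < c ∧
  (∀ᶠ τ in 𝓝[>] (0 : ℝ), ∀ᶠ n : ℕ in atTop,
    Real.exp (-(n * τ ^ (1 / 2 + c / Real.log (Real.log (1 / τ))))) ≤ ves n τ) ∧
  ∀ᶠ a : ℝ in atTop, ∀ᶠ n : ℕ in atTop,
    Real.exp (-(n * a ^ (-(1 + c / Real.log (Real.log a))))) ≤ sml n (a * n)

/-- Module VEO: the area if the correlation length has an exponent -/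
def StmVeo : Prop := ∀ θ : ℝ, 0 < θ → θ < 1 → MassLow θ → ∀ ε : ℝ, 0 < ε →
  (∀ᶠ τ in 𝓝[>] (0 : ℝ), ∀ᶠ n : ℕ in atTop,
    Real.exp (-(n * τ ^ (1 / (2 * θ) - ε))) ≤ ves n τ) ∧
  (1 / 2 < θ → ∀ᶠ a : ℝ in atTop, ∀ᶠ n : ℕ in atTop,
    Real.exp (-(n * a ^ (-(1 / (2 * θ - 1) - ε)))) ≤ sml n (a * n))

end Pool.Agent.T6.H53.CP
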