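import Pool.Agent.T6.H53.CP.Defs

/-!
Planar self-avoiding polygons in boxes: snakes made of walks in long thin boxes.
-/

set_option autoImplicit false

namespace Pool.Agent.T6.H53.CP

open Pool.Agent.TH795.EP Pool.Agent.TH795.EP2 Pool.Agent.TH795.SE2 Pool.Agent.TH262.SawL
  Pool.Agent.Y981.L2 H981 Finset Filter Topology Pool.Agent.T6.H53.WL Pool.Agent.T6.H53.AL

/-- a snake: `2 k` rows of height `h`, traversed alternately to the right and to the left, from the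
top row to the bottom row; the column `-1` is used only between the second row and the last but
one row -/
def Snk (h x k : ℕ) (w : List St) : Prop :=
  Saw w ∧ dx w = 0 ∧ dy w = -((2 * (k : ℤ) - 1) * (h + 1)) ∧
  (∀ i, -1 ≤ (path w i).1 ∧ (path w i).1 ≤ x + 1) ∧
  (∀ i, -((2 * (k : ℤ) - 1) * (h + 1) + h) ≤ (path w i).2 ∧ (path w i).2 ≤ 0) ∧
  ∀ i, (path w i).1 = -1 → -((2 * (k : ℤ) - 2) * (h + 1)) ≤ (path w i).2 ∧
    (path w i).2 ≤ -((h : ℤ) + 1)

/-- the number of the snakes made of `2 k` walks of length `m` -/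
noncomputable def snk (m h x k : ℕ) : ℕ := (fs (Snk h x k) (2 * k * m + (2 * k - 1) * (h + 3))).card

/-- Module SNK: walks in thin boxes can be joined to snakes -/
def StmSnk : Prop := ∀ m h x k : ℕ, 1 ≤ x → 1 ≤ k → sl m h x ^ (2 * k) ≤ snk m h x k

/-- Module CLS: a snake can be closed to a polygon -/
def StmCls : Prop := ∀ m h x k t : ℕ, 1 ≤ x → 1 ≤ k →
  snk m h x k ≤ bx (k * m + (2 * k - 1) * (h + 2) + 2 + t) (x + 3) (2 * k * (h + 1) + t)

/-- Assembly: polygons in boxes -/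
def StmBoxes : Prop := ∃ K : ℝ, 1 ≤ K ∧ ∀ N : ℕ, 2 ≤ N → ∀ r : ℕ,
  K * Real.log N ^ 2 ≤ r * mass (1 / (N : ℝ)) → r ≤ N → ∀ n : ℕ, K * (N : ℝ) ^ 2 ≤ n →
  ∀ L S : ℕ, K * (N * r) ≤ L → K * r ≤ S → K * (n / N * (r : ℝ) ^ 2) ≤ L * S →
    Real.exp (-(K * (n / N * Real.log N ^ 2))) ≤ (bx n L S : ℝ) / ln n

end Pool.Agent.T6.H53.CP
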