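import Mathlib

/-!
Elementary estimates for large numbers (modules XI, EXPL, EXPO, VEX, VEO).
-/

set_option autoImplicit false

namespace Pool.Agent.T6.H53.CP

open Filter Topology

/-- `log ^ 2` is smaller than a linear function -/
theorem ev_log_sq {a : ℝ} (ha : 0 < a) : ∀ᶠ L : ℝ in atTop, Real.log L ^ 2 ≤ a * L := by
  have h := (Real.isLittleO_pow_log_id_atTop (n := 2)).def ha
  filter_upwards [h, eventually_ge_atTop 0] with L hL hL0
  simp only [id, Real.norm_eq_abs] at hL
  rw [abs_of_nonneg hL0] at hL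
  exact (le_abs_self _).trans hL

/-- `b log L ≤ a L / log L` -/
theorem ev_log_div {a b : ℝ} (ha : 0 < a) (hb : 0 < b) :
    ∀ᶠ L : ℝ in atTop, b * Real.log L ≤ a * L / Real.log L := by
  filter_upwards [ev_log_sq (show 0 < a / b by positivity),
    Real.tendsto_log_atTop.eventually_gt_atTop 0] with L hL hl
  rw [le_div_iff₀ hl]
  calc b * Real.log L * Real.log L = b * Real.log L ^ 2 := by ring
    _ ≤ b * (a / b * L) := mul_le_mul_of_nonneg_left hL hb.le
    _ = a * L := by field_simp

/-- `b L ^ 2 ≤ exp (a L / log L)` -/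
theorem ev_exp_div {a : ℝ} (b : ℝ) (ha : 0 < a) :
    ∀ᶠ L : ℝ in atTop, b * L ^ 2 ≤ Real.exp (a * L / Real.log L) := by
  filter_upwards [ev_log_div ha (show (0 : ℝ) < 3 by norm_num),
    Real.tendsto_log_atTop.eventually_ge_atTop |b|, eventually_gt_atTop 0] with L hL hl hL0
  have h1 : |b| ≤ L := by
    have := Real.log_le_sub_one_of_pos hL0
    linarith
  have hl0 : 0 ≤ Real.log L := (abs_nonneg b).trans hl
  calc b * L ^ 2 ≤ L * L ^ 2 :=
        mul_le_mul_of_nonneg_right ((le_abs_self b).trans h1) (by positivity)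
    _ = Real.exp (3 * Real.log L) := by
        rw [show (3 : ℝ) * Real.log L = ((3 : ℕ) : ℝ) * Real.log L by norm_num, Real.exp_nat_mul,
          Real.exp_log hL0]
        ring
    _ ≤ _ := Real.exp_le_exp.2 hL

/-- `b L ^ 2 ≤ exp (a L)` -/
theorem ev_exp_lin {a : ℝ} (b : ℝ) (ha : 0 < a) :
    ∀ᶠ L : ℝ in atTop, b * L ^ 2 ≤ Real.exp (a * L) := by
  filter_upwards [ev_exp_div b ha, Real.tendsto_log_atTop.eventually_ge_atTop 1,
    eventually_gt_atTop 0] with L hL hl hL0
  refine hL.trans (Real.exp_le_exp.2 ?_)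
  exact div_le_self (by positivity) hl

/-- the logarithm of an integer -/
theorem tendsto_logN : Tendsto (fun k : ℕ => Real.log (k : ℝ)) atTop atTop :=
  Real.tendsto_log_atTop.comp tendsto_natCast_atTop_atTop

/-- the real power in terms of the logarithm -/
theorem rpow_loglog {x : ℝ} (hx : 0 < x) (c : ℝ) :
    x ^ (-(1 + c / Real.log (Real.log x))) =
      Real.exp (-Real.log x - c * Real.log x / Real.log (Real.log x)) := by
  rw [Real.rpow_def_of_pos hx]
  congr 1
  ring

/-- the floor is at least half -/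
theorem half_le_floor {x : ℝ} (hx : 2 ≤ x) : x / 2 ≤ (⌊x⌋₊ : ℝ) := by
  have := Nat.lt_floor_add_one x
  linarith

end Pool.Agent.T6.H53.CP
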