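import Pool.Agent.T6.H53.CP.Asm

/-!
Confined planar self-avoiding polygons: the width.
-/

set_option autoImplicit false

namespace Pool.Agent.T6.H53.CP

open Pool.Agent.TH795.EP Pool.Agent.TH795.EP2 Pool.Agent.TH795.SE2 Pool.Agent.TH262.SawL
  Pool.Agent.Y981.L2 H981 Finset Filter Topology Pool.Agent.T6.H53.WL Pool.Agent.T6.H53.AL

/-- the proportion of the polygons of perimeter `2 n` of width at most `r` -/
noncomputable def nrw (n : ℕ) (r : ℝ) : ℝ :=
  ({f : ZMod (2 * n) → ℤ × ℤ | IsLoop (2 * n) f ∧ (width (2 * n) f : ℝ) ≤ r}.ncard : ℝ) /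
    ({f : ZMod (2 * n) → ℤ × ℤ | IsLoop (2 * n) f}.ncard : ℝ)

theorem nrw_mono {n : ℕ} (hn : 1 ≤ n) {r s : ℝ} (h : r ≤ s) : nrw n r ≤ nrw n s := by
  unfold nrw
  apply div_le_div_of_nonneg_right _ (Nat.cast_nonneg _)
  have h1 : {f : ZMod (2 * n) → ℤ × ℤ | IsLoop (2 * n) f ∧ (width (2 * n) f : ℝ) ≤ r}.ncard ≤
      {f : ZMod (2 * n) → ℤ × ℤ | IsLoop (2 * n) f ∧ (width (2 * n) f : ℝ) ≤ s}.ncard := by
    apply Set.ncard_le_ncard _ ((loops_finite hn).subset fun _ hf => hf.1)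
    rintro f ⟨h1, h2⟩
    exact ⟨h1, h2.trans h⟩
  exact_mod_cast h1

theorem width_le_iff {n : ℕ} (hn : 1 ≤ n) {f : ZMod (2 * n) → ℤ × ℤ} (hf : IsLoop (2 * n) f)
    (k : ℕ) : width (2 * n) f ≤ k ↔ ∀ i j, (f i).1 - (f j).1 ≤ k := by
  constructor
  · intro h i j
    by_contra hcon
    have h1 := (le_width hn hf (k := k + 1) (by omega)).2 ⟨i, j, by push_cast; omega⟩
    omega
  · intro h
    by_contra hcon
    obtain ⟨i, j, hij⟩ := (le_width hn hf (k := k + 1) (by omega)).1 (by omega)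
    have := h i j
    push_cast at hij
    omega

theorem nrw_eq {n : ℕ} (hn : 1 ≤ n) (k : ℕ) : nrw n k = (nar n k : ℝ) / ln n := by
  unfold nrw nar ln
  congr 2
  apply congrArg
  ext f
  simp only [Set.mem_ofPred_eq, Nat.cast_le]
  constructor
  · rintro ⟨h1, h2⟩
    exact ⟨h1, (width_le_iff hn h1 k).1 h2⟩
  · rintro ⟨h1, h2⟩
    exact ⟨h1, (width_le_iff hn h1 k).2 h2⟩

theorem bx_le_nrw {n : ℕ} (hn : 1 ≤ n) (x : ℤ) (h : ℕ) : (bx n x h : ℝ) / ln n ≤ nrw n h := by
  rw [nrw_eq hn]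
  apply div_le_div_of_nonneg_right _ (Nat.cast_nonneg _)
  have h1 : bx n x h ≤ nar n h := by
    unfold bx nar
    refine Set.ncard_le_ncard_of_injOn swp ?_ ?_ ((loops_finite hn).subset fun _ hf => hf.1)
    · rintro f ⟨h1, h2⟩
      exact ⟨swp_loop h1, fun i j => (h2 i j).2⟩
    · intro f _ g _ hfg
      have := congrArg swp hfg
      simpa [swp_swp] using this
  exact_mod_cast h1

/-- Lower bound in terms of the correlation length. -/
theorem low (hB : StmBox) (hC : StmChn) (hS : StmSide) (hL : StmLoop)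
    (hX : ∀ ε : ℝ, 0 < ε → ∀ᶠ N : ℕ in atTop, Real.log N ^ 2 / mass (1 / (N : ℝ)) ≤ ε * N) :
    ∃ C : ℝ, 1 ≤ C ∧ ∀ N : ℕ, 2 ≤ N → ∀ n : ℕ, C * (N : ℝ) ^ 2 ≤ n → ∀ k : ℝ,
      C * (Real.log N ^ 2 / mass (1 / (N : ℝ))) ≤ k →
      Real.exp (-(C * (n / N * Real.log N ^ 2))) ≤ nrw n k := by
  obtain ⟨K, hK1, hb⟩ := hB
  obtain ⟨K2, hK2, hln⟩ := ln_le
  have hmu := mu_pos
  have hmu1 := one_le_mu
  have hlm0 : 0 ≤ Real.log mu := Real.log_nonneg hmu1
  have hm1 : 0 < mass 1 := mass_pos one_pos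
  obtain ⟨K', hK'⟩ : ∃ K' : ℝ, K' = K + 10 * mass 1 := ⟨_, rfl⟩
  have hK'0 : 0 < K' := by linarith
  obtain ⟨N0, hN0⟩ := eventually_atTop.1 (hX (K / (2 * K')) (by positivity))
  obtain ⟨C, hC'⟩ : ∃ C : ℝ, C = 20 * K' + 5 + (2 * Real.log mu + K2 * 4) * (3 * (N0 + 2)) :=
    ⟨_, rfl⟩
  have hN00 : (0 : ℝ) ≤ N0 := Nat.cast_nonneg _
  have hC20 : 20 * K' + 5 ≤ C := by
    rw [hC']
    have : 0 ≤ (2 * Real.log mu + K2 * 4) * (3 * ((N0 : ℝ) + 2)) := by positivity
    linarith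
  refine ⟨C, by linarith, ?_⟩
  intro N hN n hn k hk
  have hN2 : (2 : ℝ) ≤ N := by exact_mod_cast hN
  have hNpos : (0 : ℝ) < N := by linarith
  have hlN : 0.69 ≤ Real.log N := by
    have := log_ge hN
    linarith [Real.log_two_gt_d9]
  have hlN2 : 0.47 ≤ Real.log N ^ 2 := by nlinarith
  have hmN : 0 < mass (1 / (N : ℝ)) := mass_pos (by positivity)
  have hmN1 : mass (1 / (N : ℝ)) ≤ mass 1 := by
    apply mass_mono (by positivity)
    rw [div_le_one hNpos]
    linarith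
  set L : ℝ := Real.log N ^ 2 / mass (1 / (N : ℝ)) with hLdef
  have hL0 : 0 < L := by positivity
  have hL1 : 0.47 / mass 1 ≤ L := by
    rw [hLdef]
    exact div_le_div₀ (by positivity) hlN2 hmN hmN1
  have hKL : 4.7 ≤ K' * L := by
    have h1 : 10 * mass 1 * (0.47 / mass 1) ≤ K' * L :=
      mul_le_mul (by linarith) hL1 (by positivity) hK'0.le
    have h2 : 10 * mass 1 * (0.47 / mass 1) = 4.7 := by
      field_simp
      norm_num
    linarith
  have hNN : (4 : ℝ) ≤ (N : ℝ) ^ 2 := by nlinarith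
  have hCn : C * 4 ≤ n := (mul_le_mul_of_nonneg_left hNN (by linarith)).trans hn
  have hn100 : (20 : ℝ) ≤ n := by linarith
  have hn20 : 20 ≤ n := by exact_mod_cast hn100
  have hn0 : (0 : ℝ) < n := by linarith
  set T : ℝ := n / N * Real.log N ^ 2 with hT
  have hT0 : 0 < T := by positivity
  rcases le_or_gt N0 N with hcase | hcase
  · -- large blocks
    have h1 := hN0 N hcase
    obtain ⟨r, hr⟩ : ∃ r : ℕ, r = ⌈K' * L⌉₊ := ⟨_, rfl⟩
    have hr1 : K' * L ≤ r := by rw [hr]; exact Nat.le_ceil _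
    have hr2 : (r : ℝ) ≤ K' * L + 1 := by rw [hr]; exact (Nat.ceil_lt_add_one (by positivity)).le
    have hr3 : K * Real.log N ^ 2 ≤ r * mass (1 / (N : ℝ)) := by
      have h2 : K' * Real.log N ^ 2 = K' * L * mass (1 / (N : ℝ)) := by
        rw [hLdef]
        field_simp
      calc K * Real.log N ^ 2 ≤ K' * Real.log N ^ 2 :=
            mul_le_mul_of_nonneg_right (by linarith) (by positivity)
        _ = K' * L * mass (1 / (N : ℝ)) := h2
        _ ≤ _ := mul_le_mul_of_nonneg_right hr1 hmN.le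
    have hr4 : (r : ℝ) ≤ K * N := by
      have h2 : K' * L ≤ K / 2 * N := by
        have h3 := mul_le_mul_of_nonneg_left h1 hK'0.le
        have h4 : K' * (K / (2 * K') * N) = K / 2 * N := by field_simp
        rw [h4] at h3
        exact h3
      have h5 : 1 * 2 ≤ K * N := mul_le_mul hK1 hN2 (by norm_num) (by linarith)
      linarith
    have hKC : K ≤ C := by linarith
    obtain ⟨x, hx1, hx2⟩ := hb N hN r hr3 hr4 n
      ((mul_le_mul_of_nonneg_right hKC (by positivity)).trans hn)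
    have h6 : Real.exp (-(C * T)) ≤ Real.exp (-(K * T)) := by
      apply Real.exp_le_exp.2
      have := mul_le_mul_of_nonneg_right hKC hT0.le
      linarith
    refine h6.trans (hx2.trans ?_)
    have h7 := bx_le_nrw (n := n) (by omega) x (10 * r)
    have h8 : (((10 * r : ℕ) : ℤ)) = 10 * (r : ℤ) := by push_cast; ring
    rw [h8] at h7
    refine h7.trans (nrw_mono (by omega) ?_)
    push_cast
    have h9 : 20 * (K' * L) ≤ C * L := by
      have := mul_le_mul_of_nonneg_right (show 20 * K' ≤ C by linarith) hL0.le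
      linarith
    linarith
  · -- small blocks: one polygon is enough
    obtain ⟨x, hx1, hxn, hbx⟩ := Asm.one_le_bx hC hS hL (n := n) (by omega)
    obtain ⟨hl0, hl1⟩ := hln n (by omega)
    have h1 := bx_le_nrw (n := n) (by omega) x 3
    have h2 : (1 : ℝ) / ln n ≤ (bx n x ((3 : ℕ) : ℤ) : ℝ) / ln n := by
      apply div_le_div_of_nonneg_right _ hl0.le
      exact_mod_cast hbx
    have h3 : (3 : ℝ) ≤ k := by
      have : 20 * (K' * L) ≤ C * L := by
        have := mul_le_mul_of_nonneg_right (show 20 * K' ≤ C by linarith) hL0.le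
        linarith
      linarith
    refine le_trans ?_ (h2.trans (h1.trans (nrw_mono (by omega) (by exact_mod_cast h3))))
    rw [le_div_iff₀ hl0]
    calc Real.exp (-(C * T)) * (ln n : ℝ) ≤ Real.exp (-(C * T)) * (mu ^ (2 * n) * q n K2) :=
          mul_le_mul_of_nonneg_left hl1 (Real.exp_pos _).le
      _ = Real.exp (-(C * T) + (2 * n * Real.log mu + K2 * Real.log n ^ 2)) := by
          rw [Real.exp_add, Real.exp_add]
          congr 2
          rw [← Real.exp_log (pow_pos hmu (2 * n)), Real.log_pow]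
          push_cast
          rfl
      _ ≤ Real.exp 0 := by
          apply Real.exp_le_exp.2
          have g1 : Real.log n ^ 2 ≤ 4 * n := by
            have g2 : Real.log n ≤ (n : ℝ) ^ (1 / 2 : ℝ) / (1 / 2) :=
              Real.log_le_rpow_div hn0.le (by norm_num)
            have g3 : 0 ≤ Real.log n := Real.log_nonneg (by linarith)
            have g4 : ((n : ℝ) ^ (1 / 2 : ℝ)) ^ 2 = n := by
              rw [← Real.rpow_natCast, ← Real.rpow_mul hn0.le]
              norm_num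
            calc Real.log n ^ 2 ≤ ((n : ℝ) ^ (1 / 2 : ℝ) / (1 / 2)) ^ 2 :=
                  pow_le_pow_left₀ g3 g2 2
              _ = 4 * ((n : ℝ) ^ (1 / 2 : ℝ)) ^ 2 := by ring
              _ = _ := by rw [g4]
          have g5 : (n : ℝ) ≤ 3 * (N0 + 2) * T := by
            have g6 : (N : ℝ) ≤ N0 + 2 := by
              have : (N : ℝ) ≤ N0 := by exact_mod_cast hcase.le
              linarith
            have g7 : (n : ℝ) / N * 0.47 ≤ T := by
              rw [hT]
              exact mul_le_mul_of_nonneg_left hlN2 (by positivity)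
            have g8 : (n : ℝ) = N * (n / N) := by field_simp
            have g9 : 0 < (n : ℝ) / N := by positivity
            calc (n : ℝ) = N * (n / N) := g8
              _ ≤ (N0 + 2) * (n / N) := mul_le_mul_of_nonneg_right g6 g9.le
              _ ≤ (N0 + 2) * (3 * T) := by
                  apply mul_le_mul_of_nonneg_left _ (by positivity)
                  linarith
              _ = _ := by ring
          have g10 : 2 * n * Real.log mu + K2 * Real.log n ^ 2 ≤
              (2 * Real.log mu + K2 * 4) * n := by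
            have := mul_le_mul_of_nonneg_left g1 hK2
            linarith
          have g11 : (2 * Real.log mu + K2 * 4) * n ≤
              (2 * Real.log mu + K2 * 4) * (3 * (N0 + 2) * T) :=
            mul_le_mul_of_nonneg_left g5 (by positivity)
          have g12 : (2 * Real.log mu + K2 * 4) * (3 * (N0 + 2)) * T ≤ C * T := by
            apply mul_le_mul_of_nonneg_right _ hT0.le
            rw [hC']
            linarith
          linarith
      _ = 1 := Real.exp_zero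

/-- Explicit lower bound. -/
theorem low_expl (hB : StmBox) (hE : StmExpl) : ∃ c : ℝ, 0 < c ∧ ∀ᶠ k : ℕ in atTop,
    ∀ᶠ n : ℕ in atTop,
      Real.exp (-(n * (k : ℝ) ^ (-(1 + c / Real.log (Real.log k))))) ≤ nrw n k := by
  obtain ⟨K, hK1, hb⟩ := hB
  obtain ⟨c, hc, he⟩ := hE K hK1
  refine ⟨c, hc, he.mono ?_⟩
  rintro k ⟨N, r, hN, hrk, hrN, hr, hcost⟩
  filter_upwards [eventually_ge_atTop (⌈K * (N : ℝ) ^ 2⌉₊ + 1)] with n hn
  have h1 : K * (N : ℝ) ^ 2 ≤ n :=
    (Nat.le_ceil _).trans (by exact_mod_cast (by omega : ⌈K * (N : ℝ) ^ 2⌉₊ ≤ n))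
  obtain ⟨x, -, hx⟩ := hb N hN r hr hrN n h1
  have h2 := bx_le_nrw (n := n) (by omega) x (10 * r)
  have h8 : (((10 * r : ℕ) : ℤ)) = 10 * (r : ℤ) := by push_cast; ring
  rw [h8] at h2
  refine le_trans ?_ (hx.trans (h2.trans (nrw_mono (by omega) (by exact_mod_cast hrk))))
  apply Real.exp_le_exp.2
  apply neg_le_neg
  calc K * (n / N * Real.log N ^ 2) = n * (K / N * Real.log N ^ 2) := by ring
    _ ≤ _ := mul_le_mul_of_nonneg_left hcost (Nat.cast_nonneg _)

/-- Lower bound if the correlation length has an exponent. -/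
theorem low_expo (hB : StmBox) (hE : StmExpo) {θ : ℝ} (h0 : 0 < θ) (h1 : θ < 1)
    (hM : MassLow θ) {ε : ℝ} (hε : 0 < ε) : ∀ᶠ k : ℕ in atTop, ∀ᶠ n : ℕ in atTop,
      Real.exp (-(n * (k : ℝ) ^ (-(1 / θ - ε)))) ≤ nrw n k := by
  obtain ⟨K, hK1, hb⟩ := hB
  refine (hE K θ hK1 h0 h1 hM ε hε).mono ?_
  rintro k ⟨N, r, hN, hrk, hrN, hr, hcost⟩
  filter_upwards [eventually_ge_atTop (⌈K * (N : ℝ) ^ 2⌉₊ + 1)] with n hn
  have h1 : K * (N : ℝ) ^ 2 ≤ n :=
    (Nat.le_ceil _).trans (by exact_mod_cast (by omega : ⌈K * (N : ℝ) ^ 2⌉₊ ≤ n))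
  obtain ⟨x, -, hx⟩ := hb N hN r hr hrN n h1
  have h2 := bx_le_nrw (n := n) (by omega) x (10 * r)
  have h8 : (((10 * r : ℕ) : ℤ)) = 10 * (r : ℤ) := by push_cast; ring
  rw [h8] at h2
  refine le_trans ?_ (hx.trans (h2.trans (nrw_mono (by omega) (by exact_mod_cast hrk))))
  apply Real.exp_le_exp.2
  apply neg_le_neg
  calc K * (n / N * Real.log N ^ 2) = n * (K / N * Real.log N ^ 2) := by ring
    _ ≤ _ := mul_le_mul_of_nonneg_left hcost (Nat.cast_nonneg _)

/-- Upper bound for long polygons. -/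
theorem upp_lim (hU : StmUpp) {k : ℕ} (hk : 2 ≤ k) : ∀ᶠ n : ℕ in atTop,
    nrw n k ≤ Real.exp (-(n * R (1 / (k : ℝ)))) := by
  obtain ⟨C, hC, h⟩ := hU
  have hk0 : (0 : ℝ) < k := by exact_mod_cast (by omega : 0 < k)
  have hk2 : (2 : ℝ) ≤ k := by exact_mod_cast hk
  have hk1 : 1 / (k : ℝ) ≤ 1 := by
    rw [div_le_one hk0]
    linarith
  have hR : 0 < R (1 / (k : ℝ)) := R_pos (by positivity) hk1
  have hd : 0 < 2 / ((k : ℝ) + 1) - 1 / k := by
    rw [sub_pos, div_lt_div_iff₀ hk0 (by linarith)]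
    linarith
  obtain ⟨n0, hn0⟩ := exists_nat_gt (1 / (2 / ((k : ℝ) + 1) - 1 / k))
  have hlog := (log_sq_div.const_mul C)
  rw [mul_zero] at hlog
  filter_upwards [eventually_ge_atTop (n0 + k + 2), hlog.eventually (gt_mem_nhds hR)] with n hn hl
  have hn1 : (0 : ℝ) < n := by exact_mod_cast (by omega : 0 < n)
  have h1 := h n (by omega) k (by omega) (by omega)
  rw [nrw_eq (by omega)]
  refine h1.trans (Real.exp_le_exp.2 ?_)
  have h2 : 1 / (n : ℝ) ≤ 2 / ((k : ℝ) + 1) - 1 / k := by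
    have h3 : 1 / (2 / ((k : ℝ) + 1) - 1 / k) ≤ n :=
      hn0.le.trans (by exact_mod_cast (by omega : n0 ≤ n))
    rw [div_le_iff₀ hd] at h3
    rw [div_le_iff₀ hn1]
    linarith
  have h4 : 2 / ((k : ℝ) + 1) - 1 / n ≤ 1 := by
    have h5 : 2 / ((k : ℝ) + 1) ≤ 1 := by
      rw [div_le_one (by linarith)]
      linarith
    have h6 : 0 < 1 / (n : ℝ) := by positivity
    linarith
  have h7 : R (1 / (k : ℝ)) ≤ R (2 / ((k : ℝ) + 1) - 1 / n) :=
    R_mono (by positivity) (by linarith) h4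
  have h8 : C * Real.log n ^ 2 ≤ n * R (1 / (k : ℝ)) := by
    have h9 : C * Real.log n ^ 2 = n * (C * (Real.log n ^ 2 / n)) := by
      field_simp
    rw [h9]
    exact mul_le_mul_of_nonneg_left hl.le hn1.le
  have h10 : n * R (1 / (k : ℝ)) ≤ n * R (2 / ((k : ℝ) + 1) - 1 / n) :=
    mul_le_mul_of_nonneg_left h7 hn1.le
  linarith

end Pool.Agent.T6.H53.CP
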