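import Pool.Agent.T6.H53.CP.Defs
import Pool.Agent.T6.H53.CP.Ev

/-!
Module XI: the radius of the blocks is at most a multiple of their length.
-/

set_option autoImplicit false

namespace Pool.Agent.T6.H53.CP

open Pool.Agent.TH795.EP Pool.Agent.TH795.EP2 Pool.Agent.TH795.SE2 Pool.Agent.TH262.SawL
  Pool.Agent.Y981.L2 H981 Finset Filter Topology Pool.Agent.T6.H53.WL Pool.Agent.T6.H53.AL

/-- lower bound of the inverse correlation length at `1 / N` -/
theorem mass_ge : ∃ c : ℝ, 0 < c ∧ ∀ᶠ N : ℕ in atTop,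
    Real.exp (-Real.log N + c * Real.log N / Real.log (Real.log N)) ≤ mass (1 / (N : ℝ)) := by
  obtain ⟨c, hc, hm⟩ := Pool.Agent.Y981.L2X.le_mass
  refine ⟨c, hc, ?_⟩
  filter_upwards [ev_inv hm, eventually_ge_atTop 1] with N hN hN1
  have hN0 : (0 : ℝ) < N := by exact_mod_cast hN1
  refine le_trans (le_of_eq ?_) hN
  rw [Real.rpow_def_of_pos (by positivity), one_div_one_div, one_div, Real.log_inv]
  congr 1
  ring

/-- the radius of the blocks is much smaller than their length -/
theorem xi_ev {ε : ℝ} (hε : 0 < ε) : ∀ᶠ N : ℕ in atTop,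
    Real.log N ^ 2 / mass (1 / (N : ℝ)) ≤ ε * N := by
  obtain ⟨c, hc, hm⟩ := mass_ge
  filter_upwards [hm, tendsto_logN.eventually (ev_exp_div (1 / ε) hc), eventually_ge_atTop 1]
    with N hN hE hN1
  have hN0 : (0 : ℝ) < N := by exact_mod_cast hN1
  rw [div_le_iff₀ (mass_pos (by positivity))]
  calc Real.log N ^ 2 = ε * (1 / ε * Real.log N ^ 2) := by field_simp
    _ ≤ ε * Real.exp (c * Real.log N / Real.log (Real.log N)) :=
        mul_le_mul_of_nonneg_left hE hε.le
    _ = ε * N * Real.exp (-Real.log N + c * Real.log N / Real.log (Real.log N)) := by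
        rw [Real.exp_add, Real.exp_neg, Real.exp_log hN0]
        field_simp
    _ ≤ _ := mul_le_mul_of_nonneg_left hN (by positivity)

theorem xi1 : StmXi := by
  obtain ⟨c, hc, hm⟩ := mass_ge
  have h1 : ∀ᶠ N : ℕ in atTop, Real.log N ^ 2 / mass (1 / (N : ℝ)) ≤ N := by
    filter_upwards [hm, tendsto_logN.eventually (ev_exp_div 1 hc), eventually_ge_atTop 1]
      with N hN hE hN1
    have hN0 : (0 : ℝ) < N := by exact_mod_cast hN1
    rw [div_le_iff₀ (mass_pos (by positivity))]
    calc Real.log N ^ 2 ≤ Real.exp (c * Real.log N / Real.log (Real.log N)) := by linarith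
      _ = N * Real.exp (-Real.log N + c * Real.log N / Real.log (Real.log N)) := by
          rw [Real.exp_add, Real.exp_neg, Real.exp_log hN0]
          field_simp
      _ ≤ _ := mul_le_mul_of_nonneg_left hN hN0.le
  obtain ⟨N0, hN0⟩ := eventually_atTop.1 h1
  refine ⟨1 + Real.log N0 ^ 2, by nlinarith [sq_nonneg (Real.log N0)], fun N hN => ?_⟩
  have hN2 : (2 : ℝ) ≤ N := by exact_mod_cast hN
  have hNp : (0 : ℝ) < N := by linarith
  rcases le_total N0 N with h | h
  · have := hN0 N h
    nlinarith [sq_nonneg (Real.log N0)]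
  · have h2 : Real.log N ≤ Real.log N0 := Real.log_le_log hNp (by exact_mod_cast h)
    have h3 : 0 ≤ Real.log N := Real.log_nonneg (by linarith)
    have h4 : Real.log N ^ 2 ≤ Real.log N0 ^ 2 := pow_le_pow_left₀ h3 h2 2
    have h5 : 1 / (N : ℝ) ≤ mass (1 / (N : ℝ)) := self_le_mass (by positivity)
    calc Real.log N ^ 2 / mass (1 / (N : ℝ)) ≤ Real.log N ^ 2 / (1 / (N : ℝ)) :=
          div_le_div_of_nonneg_left (by positivity) (by positivity) h5
      _ = Real.log N ^ 2 * N := by field_simp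
      _ ≤ Real.log N0 ^ 2 * N := mul_le_mul_of_nonneg_right h4 hNp.le
      _ ≤ _ := by nlinarith

end Pool.Agent.T6.H53.CP
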