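import Pool.Agent.T6.H53.CP.Fin
import Pool.Agent.T6.H53.CP.Xi
import Pool.Agent.Y981.L2X.High

/-!
Confined planar self-avoiding polygons: the width, in terms of the two-point function.
-/

set_option autoImplicit false

namespace Pool.Agent.T6.H53.CP

open Pool.Agent.TH795.EP Pool.Agent.TH795.EP2 Pool.Agent.TH795.SE2 Pool.Agent.TH262.SawL
  Pool.Agent.Y981.L2 H981 Finset Filter Topology Pool.Agent.T6.H53.WL Pool.Agent.T6.H53.AL

theorem xi_exp (N : ℕ) : xi (Real.exp (-(1 / (N : ℝ))) / mu) = 1 / mass (1 / (N : ℝ)) := by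
  unfold xi
  rw [e_z]

/-- the correlation length in the lower bound -/
theorem low' (hB : StmBox) (hC : StmChn) (hS : StmSide) (hL : StmLoop)
    (hX : ∀ ε : ℝ, 0 < ε → ∀ᶠ N : ℕ in atTop, Real.log N ^ 2 / mass (1 / (N : ℝ)) ≤ ε * N) :
    ∃ C : ℝ, 1 ≤ C ∧ ∀ N : ℕ, 2 ≤ N → ∀ n : ℕ, C * (N : ℝ) ^ 2 ≤ n → ∀ k : ℝ,
      C * (Real.log N ^ 2 * xi (Real.exp (-(1 / (N : ℝ))) / mu)) ≤ k →
      Real.exp (-(C * (n / N * Real.log N ^ 2))) ≤ nrw n k := by
  obtain ⟨C, hC1, h⟩ := low hB hC hS hL hX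
  refine ⟨C, hC1, fun N hN n hn k hk => h N hN n hn k ?_⟩
  rwa [xi_exp, mul_one_div] at hk

/-- the upper bound in the form `k ^ (- C log log k)` -/
theorem upp_expl (hU : StmUpp) : ∃ C : ℝ, 0 < C ∧ ∀ᶠ k : ℕ in atTop, ∀ᶠ n : ℕ in atTop,
    nrw n k ≤ Real.exp (-(n * (k : ℝ) ^ (-(C * Real.log (Real.log k))))) := by
  obtain ⟨C, hC1, h⟩ := R_lower
  refine ⟨C * 4, by linarith, ?_⟩
  have hl : Tendsto (fun k : ℕ => Real.log (k : ℝ)) atTop atTop :=
    Real.tendsto_log_atTop.comp tendsto_natCast_atTop_atTop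
  have hll : Tendsto (fun k : ℕ => Real.log (Real.log (k : ℝ))) atTop atTop :=
    Real.tendsto_log_atTop.comp hl
  filter_upwards [eventually_ge_atTop 2, hl.eventually_ge_atTop 1,
    hll.eventually_ge_atTop (1 + Real.log 2)] with k hk h1 h2
  have hk0 : (0 : ℝ) < k := by exact_mod_cast (by omega : 0 < k)
  have hk1 : (1 : ℝ) ≤ k := by exact_mod_cast (by omega : 1 ≤ k)
  filter_upwards [upp_lim hU hk] with n hn
  refine hn.trans (Real.exp_le_exp.2 (neg_le_neg ?_))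
  apply mul_le_mul_of_nonneg_left _ (Nat.cast_nonneg _)
  refine le_trans ?_ (h (1 / k) (by positivity) (by rw [div_le_one hk0]; exact hk1))
  rw [Real.rpow_def_of_pos hk0]
  apply Real.exp_le_exp.2
  have e1 : Real.log (1 / (1 / (k : ℝ))) = Real.log k := by rw [one_div_one_div]
  unfold Yv
  rw [e1]
  have h3 : Real.log (1 + Real.log k) ≤ Real.log 2 + Real.log (Real.log k) := by
    rw [← Real.log_mul (by norm_num) (by linarith)]
    apply Real.log_le_log (by linarith)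
    linarith
  have h4 : 0 ≤ Real.log (1 + Real.log k) := Real.log_nonneg (by linarith)
  have h5 : 0 ≤ Real.log 2 := Real.log_nonneg (by norm_num)
  have h6 : (1 + Real.log k) * (1 + Real.log (1 + Real.log k)) ≤
      (2 * Real.log k) * (2 * Real.log (Real.log k)) := by
    apply mul_le_mul (by linarith) (by linarith) (by linarith) (by linarith)
  nlinarith [mul_le_mul_of_nonneg_left h6 (show 0 ≤ C by linarith)]

/-- the lower bound with the exponent of the correlation length -/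
theorem low_expo' (hB : StmBox) (hE : StmExpo) {θ : ℝ} (h0 : 0 < θ) (h1 : θ < 1)
    (hM : ∀ ε : ℝ, 0 < ε → ∀ᶠ z in 𝓝[<] (1 / mu), xi z ≤ (1 / mu - z) ^ (-(θ + ε)))
    {ε : ℝ} (hε : 0 < ε) : ∀ᶠ k : ℕ in atTop, ∀ᶠ n : ℕ in atTop,
      Real.exp (-(n * (k : ℝ) ^ (-(1 / θ - ε)))) ≤ nrw n k :=
  low_expo hB hE h0 h1 ((xi_upper θ h0).2 hM) hε

end Pool.Agent.T6.H53.CP
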