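import Pool.Agent.T6.H53.CP.Defs2
import Pool.Agent.T6.H53.CP.MainW
import Pool.Agent.T6.H53.CP.Vex

/-!
Planar self-avoiding polygons in boxes: bounds in terms of the correlation length, squares.
-/

set_option autoImplicit false

namespace Pool.Agent.T6.H53.CP

open Pool.Agent.TH795.EP Pool.Agent.TH795.EP2 Pool.Agent.TH795.SE2 Pool.Agent.TH262.SawL
  Pool.Agent.Y981.L2 H981 Finset Filter Topology Pool.Agent.T6.H53.WL Pool.Agent.T6.H53.AL

/-- the height (vertical extent) of a loop -/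
noncomputable def hgt (m : ℕ) (f : ZMod m → ℤ × ℤ) : ℕ :=
  sSup {w : ℕ | ∃ i j, w = ((f i).2 - (f j).2).natAbs}

/-- the proportion of the polygons of perimeter `2 n` of width at most `W` and height at most
`H` -/
noncomputable def bxp (n : ℕ) (W H : ℝ) : ℝ :=
  ({f : ZMod (2 * n) → ℤ × ℤ | IsLoop (2 * n) f ∧ (width (2 * n) f : ℝ) ≤ W ∧
    (hgt (2 * n) f : ℝ) ≤ H}.ncard : ℝ) /
    ({f : ZMod (2 * n) → ℤ × ℤ | IsLoop (2 * n) f}.ncard : ℝ)

theorem bxp_mono {n : ℕ} (hn : 1 ≤ n) {W H W' H' : ℝ} (hW : W ≤ W') (hH : H ≤ H') :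
    bxp n W H ≤ bxp n W' H' := by
  unfold bxp
  apply div_le_div_of_nonneg_right _ (Nat.cast_nonneg _)
  apply Nat.cast_le.2
  apply Set.ncard_le_ncard _ ((loops_finite hn).subset fun _ hf => hf.1)
  rintro f ⟨h1, h2, h3⟩
  exact ⟨h1, h2.trans hW, h3.trans hH⟩

theorem hgt_le_iff {n : ℕ} (hn : 1 ≤ n) {f : ZMod (2 * n) → ℤ × ℤ} (hf : IsLoop (2 * n) f)
    (k : ℕ) : hgt (2 * n) f ≤ k ↔ ∀ i j, (f i).2 - (f j).2 ≤ k :=
  width_le_iff hn (swp_loop hf) k

theorem bxp_eq {n : ℕ} (hn : 1 ≤ n) (W H : ℕ) : bxp n W H = (bx n W H : ℝ) / ln n := by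
  unfold bxp bx ln
  congr 2
  apply congrArg
  ext f
  simp only [Set.mem_ofPred_eq, Nat.cast_le]
  constructor
  · rintro ⟨h1, h2, h3⟩
    exact ⟨h1, fun i j => ⟨(width_le_iff hn h1 W).1 h2 i j, (hgt_le_iff hn h1 H).1 h3 i j⟩⟩
  · rintro ⟨h1, h2⟩
    exact ⟨h1, (width_le_iff hn h1 W).2 fun i j => (h2 i j).1,
      (hgt_le_iff hn h1 H).2 fun i j => (h2 i j).2⟩

/-- boxes with real sides -/
theorem bxp_real (hB : StmBoxes) : ∃ K : ℝ, 1 ≤ K ∧ ∀ N : ℕ, 2 ≤ N → ∀ r : ℕ,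
    K * Real.log N ^ 2 ≤ r * mass (1 / (N : ℝ)) → r ≤ N → ∀ n : ℕ, K * (N : ℝ) ^ 2 ≤ n →
    ∀ W H : ℝ, K * (N * r) ≤ W → K * r ≤ H → K * (n / N * (r : ℝ) ^ 2) ≤ W * H →
      Real.exp (-(K * (n / N * Real.log N ^ 2))) ≤ bxp n W H := by
  obtain ⟨K, hK1, h⟩ := hB
  refine ⟨4 * K, by linarith, ?_⟩
  intro N hN r hr hrN n hn W H hW hH hWH
  have hN2 : (2 : ℝ) ≤ N := by exact_mod_cast hN
  have hN0 : (0 : ℝ) < N := by linarith
  have hl : 0 < Real.log N := Real.log_pos (by linarith)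
  have hr0 : (0 : ℝ) ≤ r := Nat.cast_nonneg _
  have hr1 : 1 ≤ r := by
    by_contra hcon
    have h0 : r = 0 := by omega
    rw [h0] at hr
    have : 0 < 4 * K * Real.log N ^ 2 := by positivity
    simp only [Nat.cast_zero, zero_mul] at hr
    linarith
  have hr1' : (1 : ℝ) ≤ r := by exact_mod_cast hr1
  have hNr : (2 : ℝ) * 1 ≤ N * r := mul_le_mul hN2 hr1' (by norm_num) hN0.le
  have hK0 : 0 < K := by linarith
  have hW1 : 1 ≤ W := by
    have : 1 * 2 ≤ K * (N * r) := mul_le_mul hK1 (by linarith) (by norm_num) hK0.le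
    linarith
  have hH1 : 1 ≤ H := by
    have : 1 * 1 ≤ K * r := mul_le_mul hK1 hr1' (by norm_num) hK0.le
    linarith
  have hn1 : (1 : ℝ) ≤ n := by
    have h1 : 1 * 1 ≤ K * (N : ℝ) ^ 2 := by
      apply mul_le_mul hK1 _ (by norm_num) hK0.le
      nlinarith
    linarith
  have hn1' : 1 ≤ n := by exact_mod_cast hn1
  have hWf := Vx.floor_ge_half hW1
  have hHf := Vx.floor_ge_half hH1
  have hlN : 0 ≤ Real.log N ^ 2 := by positivity
  have hnN : 0 ≤ (n : ℝ) / N := by positivity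
  have h1 := h N hN r (by nlinarith) hrN n
    (by have : 0 ≤ K * (N : ℝ) ^ 2 := by positivity
        linarith) ⌊W⌋₊ ⌊H⌋₊
    (by have : 0 ≤ K * (N * (r : ℝ)) := by positivity
        linarith)
    (by have : 0 ≤ K * (r : ℝ) := by positivity
        linarith)
    (by have h2 : W / 2 * (H / 2) ≤ (⌊W⌋₊ : ℝ) * ⌊H⌋₊ :=
          mul_le_mul hWf hHf (by linarith) (Nat.cast_nonneg _)
        linarith)
  rw [← bxp_eq hn1'] at h1
  refine le_trans (Real.exp_le_exp.2 (neg_le_neg ?_)) (h1.trans (bxp_mono hn1'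
    (Nat.floor_le (by linarith)) (Nat.floor_le (by linarith))))
  exact mul_le_mul_of_nonneg_right (by linarith) (by positivity)

/-- The bounds in terms of the correlation length, for large blocks. -/
theorem box_big (hB : StmBoxes) : ∃ C : ℝ, 1 ≤ C ∧ ∃ N0 : ℕ, 2 ≤ N0 ∧ ∀ N : ℕ, N0 ≤ N →
    ∀ n : ℕ, C * (N : ℝ) ^ 2 ≤ n → ∀ W H : ℝ,
    C * (N * (Real.log N ^ 2 / mass (1 / (N : ℝ)))) ≤ W →
    C * (Real.log N ^ 2 / mass (1 / (N : ℝ))) ≤ H →
    C * (n / N * (Real.log N ^ 2 / mass (1 / (N : ℝ))) ^ 2) ≤ W * H →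
    Real.exp (-(C * (n / N * Real.log N ^ 2))) ≤ bxp n W H := by
  obtain ⟨K, hK1, hv⟩ := bxp_real hB
  have hm1 : 0 < mass 1 := mass_pos one_pos
  obtain ⟨K', hK'⟩ : ∃ K' : ℝ, K' = K + 10 * mass 1 := ⟨_, rfl⟩
  have hK'0 : 0 < K' := by linarith
  have hK'1 : 1 ≤ K' := by linarith
  have hKK' : K ≤ K' := by linarith
  have hK0 : 0 < K := by linarith
  obtain ⟨N0, hN0⟩ := eventually_atTop.1 (xi_ev (show 0 < 1 / (2 * K') by positivity))
  refine ⟨4 * K * K' ^ 2, by nlinarith [mul_pos hK0 hK'0], max N0 2, le_max_right _ _, ?_⟩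
  intro N hN n hn W H hW hH hWH
  have hN1 : N0 ≤ N := (le_max_left _ _).trans hN
  have hN2' : 2 ≤ N := (le_max_right _ _).trans hN
  have hN2 : (2 : ℝ) ≤ N := by exact_mod_cast hN2'
  have hNpos : (0 : ℝ) < N := by linarith
  have hlN : 0.69 ≤ Real.log N := by
    have : Real.log 2 ≤ Real.log N := Real.log_le_log (by norm_num) hN2
    linarith [Real.log_two_gt_d9]
  have hlN2 : 0.47 ≤ Real.log N ^ 2 := by
    have h1 : (0.69 : ℝ) * 0.69 ≤ Real.log N * Real.log N :=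
      mul_le_mul hlN hlN (by norm_num) (by linarith)
    rw [sq]
    linarith
  have hmN : 0 < mass (1 / (N : ℝ)) := mass_pos (by positivity)
  have hmN1 : mass (1 / (N : ℝ)) ≤ mass 1 := by
    apply mass_mono (by positivity)
    rw [div_le_one hNpos]
    linarith
  have h1 := hN0 N hN1
  obtain ⟨L, hLdef⟩ : ∃ L, L = Real.log N ^ 2 / mass (1 / (N : ℝ)) := ⟨_, rfl⟩
  rw [← hLdef] at h1 hW hH hWH
  have hL0 : 0 < L := by rw [hLdef]; positivity
  have hL1 : 0.47 / mass 1 ≤ L := by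
    rw [hLdef]
    exact div_le_div₀ (by positivity) hlN2 hmN hmN1
  have hKL : 4.7 ≤ K' * L := by
    have h1 : 10 * mass 1 * (0.47 / mass 1) ≤ K' * L :=
      mul_le_mul (by linarith) hL1 (by positivity) hK'0.le
    have h2 : 10 * mass 1 * (0.47 / mass 1) = 4.7 := by
      field_simp
      norm_num
    linarith
  obtain ⟨r, hr⟩ : ∃ r : ℕ, r = ⌈K' * L⌉₊ := ⟨_, rfl⟩
  have hr1 : K' * L ≤ r := by rw [hr]; exact Nat.le_ceil _
  have hr2 : (r : ℝ) ≤ K' * L + 1 := by rw [hr]; exact (Nat.ceil_lt_add_one (by positivity)).le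
  have hr3 : K * Real.log N ^ 2 ≤ r * mass (1 / (N : ℝ)) := by
    have h2 : K' * Real.log N ^ 2 = K' * L * mass (1 / (N : ℝ)) := by
      rw [hLdef]
      field_simp
    calc K * Real.log N ^ 2 ≤ K' * Real.log N ^ 2 :=
          mul_le_mul_of_nonneg_right (by linarith) (by positivity)
      _ = K' * L * mass (1 / (N : ℝ)) := h2
      _ ≤ _ := mul_le_mul_of_nonneg_right hr1 hmN.le
  have hr4 : r ≤ N := by
    have h2 : K' * L ≤ 1 / 2 * N := by
      have h3 := mul_le_mul_of_nonneg_left h1 hK'0.le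
      have h4 : K' * (1 / (2 * K') * N) = 1 / 2 * N := by field_simp
      rw [h4] at h3
      exact h3
    have h5 : (r : ℝ) ≤ N := by linarith
    exact_mod_cast h5
  have hr6 : (r : ℝ) ≤ 2 * (K' * L) := by linarith
  have hr5 : (r : ℝ) ^ 2 ≤ 4 * K' ^ 2 * L ^ 2 := by
    calc (r : ℝ) ^ 2 ≤ (2 * (K' * L)) ^ 2 := pow_le_pow_left₀ (Nat.cast_nonneg _) hr6 2
      _ = _ := by ring
  have hKK : 1 * K' ≤ K' * K' := mul_le_mul_of_nonneg_right hK'1 hK'0.le
  have hCK : K * (2 * K') ≤ 4 * K * K' ^ 2 := by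
    have := mul_le_mul_of_nonneg_left hKK hK0.le
    rw [sq]
    nlinarith [mul_pos hK0 hK'0]
  have hCK1 : K ≤ 4 * K * K' ^ 2 := by
    have h2 : K * 1 ≤ K * (2 * K') := mul_le_mul_of_nonneg_left (by linarith) hK0.le
    linarith
  have hn' : K * (N : ℝ) ^ 2 ≤ n := (mul_le_mul_of_nonneg_right hCK1 (by positivity)).trans hn
  have hnN : 0 ≤ (n : ℝ) / N := by positivity
  refine le_trans (Real.exp_le_exp.2 (neg_le_neg ?_)) (hv N hN2' r hr3 hr4 n hn' W H ?_ ?_ ?_)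
  · exact mul_le_mul_of_nonneg_right hCK1 (by positivity)
  · refine le_trans ?_ hW
    calc K * (N * (r : ℝ)) ≤ K * (N * (2 * (K' * L))) := by
          apply mul_le_mul_of_nonneg_left _ hK0.le
          exact mul_le_mul_of_nonneg_left hr6 hNpos.le
      _ = K * (2 * K') * (N * L) := by ring
      _ ≤ _ := mul_le_mul_of_nonneg_right hCK (by positivity)
  · refine le_trans ?_ hH
    calc K * (r : ℝ) ≤ K * (2 * (K' * L)) := mul_le_mul_of_nonneg_left hr6 hK0.le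
      _ = K * (2 * K') * L := by ring
      _ ≤ _ := mul_le_mul_of_nonneg_right hCK hL0.le
  · refine le_trans ?_ hWH
    calc K * (n / N * (r : ℝ) ^ 2) ≤ K * (n / N * (4 * K' ^ 2 * L ^ 2)) := by
          apply mul_le_mul_of_nonneg_left _ hK0.le
          exact mul_le_mul_of_nonneg_left hr5 hnN
      _ = _ := by ring

/-- The bounds in terms of the correlation length. -/
theorem box_all (hB : StmBoxes) : ∃ C : ℝ, 1 ≤ C ∧ ∀ N : ℕ, 2 ≤ N → ∀ n : ℕ,
    C * (N : ℝ) ^ 2 ≤ n → ∀ W H : ℝ,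
    C * (N * (Real.log N ^ 2 * xi (Real.exp (-(1 / (N : ℝ))) / mu))) ≤ W →
    C * (Real.log N ^ 2 * xi (Real.exp (-(1 / (N : ℝ))) / mu)) ≤ H →
    C * (n / N * (Real.log N ^ 2 * xi (Real.exp (-(1 / (N : ℝ))) / mu)) ^ 2) ≤ W * H →
    Real.exp (-(C * (n / N * Real.log N ^ 2))) ≤ bxp n W H := by
  obtain ⟨C, hC1, N0, hN0, hv⟩ := box_big hB
  have hm1 : 0 < mass 1 := mass_pos one_pos
  have hN02 : (2 : ℝ) ≤ N0 := by exact_mod_cast hN0
  have hN0p : (0 : ℝ) < N0 := by linarith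
  have hmN0 : 0 < mass (1 / (N0 : ℝ)) := mass_pos (by positivity)
  obtain ⟨L0, hL0⟩ : ∃ L0 : ℝ, L0 = Real.log N0 ^ 2 / mass (1 / (N0 : ℝ)) := ⟨_, rfl⟩
  have hL00 : 0 ≤ L0 := by rw [hL0]; positivity
  obtain ⟨a, ha⟩ : ∃ a : ℝ, a = 0.47 / mass 1 := ⟨_, rfl⟩
  have ha0 : 0 < a := by rw [ha]; positivity
  have hC0 : 0 < C := by linarith
  obtain ⟨D, hD⟩ : ∃ D : ℝ, D = C * (N0 : ℝ) ^ 2 + C * (Real.log N0 ^ 2 / 0.47) +
    C * (L0 ^ 2 / a ^ 2) + C * (N0 * L0 / a) := ⟨_, rfl⟩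
  have p1 : 0 ≤ C * (N0 : ℝ) ^ 2 := by positivity
  have p2 : 0 ≤ C * (Real.log N0 ^ 2 / 0.47) := by positivity
  have p3 : 0 ≤ C * (L0 ^ 2 / a ^ 2) := by positivity
  have p4 : 0 ≤ C * (N0 * L0 / a) := by positivity
  have hD1 : C * (N0 : ℝ) ^ 2 ≤ D := by rw [hD]; linarith
  have hD2 : C * (Real.log N0 ^ 2 / 0.47) ≤ D := by rw [hD]; linarith
  have hD3 : C * (L0 ^ 2 / a ^ 2) ≤ D := by rw [hD]; linarith
  have hD4 : C * (N0 * L0 / a) ≤ D := by rw [hD]; linarith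
  have hCD : C ≤ D := by
    have : C * 1 ≤ C * (N0 : ℝ) ^ 2 := mul_le_mul_of_nonneg_left (by nlinarith) (by linarith)
    linarith
  have hD0 : 0 < D := by linarith
  refine ⟨D, by linarith, ?_⟩
  intro N hN n hn W H hW hH hWH
  have hN2 : (2 : ℝ) ≤ N := by exact_mod_cast hN
  have hNpos : (0 : ℝ) < N := by linarith
  have hlN : 0.69 ≤ Real.log N := by
    have : Real.log 2 ≤ Real.log N := Real.log_le_log (by norm_num) hN2
    linarith [Real.log_two_gt_d9]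
  have hlN2 : 0.47 ≤ Real.log N ^ 2 := by
    have h1 : (0.69 : ℝ) * 0.69 ≤ Real.log N * Real.log N :=
      mul_le_mul hlN hlN (by norm_num) (by linarith)
    rw [sq]
    linarith
  have hmN : 0 < mass (1 / (N : ℝ)) := mass_pos (by positivity)
  have hmN1 : mass (1 / (N : ℝ)) ≤ mass 1 := by
    apply mass_mono (by positivity)
    rw [div_le_one hNpos]
    linarith
  rw [xi_exp, mul_one_div] at hW hH hWH
  obtain ⟨L, hLdef⟩ : ∃ L, L = Real.log N ^ 2 / mass (1 / (N : ℝ)) := ⟨_, rfl⟩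
  rw [← hLdef] at hW hH hWH
  have hL0' : 0 < L := by rw [hLdef]; positivity
  have hL1 : a ≤ L := by
    rw [hLdef, ha]
    exact div_le_div₀ (by positivity) hlN2 hmN hmN1
  have hNN : (1 : ℝ) ≤ (N : ℝ) ^ 2 := by nlinarith
  have hnD : D ≤ n := by
    have : D * 1 ≤ D * (N : ℝ) ^ 2 := mul_le_mul_of_nonneg_left hNN hD0.le
    linarith
  have hn0 : (0 : ℝ) < n := by linarith
  rcases le_or_gt N0 N with hcase | hcase
  · have hn' : C * (N : ℝ) ^ 2 ≤ n := (mul_le_mul_of_nonneg_right hCD (by positivity)).trans hn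
    have h1 := hv N hcase n hn' W H
    rw [← hLdef] at h1
    refine le_trans (Real.exp_le_exp.2 (neg_le_neg ?_)) (h1 ?_ ?_ ?_)
    · exact mul_le_mul_of_nonneg_right hCD (by positivity)
    · exact (mul_le_mul_of_nonneg_right hCD (by positivity)).trans hW
    · exact (mul_le_mul_of_nonneg_right hCD (by positivity)).trans hH
    · exact (mul_le_mul_of_nonneg_right hCD (by positivity)).trans hWH
  · have hn' : C * (N0 : ℝ) ^ 2 ≤ n := hD1.trans hnD
    have h1 := hv N0 le_rfl n hn' W H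
    rw [← hL0] at h1
    have hNN0 : (n : ℝ) / N0 ≤ n / N :=
      div_le_div_of_nonneg_left hn0.le hNpos (by exact_mod_cast hcase.le)
    have g1 : C * (Real.log N0 ^ 2) ≤ D * Real.log N ^ 2 := by
      calc C * (Real.log N0 ^ 2) = C * (Real.log N0 ^ 2 / 0.47) * 0.47 := by ring
        _ ≤ D * Real.log N ^ 2 := mul_le_mul hD2 hlN2 (by norm_num) hD0.le
    have g2 : C * L0 ^ 2 ≤ D * L ^ 2 := by
      have h3 : a ^ 2 ≤ L ^ 2 := pow_le_pow_left₀ ha0.le hL1 2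
      calc C * L0 ^ 2 = C * (L0 ^ 2 / a ^ 2) * a ^ 2 := by
            field_simp
        _ ≤ D * L ^ 2 := mul_le_mul hD3 h3 (by positivity) hD0.le
    have g3 : C * (N0 * L0) ≤ D * L := by
      calc C * (N0 * L0) = C * (N0 * L0 / a) * a := by
            field_simp
        _ ≤ D * L := mul_le_mul hD4 hL1 ha0.le hD0.le
    refine le_trans (Real.exp_le_exp.2 (neg_le_neg ?_)) (h1 ?_ ?_ ?_)
    · calc C * (n / N0 * Real.log N0 ^ 2) = n / N0 * (C * Real.log N0 ^ 2) := by ring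
        _ ≤ n / N * (D * Real.log N ^ 2) :=
            mul_le_mul hNN0 g1 (by positivity) (by positivity)
        _ = _ := by ring
    · refine le_trans (g3.trans ?_) hW
      apply mul_le_mul_of_nonneg_left _ hD0.le
      exact le_mul_of_one_le_left hL0'.le (by linarith)
    · refine le_trans ?_ (g3.trans hH)
      apply mul_le_mul_of_nonneg_left _ hC0.le
      exact le_mul_of_one_le_left hL00 (by linarith)
    · refine le_trans ?_ hWH
      calc C * (n / N0 * L0 ^ 2) = n / N0 * (C * L0 ^ 2) := by ring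
        _ ≤ n / N * (D * L ^ 2) := mul_le_mul hNN0 g2 (by positivity) (by positivity)
        _ = _ := by ring

/-- squares of area `b n` -/
theorem sq_core (hB : StmBoxes) : ∃ K : ℝ, 1 ≤ K ∧ ∃ X0 : ℝ, 0 < X0 ∧ ∀ N : ℕ, 2 ≤ N →
    K / N * Real.log N ^ 2 ≤ X0 → ∀ r : ℕ, K * Real.log N ^ 2 ≤ r * mass (1 / (N : ℝ)) →
    ∀ b : ℝ, 0 < b → K / N * (r : ℝ) ^ 2 ≤ b → ∀ᶠ n : ℕ in atTop,
      Real.exp (-(K * (n / N * Real.log N ^ 2))) ≤ bxp n (Real.sqrt (b * n)) (Real.sqrt (b * n)) := by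
  obtain ⟨K, hK1, h⟩ := bxp_real hB
  have hK0 : 0 < K := by linarith
  obtain ⟨N0, hN0⟩ := eventually_atTop.1 (xi_ev (show 0 < 1 / K by positivity))
  refine ⟨K, hK1, 0.47 / (N0 + 1), by positivity, ?_⟩
  intro N hN hX r hr b hb hrb
  have hN2 : (2 : ℝ) ≤ N := by exact_mod_cast hN
  have hNpos : (0 : ℝ) < N := by linarith
  have hlN : 0.69 ≤ Real.log N := by
    have : Real.log 2 ≤ Real.log N := Real.log_le_log (by norm_num) hN2
    linarith [Real.log_two_gt_d9]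
  have hlN2 : 0.47 ≤ Real.log N ^ 2 := by
    have h1 : (0.69 : ℝ) * 0.69 ≤ Real.log N * Real.log N :=
      mul_le_mul hlN hlN (by norm_num) (by linarith)
    rw [sq]
    linarith
  have hmN : 0 < mass (1 / (N : ℝ)) := mass_pos (by positivity)
  -- `N` is large
  have hNN0 : N0 ≤ N := by
    have h1 : 0.47 / (N : ℝ) ≤ 0.47 / (N0 + 1) := by
      refine le_trans ?_ hX
      have h2 : 0.47 / (N : ℝ) ≤ Real.log N ^ 2 / N := div_le_div_of_nonneg_right hlN2 hNpos.le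
      have h3 : 1 * (Real.log N ^ 2 / N) ≤ K * (Real.log N ^ 2 / N) :=
        mul_le_mul_of_nonneg_right hK1 (by positivity)
      have h4 : K / N * Real.log N ^ 2 = K * (Real.log N ^ 2 / N) := by ring
      linarith
    have h2 : (N0 : ℝ) + 1 ≤ N := by
      rw [div_le_div_iff₀ hNpos (by positivity)] at h1
      linarith
    have h3 : (N0 : ℝ) ≤ N := by linarith
    exact_mod_cast h3
  -- the radius can be taken at most `N`
  obtain ⟨s, hs⟩ : ∃ s : ℕ, s = min r N := ⟨_, rfl⟩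
  have hsr : s ≤ r := by rw [hs]; exact min_le_left _ _
  have hsN : s ≤ N := by rw [hs]; exact min_le_right _ _
  have hsm : K * Real.log N ^ 2 ≤ s * mass (1 / (N : ℝ)) := by
    rcases min_choice r N with h1 | h1
    · rw [hs, h1]
      exact hr
    · rw [hs, h1]
      have h2 := hN0 N hNN0
      rw [div_le_iff₀ hmN] at h2
      have h3 := mul_le_mul_of_nonneg_left h2 hK0.le
      have h4 : K * (1 / K * N * mass (1 / (N : ℝ))) = N * mass (1 / (N : ℝ)) := by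
        field_simp
      rw [h4] at h3
      exact h3
  have hsr' : (s : ℝ) ≤ r := by exact_mod_cast hsr
  have hs2 : K / N * (s : ℝ) ^ 2 ≤ b := by
    refine le_trans ?_ hrb
    apply mul_le_mul_of_nonneg_left _ (by positivity)
    exact pow_le_pow_left₀ (Nat.cast_nonneg _) hsr' 2
  have hlim : Tendsto (fun n : ℕ => Real.sqrt (b * n)) atTop atTop :=
    Real.tendsto_sqrt_atTop.comp (tendsto_natCast_atTop_atTop.const_mul_atTop hb)
  filter_upwards [tendsto_natCast_atTop_atTop.eventually_ge_atTop (K * (N : ℝ) ^ 2),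
    hlim.eventually_ge_atTop (K * (N * s)), hlim.eventually_ge_atTop (K * s)] with n h1 h2 h3
  refine h N hN s hsm hsN n h1 _ _ h2 h3 ?_
  rw [Real.mul_self_sqrt (by positivity)]
  calc K * (n / N * (s : ℝ) ^ 2) = K / N * (s : ℝ) ^ 2 * n := by ring
    _ ≤ b * n := mul_le_mul_of_nonneg_right hs2 (Nat.cast_nonneg _)

/-- squares, explicit bound -/
theorem sq_expl (hB : StmBoxes) (hE : StmExpl) : ∃ c : ℝ, 0 < c ∧ ∀ᶠ b : ℝ in atTop,
    ∀ᶠ n : ℕ in atTop, Real.exp (-(n * b ^ (-(1 + c / Real.log (Real.log b))))) ≤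
      bxp n (Real.sqrt (b * n)) (Real.sqrt (b * n)) := by
  obtain ⟨K, hK, X0, hX0, hV⟩ := sq_core hB
  obtain ⟨c, hc, hX⟩ := hE K hK
  have hK0 : 0 ≤ K := by linarith
  refine ⟨c / 8, by positivity, ?_⟩
  have hsmall : ∀ᶠ b : ℝ in atTop, b ^ (-(1 + c / 8 / Real.log (Real.log b))) ≤ X0 := by
    have h1 : ∀ᶠ b : ℝ in atTop, 0 ≤ c / 8 / Real.log (Real.log b) := by
      filter_upwards [Vx.ll_tendsto.eventually_ge_atTop 1] with b hb
      positivity
    filter_upwards [h1, eventually_ge_atTop 1, eventually_ge_atTop (1 / X0)] with b h2 h3 h4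
    have h5 : b ^ (-(1 + c / 8 / Real.log (Real.log b))) ≤ b ^ (-(1 : ℝ)) :=
      Real.rpow_le_rpow_of_exponent_le h3 (by linarith)
    refine h5.trans ?_
    rw [Real.rpow_neg_one]
    rw [inv_le_comm₀ (by linarith) hX0]
    rwa [one_div] at h4
  filter_upwards [Vx.vex_ii hc, (Vx.vex_floor_tendsto hc).eventually hX, eventually_ge_atTop 1,
    hsmall] with a h1 h2 h3 h3'
  obtain ⟨N, r, hN, hr, hrN, hm, hx⟩ := h2
  have h4 := hx.trans h1.2
  have h5 : K / N * (r : ℝ) ^ 2 ≤ a := by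
    have h6 := (Vx.core_sml (n := 1) hK0 hN hr hx).trans
      (mul_le_mul_of_nonneg_right h1.1 (Nat.cast_nonneg 1))
    have h7 : K * (((1 : ℕ) : ℝ) / N * (r : ℝ) ^ 2) = K / N * (r : ℝ) ^ 2 := by
      push_cast
      ring
    rw [h7] at h6
    simpa using h6
  filter_upwards [hV N hN (h4.trans h3') r hm a (by linarith) h5] with n hn
  refine le_trans (Real.exp_le_exp.2 (neg_le_neg ?_)) hn
  calc K * (n / N * Real.log N ^ 2) = n * (K / N * Real.log N ^ 2) := by ring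
    _ ≤ n * a ^ (-(1 + c / 8 / Real.log (Real.log a))) :=
      mul_le_mul_of_nonneg_left h4 (Nat.cast_nonneg n)

/-- squares, if the correlation length has an exponent -/
theorem sq_expo (hB : StmBoxes) (hE : StmExpo) {θ : ℝ} (hθ : 0 < θ) (hθ1 : θ < 1)
    (hM : MassLow θ) {ε : ℝ} (hε : 0 < ε) (hθ2 : 1 / 2 < θ) : ∀ᶠ b : ℝ in atTop,
    ∀ᶠ n : ℕ in atTop, Real.exp (-(n * b ^ (-(1 / (2 * θ - 1) - ε)))) ≤
      bxp n (Real.sqrt (b * n)) (Real.sqrt (b * n)) := by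
  obtain ⟨K, hK, X0, hX0, hV⟩ := sq_core hB
  have hK0 : 0 ≤ K := by linarith
  -- it is enough to treat small `ε`
  obtain ⟨δ, hδ0, hδε, hδ1⟩ : ∃ δ : ℝ, 0 < δ ∧ δ ≤ ε ∧ 0 < 1 / (2 * θ - 1) - δ := by
    have h1 : 0 < 1 / (2 * θ - 1) := by
      apply one_div_pos.2
      linarith
    refine ⟨min ε (1 / (2 * θ - 1) / 2), lt_min hε (by linarith), min_le_left _ _, ?_⟩
    have := min_le_right ε (1 / (2 * θ - 1) / 2)
    linarith
  obtain ⟨s, hs0, hs1, hs2⟩ := Vx.veo_choice hθ2 hδ0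
  have hX := hE K θ hK hθ hθ1 hM (1 / θ - s) (by linarith)
  have hs3 : s < 2 := by
    refine hs1.trans ?_
    rw [div_lt_iff₀ hθ]
    linarith
  have h2s : 0 < 2 - s := by linarith
  have e0 : 1 / θ - (1 / θ - s) = s := by ring
  rw [e0] at hX
  have hsmall : ∀ᶠ b : ℝ in atTop, b ^ (-(1 / (2 * θ - 1) - δ)) ≤ X0 :=
    (tendsto_rpow_neg_atTop hδ1).eventually (ge_mem_nhds hX0)
  filter_upwards [Vx.veo_ii hs0 hs3 hs2,
    (Vx.pow_floor_tendsto (b := 1 / (2 - s)) (by positivity)).eventually hX, hsmall,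
    eventually_ge_atTop 1] with a h1 h2 h3' h3
  obtain ⟨N, r, hN, hr, hrN, hm, hx⟩ := h2
  have h4 := hx.trans h1.2
  have h5 : K / N * (r : ℝ) ^ 2 ≤ a := by
    have h6 := (Vx.core_sml (n := 1) hK0 hN hr hx).trans
      (mul_le_mul_of_nonneg_right h1.1 (Nat.cast_nonneg 1))
    have h7 : K * (((1 : ℕ) : ℝ) / N * (r : ℝ) ^ 2) = K / N * (r : ℝ) ^ 2 := by
      push_cast
      ring
    rw [h7] at h6
    simpa using h6
  filter_upwards [hV N hN (h4.trans h3') r hm a (by linarith) h5] with n hn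
  refine le_trans (Real.exp_le_exp.2 (neg_le_neg ?_)) hn
  calc K * (n / N * Real.log N ^ 2) = n * (K / N * Real.log N ^ 2) := by ring
    _ ≤ n * a ^ (-(1 / (2 * θ - 1) - δ)) :=
      mul_le_mul_of_nonneg_left h4 (Nat.cast_nonneg n)
    _ ≤ n * a ^ (-(1 / (2 * θ - 1) - ε)) := by
      apply mul_le_mul_of_nonneg_left _ (Nat.cast_nonneg n)
      exact Real.rpow_le_rpow_of_exponent_le h3 (by linarith)

end Pool.Agent.T6.H53.CP
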