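import Pool.Agent.T6.H53.CP.MainW

/-!
Confined planar self-avoiding polygons: the area, in terms of the correlation length.
-/

set_option autoImplicit false

namespace Pool.Agent.T6.H53.CP

open Pool.Agent.TH795.EP Pool.Agent.TH795.EP2 Pool.Agent.TH795.SE2 Pool.Agent.TH262.SawL
  Pool.Agent.Y981.L2 H981 Finset Filter Topology Pool.Agent.T6.H53.WL Pool.Agent.T6.H53.AL

theorem sml_le' {n : ℕ} (hn : 1 ≤ n) {r s : ℝ} (h : r ≤ s) : sml n r ≤ sml n s := by
  unfold sml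
  apply div_le_div_of_nonneg_right _ (Nat.cast_nonneg _)
  have h1 : {f : ZMod (2 * n) → ℤ × ℤ | IsLoop (2 * n) f ∧ (area (2 * n) f : ℝ) ≤ r}.ncard ≤
      {f : ZMod (2 * n) → ℤ × ℤ | IsLoop (2 * n) f ∧ (area (2 * n) f : ℝ) ≤ s}.ncard := by
    apply Set.ncard_le_ncard _ ((loops_finite hn).subset fun _ hf => hf.1)
    rintro f ⟨h1, h2⟩
    exact ⟨h1, h2.trans h⟩
  exact_mod_cast h1

/-- The bounds of the area in terms of the correlation length, for large blocks. -/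
theorem ves_big (hV : StmVes) : ∃ C : ℝ, 1 ≤ C ∧ ∃ N0 : ℕ, 2 ≤ N0 ∧ ∀ N : ℕ, N0 ≤ N → ∀ n : ℕ,
    C * (N : ℝ) ^ 2 ≤ n →
    Real.exp (-(C * (n / N * Real.log N ^ 2))) ≤
      sml n (C * (n / N * (Real.log N ^ 2 / mass (1 / (N : ℝ))) ^ 2)) ∧
    ∀ τ : ℝ, 0 ≤ τ → Real.exp (-(C * (n / N * (Real.log N ^ 2 +
      τ * (Real.log N ^ 2 / mass (1 / (N : ℝ))) ^ 2)))) ≤ ves n τ := by
  obtain ⟨K, hK1, hv⟩ := hV
  have hm1 : 0 < mass 1 := mass_pos one_pos
  obtain ⟨K', hK'⟩ : ∃ K' : ℝ, K' = K + 10 * mass 1 := ⟨_, rfl⟩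
  have hK'0 : 0 < K' := by linarith
  have hKK' : K ≤ K' := by linarith
  obtain ⟨N0, hN0⟩ := eventually_atTop.1 (xi_ev (show 0 < K / (2 * K') by positivity))
  refine ⟨4 * K * K' ^ 2 + K, by nlinarith [sq_nonneg K'], max N0 2, le_max_right _ _, ?_⟩
  intro N hN n hn
  have hN1 : N0 ≤ N := (le_max_left _ _).trans hN
  have hN2' : 2 ≤ N := (le_max_right _ _).trans hN
  have hN2 : (2 : ℝ) ≤ N := by exact_mod_cast hN2'
  have hNpos : (0 : ℝ) < N := by linarith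
  have hlN : 0.69 ≤ Real.log N := by
    have : Real.log 2 ≤ Real.log N := Real.log_le_log (by norm_num) hN2
    linarith [Real.log_two_gt_d9]
  have hlN2 : 0.47 ≤ Real.log N ^ 2 := by nlinarith
  have hmN : 0 < mass (1 / (N : ℝ)) := mass_pos (by positivity)
  have hmN1 : mass (1 / (N : ℝ)) ≤ mass 1 := by
    apply mass_mono (by positivity)
    rw [div_le_one hNpos]
    linarith
  have h1 := hN0 N hN1
  set L : ℝ := Real.log N ^ 2 / mass (1 / (N : ℝ)) with hLdef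
  have hL0 : 0 < L := by positivity
  have hL1 : 0.47 / mass 1 ≤ L := by
    rw [hLdef]
    exact div_le_div₀ (by positivity) hlN2 hmN hmN1
  have hKL : 4.7 ≤ K' * L := by
    have h1 : 10 * mass 1 * (0.47 / mass 1) ≤ K' * L :=
      mul_le_mul (by linarith) hL1 (by positivity) hK'0.le
    have h2 : 10 * mass 1 * (0.47 / mass 1) = 4.7 := by
      field_simp
      norm_num
    linarith
  obtain ⟨r, hr⟩ : ∃ r : ℕ, r = ⌈K' * L⌉₊ := ⟨_, rfl⟩
  have hr1 : K' * L ≤ r := by rw [hr]; exact Nat.le_ceil _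
  have hr2 : (r : ℝ) ≤ K' * L + 1 := by rw [hr]; exact (Nat.ceil_lt_add_one (by positivity)).le
  have hr3 : K * Real.log N ^ 2 ≤ r * mass (1 / (N : ℝ)) := by
    have h2 : K' * Real.log N ^ 2 = K' * L * mass (1 / (N : ℝ)) := by
      rw [hLdef]
      field_simp
    calc K * Real.log N ^ 2 ≤ K' * Real.log N ^ 2 :=
          mul_le_mul_of_nonneg_right (by linarith) (by positivity)
      _ = K' * L * mass (1 / (N : ℝ)) := h2
      _ ≤ _ := mul_le_mul_of_nonneg_right hr1 hmN.le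
  have hr4 : (r : ℝ) ≤ K * N := by
    have h2 : K' * L ≤ K / 2 * N := by
      have h3 := mul_le_mul_of_nonneg_left h1 hK'0.le
      have h4 : K' * (K / (2 * K') * N) = K / 2 * N := by field_simp
      rw [h4] at h3
      exact h3
    have h5 : 1 * 2 ≤ K * N := mul_le_mul hK1 hN2 (by norm_num) (by linarith)
    linarith
  have hr5 : (r : ℝ) ^ 2 ≤ 4 * K' ^ 2 * L ^ 2 := by
    have : (r : ℝ) ≤ 2 * (K' * L) := by linarith
    calc (r : ℝ) ^ 2 ≤ (2 * (K' * L)) ^ 2 := pow_le_pow_left₀ (Nat.cast_nonneg _) this 2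
      _ = _ := by ring
  have hCK : K ≤ 4 * K * K' ^ 2 + K := by nlinarith [sq_nonneg K', mul_nonneg (show (0:ℝ) ≤ K by linarith) (sq_nonneg K')]
  have hNN : (0 : ℝ) < (N : ℝ) ^ 2 := by positivity
  have hn' : K * (N : ℝ) ^ 2 ≤ n := (mul_le_mul_of_nonneg_right hCK hNN.le).trans hn
  obtain ⟨h2, h3⟩ := hv N hN2' r hr3 hr4 n hn'
  have hn0 : (0 : ℝ) < n := lt_of_lt_of_le (mul_pos (by linarith) hNN) hn'
  have hn1 : 1 ≤ n := by
    have : 0 < n := by exact_mod_cast hn0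
    exact this
  have hnN : 0 < (n : ℝ) / N := by positivity
  have hL2 : 0 ≤ L ^ 2 := by positivity
  have hrr : K * (r : ℝ) ^ 2 ≤ (4 * K * K' ^ 2 + K) * L ^ 2 := by
    have h4 := mul_le_mul_of_nonneg_left hr5 (show 0 ≤ K by linarith)
    have h5 : 0 ≤ K * L ^ 2 := mul_nonneg (by linarith) hL2
    calc K * (r : ℝ) ^ 2 ≤ K * (4 * K' ^ 2 * L ^ 2) := h4
      _ ≤ K * (4 * K' ^ 2 * L ^ 2) + K * L ^ 2 := by linarith
      _ = _ := by ring
  constructor
  · refine le_trans (Real.exp_le_exp.2 (neg_le_neg ?_)) (h2.trans (sml_le' hn1 ?_))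
    · exact mul_le_mul_of_nonneg_right hCK (by positivity)
    · calc K * (n / N * (r : ℝ) ^ 2) = n / N * (K * (r : ℝ) ^ 2) := by ring
        _ ≤ n / N * ((4 * K * K' ^ 2 + K) * L ^ 2) := mul_le_mul_of_nonneg_left hrr hnN.le
        _ = _ := by ring
  · intro τ hτ
    refine le_trans (Real.exp_le_exp.2 (neg_le_neg ?_)) (h3 τ hτ)
    have h4 : K * Real.log N ^ 2 ≤ (4 * K * K' ^ 2 + K) * Real.log N ^ 2 :=
      mul_le_mul_of_nonneg_right hCK (by positivity)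
    have h5 := mul_le_mul_of_nonneg_left hrr hτ
    calc K * (n / N * (Real.log N ^ 2 + τ * (r : ℝ) ^ 2)) =
        n / N * (K * Real.log N ^ 2 + τ * (K * (r : ℝ) ^ 2)) := by ring
      _ ≤ n / N * ((4 * K * K' ^ 2 + K) * Real.log N ^ 2 + τ * ((4 * K * K' ^ 2 + K) * L ^ 2)) :=
          mul_le_mul_of_nonneg_left (by linarith) hnN.le
      _ = _ := by ring

/-- The bounds of the area in terms of the correlation length. -/
theorem ves_all (hV : StmVes) : ∃ C : ℝ, 1 ≤ C ∧ ∀ N : ℕ, 2 ≤ N → ∀ n : ℕ,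
    C * (N : ℝ) ^ 2 ≤ n →
    Real.exp (-(C * (n / N * Real.log N ^ 2))) ≤
      sml n (C * (n / N * (Real.log N ^ 2 * xi (Real.exp (-(1 / (N : ℝ))) / mu)) ^ 2)) ∧
    ∀ τ : ℝ, 0 ≤ τ → Real.exp (-(C * (n / N * (Real.log N ^ 2 +
      τ * (Real.log N ^ 2 * xi (Real.exp (-(1 / (N : ℝ))) / mu)) ^ 2)))) ≤ ves n τ := by
  obtain ⟨C, hC1, N0, hN0, hv⟩ := ves_big hV
  have hm1 : 0 < mass 1 := mass_pos one_pos
  have hN02 : (2 : ℝ) ≤ N0 := by exact_mod_cast hN0
  have hN0p : (0 : ℝ) < N0 := by linarith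
  have hmN0 : 0 < mass (1 / (N0 : ℝ)) := mass_pos (by positivity)
  obtain ⟨L0, hL0⟩ : ∃ L0 : ℝ, L0 = Real.log N0 ^ 2 / mass (1 / (N0 : ℝ)) := ⟨_, rfl⟩
  obtain ⟨D, hD⟩ : ∃ D : ℝ, D = C * (N0 : ℝ) ^ 2 + C * (Real.log N0 ^ 2 / 0.47) +
    C * (L0 ^ 2 / (0.47 / mass 1) ^ 2) := ⟨_, rfl⟩
  have hD1 : C * (N0 : ℝ) ^ 2 ≤ D := by
    rw [hD]
    have : 0 ≤ C * (Real.log N0 ^ 2 / 0.47) + C * (L0 ^ 2 / (0.47 / mass 1) ^ 2) := by positivity
    linarith
  have hD2 : C * (Real.log N0 ^ 2 / 0.47) ≤ D := by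
    rw [hD]
    have : 0 ≤ C * (N0 : ℝ) ^ 2 + C * (L0 ^ 2 / (0.47 / mass 1) ^ 2) := by positivity
    linarith
  have hD3 : C * (L0 ^ 2 / (0.47 / mass 1) ^ 2) ≤ D := by
    rw [hD]
    have : 0 ≤ C * (N0 : ℝ) ^ 2 + C * (Real.log N0 ^ 2 / 0.47) := by positivity
    linarith
  have hCD : C ≤ D := by
    have : C * 1 ≤ C * (N0 : ℝ) ^ 2 := mul_le_mul_of_nonneg_left (by nlinarith) (by linarith)
    linarith
  have hD0 : 0 < D := by linarith
  refine ⟨D, by linarith, ?_⟩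
  intro N hN n hn
  have hN2 : (2 : ℝ) ≤ N := by exact_mod_cast hN
  have hNpos : (0 : ℝ) < N := by linarith
  have hlN : 0.69 ≤ Real.log N := by
    have : Real.log 2 ≤ Real.log N := Real.log_le_log (by norm_num) hN2
    linarith [Real.log_two_gt_d9]
  have hlN2 : 0.47 ≤ Real.log N ^ 2 := by nlinarith
  have hmN : 0 < mass (1 / (N : ℝ)) := mass_pos (by positivity)
  have hmN1 : mass (1 / (N : ℝ)) ≤ mass 1 := by
    apply mass_mono (by positivity)
    rw [div_le_one hNpos]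
    linarith
  rw [xi_exp, mul_one_div]
  set L : ℝ := Real.log N ^ 2 / mass (1 / (N : ℝ)) with hLdef
  have hL0' : 0 < L := by positivity
  have hL1 : 0.47 / mass 1 ≤ L := by
    rw [hLdef]
    exact div_le_div₀ (by positivity) hlN2 hmN hmN1
  have hNN : (1 : ℝ) ≤ (N : ℝ) ^ 2 := by nlinarith
  have hnD : D ≤ n := by
    have : D * 1 ≤ D * (N : ℝ) ^ 2 := mul_le_mul_of_nonneg_left hNN hD0.le
    linarith
  have hn0 : (0 : ℝ) < n := by linarith
  have hn1 : 1 ≤ n := by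
    have : 0 < n := by exact_mod_cast hn0
    exact this
  rcases le_or_gt N0 N with hcase | hcase
  · have hn' : C * (N : ℝ) ^ 2 ≤ n := (mul_le_mul_of_nonneg_right hCD (by positivity)).trans hn
    obtain ⟨h1, h2⟩ := hv N hcase n hn'
    rw [← hLdef] at h1 h2
    constructor
    · refine le_trans (Real.exp_le_exp.2 (neg_le_neg ?_)) (h1.trans (sml_le' hn1 ?_))
      · exact mul_le_mul_of_nonneg_right hCD (by positivity)
      · exact mul_le_mul_of_nonneg_right hCD (by positivity)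
    · intro τ hτ
      refine le_trans (Real.exp_le_exp.2 (neg_le_neg ?_)) (h2 τ hτ)
      exact mul_le_mul_of_nonneg_right hCD (by positivity)
  · have hn' : C * (N0 : ℝ) ^ 2 ≤ n := hD1.trans hnD
    obtain ⟨h1, h2⟩ := hv N0 le_rfl n hn'
    rw [← hL0] at h1 h2
    have hNN0 : (n : ℝ) / N0 ≤ n / N :=
      div_le_div_of_nonneg_left hn0.le hNpos (by exact_mod_cast hcase.le)
    have g1 : C * (Real.log N0 ^ 2) ≤ D * Real.log N ^ 2 := by
      calc C * (Real.log N0 ^ 2) = C * (Real.log N0 ^ 2 / 0.47) * 0.47 := by ring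
        _ ≤ D * Real.log N ^ 2 := mul_le_mul hD2 hlN2 (by norm_num) hD0.le
    have g2 : C * L0 ^ 2 ≤ D * L ^ 2 := by
      have h3 : (0.47 / mass 1) ^ 2 ≤ L ^ 2 := pow_le_pow_left₀ (by positivity) hL1 2
      calc C * L0 ^ 2 = C * (L0 ^ 2 / (0.47 / mass 1) ^ 2) * (0.47 / mass 1) ^ 2 := by
            field_simp
        _ ≤ D * L ^ 2 := mul_le_mul hD3 h3 (by positivity) hD0.le
    constructor
    · refine le_trans (Real.exp_le_exp.2 (neg_le_neg ?_)) (h1.trans (sml_le' hn1 ?_))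
      · calc C * (n / N0 * Real.log N0 ^ 2) = n / N0 * (C * Real.log N0 ^ 2) := by ring
          _ ≤ n / N * (D * Real.log N ^ 2) :=
              mul_le_mul hNN0 g1 (by positivity) (by positivity)
          _ = _ := by ring
      · calc C * (n / N0 * L0 ^ 2) = n / N0 * (C * L0 ^ 2) := by ring
          _ ≤ n / N * (D * L ^ 2) := mul_le_mul hNN0 g2 (by positivity) (by positivity)
          _ = _ := by ring
    · intro τ hτ
      refine le_trans (Real.exp_le_exp.2 (neg_le_neg ?_)) (h2 τ hτ)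
      calc C * (n / N0 * (Real.log N0 ^ 2 + τ * L0 ^ 2)) =
          n / N0 * (C * Real.log N0 ^ 2 + τ * (C * L0 ^ 2)) := by ring
        _ ≤ n / N * (D * Real.log N ^ 2 + τ * (D * L ^ 2)) := by
            apply mul_le_mul hNN0 _ (by positivity) (by positivity)
            have := mul_le_mul_of_nonneg_left g2 hτ
            linarith
        _ = _ := by ring

end Pool.Agent.T6.H53.CP
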