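import Pool.Agent.T6.H53.CP.Defs

/-!
Confined planar self-avoiding polygons: a narrow polygon is high.
-/

set_option autoImplicit false

namespace Pool.Agent.T6.H53.CP

open Pool.Agent.TH795.EP Pool.Agent.TH795.EP2 Pool.Agent.TH795.SE2 Pool.Agent.TH262.SawL
  Pool.Agent.Y981.L2 H981 Finset Filter Topology Pool.Agent.T6.H53.WL Pool.Agent.T6.H53.AL

namespace Upp

theorem count {n : ℕ} (hn : 1 ≤ n) {f : ZMod (2 * n) → ℤ × ℤ} (hf : IsLoop (2 * n) f) {k H : ℕ}
    (h1 : ∀ i j, (f i).1 - (f j).1 ≤ k) (h2 : ∀ i j, (f i).2 - (f j).2 ≤ H) :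
    2 * n ≤ (k + 1) * (H + 1) := by
  have : NeZero (2 * n) := ⟨by omega⟩
  obtain ⟨i0, hi0⟩ := Finite.exists_min (fun i => (f i).1)
  obtain ⟨j0, hj0⟩ := Finite.exists_min (fun i => (f i).2)
  have h3 : (Finset.univ : Finset (ZMod (2 * n))).card ≤
      (Finset.Icc (f i0).1 ((f i0).1 + k) ×ˢ Finset.Icc (f j0).2 ((f j0).2 + H)).card := by
    apply Finset.card_le_card_of_injOn f
    · intro i _
      rw [Finset.mem_coe, Finset.mem_product, Finset.mem_Icc, Finset.mem_Icc]
      have a1 := hi0 i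
      have a2 := hj0 i
      have a3 := h1 i i0
      have a4 := h2 i j0
      omega
    · intro i _ j _ hij
      exact hf.2.1 hij
  rw [Finset.card_univ, ZMod.card, Finset.card_product, Int.card_Icc, Int.card_Icc] at h3
  have e1 : ((f i0).1 + k + 1 - (f i0).1).toNat = k + 1 := by omega
  have e2 : ((f j0).2 + H + 1 - (f j0).2).toNat = H + 1 := by omega
  rwa [e1, e2] at h3

end Upp

theorem upp : StmUpp := by
  obtain ⟨K, hK, h⟩ := pw_ldp
  refine ⟨K, hK, ?_⟩
  intro n hn k hk hkn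
  set k' : ℕ := (2 * n + k) / (k + 1) - 1 with hk'
  have hn0 : (0 : ℝ) < n := by exact_mod_cast (by omega : 0 < n)
  have hk0 : (0 : ℝ) < (k : ℝ) + 1 := by positivity
  have h1 : 2 ≤ (2 * n + k) / (k + 1) := by
    rw [Nat.le_div_iff_mul_le (by omega)]
    omega
  have h2 : (2 * n + k) / (k + 1) ≤ n := by
    rw [Nat.div_le_iff_le_mul_add_pred (by omega)]
    have : 2 * n ≤ (k + 1) * n := Nat.mul_le_mul_right n (by omega)
    omega
  have hk1 : 1 ≤ k' := by omega
  have hkn' : k' < n := by omega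
  obtain ⟨-, g⟩ := h n hn k' hk1 hkn'
  have hle : (nar n k : ℝ) / ln n ≤ pw n k' := by
    rw [pw_nat (by omega) hk1]
    apply div_le_div_of_nonneg_right _ (Nat.cast_nonneg _)
    have : nar n k ≤ wn n k' := by
      unfold nar wn
      refine Set.ncard_le_ncard_of_injOn swp ?_ ?_
        ((loops_finite (by omega : 1 ≤ n)).subset fun _ hf => hf.1)
      · rintro f ⟨hf, hw⟩
        refine ⟨swp_loop hf, ?_⟩
        by_contra hcon
        have hcon' : ∀ i j, (f i).2 - (f j).2 ≤ ((k' - 1 : ℕ) : ℤ) := by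
          intro i j
          by_contra h3
          apply hcon
          refine ⟨i, j, ?_⟩
          show (k' : ℤ) ≤ (f i).2 - (f j).2
          omega
        have h4 := Upp.count (by omega) hf hw hcon'
        have h5 : k' - 1 + 1 = k' := by omega
        rw [h5] at h4
        have h6 : (2 * n + k) / (k + 1) ≤ k' := by
          have h7 : 2 * n + k < (k + 1) * (k' + 1) := by
            rw [Nat.mul_succ]
            omega
          have h8 := Nat.div_lt_of_lt_mul h7
          omega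
        omega
      · intro f _ g _ hfg
        have := congrArg swp hfg
        simpa [swp_swp] using this
    exact_mod_cast this
  refine hle.trans (g.trans (Real.exp_le_exp.2 ?_))
  have h3 : 2 / ((k : ℝ) + 1) - 1 / n ≤ (k' : ℝ) / n := by
    have h4 : (2 * n : ℕ) ≤ (k + 1) * ((2 * n + k) / (k + 1)) := by
      have := Nat.div_add_mod (2 * n + k) (k + 1)
      have := Nat.mod_lt (2 * n + k) (by omega : 0 < k + 1)
      omega
    have h5 : (2 * n : ℝ) ≤ ((k : ℝ) + 1) * (k' + 1) := by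
      have h6 : (2 * n + k) / (k + 1) = k' + 1 := by omega
      rw [h6] at h4
      exact_mod_cast h4
    rw [div_sub_div _ _ hk0.ne' hn0.ne', div_le_div_iff₀ (by positivity) hn0]
    nlinarith
  have h4 : 0 ≤ 2 / ((k : ℝ) + 1) - 1 / n := by
    have h5 : ((k : ℝ) + 1) ≤ n := by exact_mod_cast hkn
    have h6 : 1 / (n : ℝ) ≤ 1 / ((k : ℝ) + 1) := one_div_le_one_div_of_le hk0 h5
    have h7 : 2 / ((k : ℝ) + 1) = 1 / ((k : ℝ) + 1) + 1 / ((k : ℝ) + 1) := by ring
    have h8 : 0 < 1 / ((k : ℝ) + 1) := by positivity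
    linarith
  have h5 : (k' : ℝ) / n ≤ 1 := by
    rw [div_le_one hn0]
    exact_mod_cast hkn'.le
  have h6 := mul_le_mul_of_nonneg_left (R_mono h4 h3 h5) (show 0 ≤ 2 * (n : ℝ) by positivity)
  linarith

end Pool.Agent.T6.H53.CP
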