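import Pool.Agent.T6.H53.CP.FinB
import Pool.Agent.T6.H53.CP.Upp
import Pool.Agent.T6.H53.FR.A

/-!
Confined planar self-avoiding polygons: symmetric form of the bounds for boxes, upper bounds for
strips with the exponent of the correlation length.
-/

set_option autoImplicit false

namespace Pool.Agent.T6.H53.CP

open Pool.Agent.TH795.EP Pool.Agent.TH795.EP2 Pool.Agent.TH795.SE2 Pool.Agent.TH262.SawL
  Pool.Agent.Y981.L2 H981 Finset Filter Topology Pool.Agent.T6.H53.WL Pool.Agent.T6.H53.AL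

theorem bxp_symm_le {n : ℕ} (hn : 1 ≤ n) (W H : ℝ) : bxp n W H ≤ bxp n H W := by
  unfold bxp
  apply div_le_div_of_nonneg_right _ (Nat.cast_nonneg _)
  apply Nat.cast_le.2
  refine Set.ncard_le_ncard_of_injOn swp ?_ ?_ ((loops_finite hn).subset fun _ hf => hf.1)
  · rintro f ⟨h1, h2, h3⟩
    exact ⟨swp_loop h1, h3, h2⟩
  · intro f _ g _ hfg
    have := congrArg swp hfg
    simpa [swp_swp] using this

/-- the bounds for boxes, symmetric form -/
theorem box_sym (hB : StmBoxes) : ∃ C : ℝ, 1 ≤ C ∧ ∀ N : ℕ, 2 ≤ N → ∀ n : ℕ,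
    C * (N : ℝ) ^ 2 ≤ n → ∀ W H ℓ : ℝ, ℓ = Real.log N ^ 2 * xi (Real.exp (-(1 / (N : ℝ))) / mu) →
    C * ℓ ≤ W → C * ℓ ≤ H → C * (N * ℓ) ≤ max W H → C * (n / N * ℓ ^ 2) ≤ W * H →
    Real.exp (-(C * (n / N * Real.log N ^ 2))) ≤ bxp n W H := by
  obtain ⟨C, hC, h⟩ := box_all hB
  refine ⟨C, hC, ?_⟩
  intro N hN n hn W H ℓ hl hW hH hM hWH
  rw [hl] at hW hH hM hWH
  have hN0 : (1 : ℝ) ≤ (N : ℝ) ^ 2 := by
    have : (2 : ℝ) ≤ N := by exact_mod_cast hN
    nlinarith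
  have hn1 : 1 ≤ n := by
    have h1 : (1 : ℝ) * 1 ≤ C * (N : ℝ) ^ 2 := mul_le_mul hC hN0 (by norm_num) (by linarith)
    have h2 : (1 : ℝ) ≤ n := by linarith
    exact_mod_cast h2
  rcases max_choice W H with h1 | h1
  · rw [h1] at hM
    exact h N hN n hn W H hM hH hWH
  · rw [h1] at hM
    rw [mul_comm W H] at hWH
    exact (h N hN n hn H W hM hW hWH).trans (bxp_symm_le hn1 H W)

/-- the upper bound for strips with the exponent of the correlation length -/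
theorem upp_expo (hU : StmUpp) {θ : ℝ} (h0 : 0 < θ) (h1 : θ < 1)
    (hM : ∀ ε : ℝ, 0 < ε → ∀ᶠ z in 𝓝[<] (1 / mu), xi z ≤ (1 / mu - z) ^ (-(θ + ε)))
    {ε : ℝ} (hε : 0 < ε) : ∀ᶠ k : ℕ in atTop, ∀ᶠ n : ℕ in atTop,
      nrw n k ≤ Real.exp (-(n * (k : ℝ) ^ (-(1 / (1 - θ) + ε)))) := by
  have hR := (Pool.Agent.T6.H53.FR.stmA θ h0 h1).1 ((xi_upper θ h0).2 hM) ε hε
  have hlim : Tendsto (fun k : ℕ => 1 / (k : ℝ)) atTop (𝓝[>] 0) := by
    rw [tendsto_nhdsWithin_iff]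
    refine ⟨tendsto_one_div_atTop_nhds_zero_nat, ?_⟩
    filter_upwards [eventually_ge_atTop 1] with k hk
    have : (0 : ℝ) < k := by exact_mod_cast (by omega : 0 < k)
    exact one_div_pos.2 this
  filter_upwards [hlim.eventually hR, eventually_ge_atTop 2] with k h2 hk
  filter_upwards [upp_lim hU hk] with n hn
  refine hn.trans (Real.exp_le_exp.2 (neg_le_neg ?_))
  apply mul_le_mul_of_nonneg_left _ (Nat.cast_nonneg _)
  refine le_trans (le_of_eq ?_) h2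
  rw [one_div (k : ℝ), Real.inv_rpow (Nat.cast_nonneg _), Real.rpow_neg (Nat.cast_nonneg _)]

end Pool.Agent.T6.H53.CP
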